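import Mathlib

/-!
# Almost periods of zeta on the line `Re s = σ > 1`
-/

set_option autoImplicit false

open Complex Filter Topology Set

namespace Pool.Agent.Lib.MP_13bed0_nt

theorem almost_periods_fin (n0 : ℕ) {δ : ℝ} (hδ : 0 < δ) : ∃ ℓ : ℝ, 0 ≤ ℓ ∧ ∀ A : ℝ,
    ∃ τ : ℝ, A ≤ τ ∧ τ ≤ A + ℓ ∧
      ∀ n < n0, ‖Complex.exp (I * τ * Real.log ((n : ℝ) + 1)) - 1‖ ≤ δ := by
  set v : ℝ → (Fin n0 → ℂ) := fun t n => Complex.exp (I * t * Real.log (((n : ℕ) : ℝ) + 1)) with hv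
  have hnorm : ∀ (t x : ℝ), ‖Complex.exp (I * t * x)‖ = 1 := by
    intro t x
    rw [Complex.norm_exp]
    simp
  have hsub : range v ⊆ Metric.closedBall 0 1 := by
    rintro _ ⟨t, rfl⟩
    rw [Metric.mem_closedBall, dist_zero_right]
    refine (pi_norm_le_iff_of_nonneg (by norm_num)).2 fun n => ?_
    exact (hnorm t _).le
  have htb : TotallyBounded (range v) :=
    (isCompact_closedBall (0 : Fin n0 → ℂ) 1).totallyBounded.subset hsub
  obtain ⟨T, hTS, hTfin, hTcov⟩ := htb.exists_subset (Metric.dist_mem_uniformity hδ)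
  have hch : ∀ y : T, ∃ t : ℝ, v t = y := fun y => hTS y.2
  choose g hg using hch
  have : Finite T := hTfin
  obtain ⟨M, hM⟩ := (Set.finite_range fun y : T => |g y|).bddAbove
  refine ⟨2 * max M 0, by positivity, fun A => ?_⟩
  have hmem : v (A + max M 0) ∈ range v := ⟨_, rfl⟩
  obtain ⟨y, hyT, hy⟩ := mem_iUnion₂.1 (hTcov hmem)
  have hyt := hg ⟨y, hyT⟩
  set s := g ⟨y, hyT⟩ with hs
  have hsM : |s| ≤ max M 0 := (hM ⟨⟨y, hyT⟩, rfl⟩).trans (le_max_left _ _)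
  have hs' := abs_le.1 hsM
  refine ⟨A + max M 0 - s, by linarith [hs'.2], by linarith [hs'.1], fun n hn => ?_⟩
  have hd : dist (v (A + max M 0)) (v s) < δ := by
    rw [hyt]; exact hy
  have h1 := (dist_pi_lt_iff hδ).1 hd ⟨n, hn⟩
  rw [dist_eq_norm] at h1
  have e : Complex.exp (I * ((A + max M 0 : ℝ) : ℂ) * Real.log ((n : ℝ) + 1)) -
      Complex.exp (I * (s : ℂ) * Real.log ((n : ℝ) + 1)) =
      Complex.exp (I * (s : ℂ) * Real.log ((n : ℝ) + 1)) *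
      (Complex.exp (I * ((A + max M 0 - s : ℝ) : ℂ) * Real.log ((n : ℝ) + 1)) - 1) := by
    rw [mul_sub, ← Complex.exp_add, mul_one]
    congr 2
    push_cast; ring
  have h2 : ‖Complex.exp (I * ((A + max M 0 : ℝ) : ℂ) * Real.log ((n : ℝ) + 1)) -
      Complex.exp (I * (s : ℂ) * Real.log ((n : ℝ) + 1))‖ < δ := h1
  rw [e, norm_mul, hnorm, one_mul] at h2
  exact h2.le

theorem cpow_shift (n : ℕ) (s : ℂ) (τ : ℝ) :
    1 / ((n : ℂ) + 1) ^ (s - I * τ) =
      1 / ((n : ℂ) + 1) ^ s * Complex.exp (I * τ * Real.log ((n : ℝ) + 1)) := by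
  have hn : (0 : ℝ) < (n : ℝ) + 1 := by positivity
  have e : ((n : ℂ) + 1) = (((n : ℝ) + 1 : ℝ) : ℂ) := by push_cast; rfl
  have hne : (((n : ℝ) + 1 : ℝ) : ℂ) ≠ 0 := by exact_mod_cast hn.ne'
  rw [e, Complex.cpow_def_of_ne_zero hne, Complex.cpow_def_of_ne_zero hne, one_div, one_div,
    ← Complex.exp_neg, ← Complex.exp_neg, ← Complex.exp_add, ← Complex.ofReal_log hn.le]
  congr 1; ring

theorem norm_term (n : ℕ) (s : ℂ) :
    ‖1 / ((n : ℂ) + 1) ^ s‖ = 1 / ((n : ℝ) + 1) ^ s.re := by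
  have hn : (0 : ℝ) < (n : ℝ) + 1 := by positivity
  have e : ((n : ℂ) + 1) = (((n : ℝ) + 1 : ℝ) : ℂ) := by push_cast; rfl
  rw [norm_div, norm_one, e, Complex.norm_cpow_eq_rpow_re_of_pos hn]

theorem summable_term {σ : ℝ} (hσ : 1 < σ) : Summable fun n : ℕ => 1 / ((n : ℝ) + 1) ^ σ := by
  have := (Real.summable_one_div_nat_add_rpow 1 σ).2 hσ
  refine this.congr fun n => ?_
  rw [abs_of_pos (by positivity)]

theorem almost_periods {σ : ℝ} (hσ : 1 < σ) : ∃ ℓ : ℝ, 0 ≤ ℓ ∧ ∀ A : ℝ,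
    ∃ τ : ℝ, A ≤ τ ∧ τ ≤ A + ℓ ∧ ∀ s : ℂ, s.re = σ →
      ‖riemannZeta (s - I * τ) - riemannZeta s‖ ≤ 1 := by
  have hsum := summable_term hσ
  set f : ℕ → ℝ := fun n => 1 / ((n : ℝ) + 1) ^ σ with hf
  have hf0 : ∀ n, 0 ≤ f n := fun n => by rw [hf]; positivity
  -- choose n0 with small tail
  have htail := tendsto_sum_nat_add f
  obtain ⟨n0, hn0⟩ := (htail.eventually (ge_mem_nhds (show (0 : ℝ) < 1 / 4 by norm_num))).exists
  set S := ∑ n ∈ Finset.range n0, f n with hS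
  have hS0 : 0 ≤ S := Finset.sum_nonneg fun n _ => hf0 n
  obtain ⟨ℓ, hℓ, hap⟩ := almost_periods_fin n0 (δ := 1 / (2 * (S + 1))) (by positivity)
  refine ⟨ℓ, hℓ, fun A => ?_⟩
  obtain ⟨τ, h1, h2, h3⟩ := hap A
  refine ⟨τ, h1, h2, fun s hs => ?_⟩
  have hs1 : 1 < s.re := by rw [hs]; exact hσ
  have hs2 : 1 < (s - I * τ).re := by simpa using hs1
  rw [zeta_eq_tsum_one_div_nat_add_one_cpow hs1, zeta_eq_tsum_one_div_nat_add_one_cpow hs2]
  have sum1 : Summable fun n : ℕ => 1 / ((n : ℂ) + 1) ^ s := by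
    refine Summable.of_norm ?_
    simp_rw [norm_term, hs]; exact hsum
  have sum2 : Summable fun n : ℕ => 1 / ((n : ℂ) + 1) ^ (s - I * τ) := by
    refine Summable.of_norm ?_
    have : (s - I * τ).re = σ := by simp [hs]
    simp_rw [norm_term, this]; exact hsum
  rw [← sum2.tsum_sub sum1]
  set g : ℕ → ℂ := fun n => 1 / ((n : ℂ) + 1) ^ (s - I * τ) - 1 / ((n : ℂ) + 1) ^ s with hg
  have hgs : Summable g := sum2.sub sum1
  have hgn : ∀ n, ‖g n‖ = f n * ‖Complex.exp (I * τ * Real.log ((n : ℝ) + 1)) - 1‖ := by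
    intro n
    have e : g n = 1 / ((n : ℂ) + 1) ^ s * (Complex.exp (I * τ * Real.log ((n : ℝ) + 1)) - 1) := by
      simp only [hg]; rw [cpow_shift]; ring
    rw [e, norm_mul, norm_term, hs]
  have hg2 : ∀ n, ‖g n‖ ≤ 2 * f n := by
    intro n
    rw [hgn]
    have h4 : ‖Complex.exp (I * τ * Real.log ((n : ℝ) + 1)) - 1‖ ≤ 2 := by
      refine (norm_sub_le _ _).trans ?_
      have : ‖Complex.exp (I * τ * Real.log ((n : ℝ) + 1))‖ = 1 := by
        rw [Complex.norm_exp]; simp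
      rw [this, norm_one]; norm_num
    nlinarith [hf0 n]
  rw [← hgs.sum_add_tsum_nat_add n0]
  refine (norm_add_le _ _).trans ?_
  have hA : ‖∑ n ∈ Finset.range n0, g n‖ ≤ 1 / 2 := by
    refine (norm_sum_le _ _).trans ?_
    calc ∑ n ∈ Finset.range n0, ‖g n‖ ≤ ∑ n ∈ Finset.range n0, f n * (1 / (2 * (S + 1))) := by
          refine Finset.sum_le_sum fun n hn => ?_
          rw [hgn]
          exact mul_le_mul_of_nonneg_left (h3 n (Finset.mem_range.1 hn)) (hf0 n)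
      _ = S * (1 / (2 * (S + 1))) := by rw [← Finset.sum_mul]
      _ ≤ 1 / 2 := by
          rw [mul_one_div, div_le_div_iff₀ (by positivity) (by norm_num)]
          linarith
  have hB : ‖∑' n, g (n + n0)‖ ≤ 1 / 2 := by
    have hs3 : Summable fun n => f (n + n0) := (summable_nat_add_iff n0).2 hsum
    have := tsum_of_norm_bounded (hs3.hasSum.mul_left 2) (fun n => hg2 (n + n0))
    linarith
  linarith

end Pool.Agent.Lib.MP_13bed0_nt
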