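import Pool.Agent.Lib.MP_13bed0_nt.PFactor

/-!
# The modulus of the Gamma factor
-/

set_option autoImplicit false

open Complex Filter Topology ComplexConjugate

namespace Pool.Agent.Lib.MP_13bed0_nt

theorem norm_Gamma_half_sq (t : ℝ) :
    ‖Gamma (1 / 2 + t * I)‖ ^ 2 = Real.pi / Real.cosh (Real.pi * t) := by
  have h1 := Complex.Gamma_mul_Gamma_one_sub (1 / 2 + t * I)
  have h2 : (1 : ℂ) - (1 / 2 + t * I) = conj (1 / 2 + t * I) := by
    rw [map_add, map_mul, conj_I, conj_ofReal, map_div₀, map_one, map_ofNat]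
    ring
  rw [h2, Complex.Gamma_conj, Complex.mul_conj] at h1
  have h3 : Complex.sin (Real.pi * (1 / 2 + t * I)) = (Real.cosh (Real.pi * t) : ℂ) := by
    have : (Real.pi : ℂ) * (1 / 2 + t * I) = (Real.pi * t : ℂ) * I + Real.pi / 2 := by ring
    rw [this, Complex.sin_add_pi_div_two, Complex.cos_mul_I]
    push_cast; rfl
  rw [h3, Complex.normSq_eq_norm_sq] at h1
  exact_mod_cast h1

theorem norm_PF_half (x : ℝ) :
    ‖PF (x + (1 / 2 : ℝ) * I)‖ ^ 2 = 1 / 4 * (x ^ 2 * (1 + x ^ 2)) / Real.cosh (Real.pi * x / 2) := by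
  have hs : sv (x + (1 / 2 : ℝ) * I) = 1 - x * I := by
    unfold sv
    push_cast
    linear_combination (-(1 : ℂ) / 2) * Complex.I_sq
  unfold PF
  rw [hs, norm_mul, norm_mul, norm_mul, mul_pow, mul_pow, mul_pow]
  have h1 : ‖(1 : ℂ) - x * I‖ ^ 2 = 1 + x ^ 2 := by
    rw [← Complex.normSq_eq_norm_sq, Complex.normSq_apply]
    simp; ring
  have h2 : ‖(1 : ℂ) - x * I - 1‖ ^ 2 = x ^ 2 := by
    rw [← Complex.normSq_eq_norm_sq, Complex.normSq_apply]
    simp; ring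
  have h3 : ‖Gammaℝ (1 - x * I)‖ ^ 2 = 1 / Real.cosh (Real.pi * x / 2) := by
    rw [Gammaℝ_def, norm_mul, mul_pow]
    have e1 : ((1 : ℂ) - x * I) / 2 = 1 / 2 + ((-(x / 2) : ℝ) : ℂ) * I := by push_cast; ring
    rw [e1, norm_Gamma_half_sq]
    have e2 : ‖(Real.pi : ℂ) ^ (-(1 - x * I) / 2 : ℂ)‖ = Real.pi ^ (-(1 / 2) : ℝ) := by
      rw [Complex.norm_cpow_eq_rpow_re_of_pos Real.pi_pos]
      congr 1
      have : (-(1 - x * I) / 2 : ℂ) = ((-(1 / 2) : ℝ) : ℂ) + ((x / 2 : ℝ) : ℂ) * I := by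
        push_cast; ring
      rw [this]
      simp
    rw [e2]
    have e3 : (Real.pi ^ (-(1 / 2) : ℝ)) ^ 2 = Real.pi⁻¹ := by
      rw [← Real.rpow_natCast, ← Real.rpow_mul Real.pi_pos.le]
      norm_num
      rw [Real.rpow_neg_one]
    rw [e3]
    have e4 : Real.cosh (Real.pi * -(x / 2)) = Real.cosh (Real.pi * x / 2) := by
      rw [← Real.cosh_neg]; congr 1; ring
    rw [e4]
    have := Real.pi_ne_zero
    have := (Real.cosh_pos (Real.pi * x / 2)).ne'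
    field_simp
  rw [h1, h2, h3]
  have : ‖(1 / 2 : ℂ)‖ ^ 2 = 1 / 4 := by norm_num
  rw [this]
  ring

theorem tendsto_cosh_ratio : Tendsto (fun x : ℝ => Real.exp (Real.pi * x / 2) /
    Real.cosh (Real.pi * x / 2)) atTop (𝓝 2) := by
  have h1 : Tendsto (fun x : ℝ => Real.exp (-(Real.pi * x))) atTop (𝓝 0) := by
    refine Real.tendsto_exp_neg_atTop_nhds_zero.comp ?_
    exact tendsto_id.const_mul_atTop Real.pi_pos
  have h2 : Tendsto (fun x : ℝ => 2 / (1 + Real.exp (-(Real.pi * x)))) atTop (𝓝 (2 / (1 + 0))) :=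
    tendsto_const_nhds.div (tendsto_const_nhds.add h1) (by norm_num)
  have e : (2 : ℝ) / (1 + 0) = 2 := by norm_num
  rw [e] at h2
  refine h2.congr fun x => ?_
  rw [Real.cosh_eq]
  have e1 : Real.exp (-(Real.pi * x / 2)) = Real.exp (Real.pi * x / 2) * Real.exp (-(Real.pi * x)) := by
    rw [← Real.exp_add]; congr 1; ring
  rw [e1]
  have := (Real.exp_pos (Real.pi * x / 2)).ne'
  have h3 : (1 + Real.exp (-(Real.pi * x))) ≠ 0 := by positivity
  field_simp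

theorem tendsto_norm_PF_half : Tendsto (fun x : ℝ => ‖PF (x + (1 / 2 : ℝ) * I)‖ *
    (Real.exp (Real.pi * x / 4) / x ^ 2)) atTop (𝓝 (Real.sqrt (1 / 2))) := by
  have h1 : Tendsto (fun x : ℝ => (1 / 4 : ℝ) * (1 + (x ^ 2)⁻¹) * (Real.exp (Real.pi * x / 2) /
    Real.cosh (Real.pi * x / 2))) atTop (𝓝 (1 / 4 * (1 + 0) * 2)) := by
    refine Tendsto.mul ?_ tendsto_cosh_ratio
    refine Tendsto.const_mul _ (tendsto_const_nhds.add ?_)
    exact tendsto_inv_atTop_zero.comp (tendsto_pow_atTop (by norm_num))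
  have h2 := (Real.continuous_sqrt.tendsto _).comp h1
  have e0 : (1 / 4 : ℝ) * (1 + 0) * 2 = 1 / 2 := by norm_num
  rw [e0] at h2
  refine h2.congr' ?_
  filter_upwards [eventually_gt_atTop 0] with x hx
  have e1 : (1 / 4 : ℝ) * (1 + (x ^ 2)⁻¹) * (Real.exp (Real.pi * x / 2) /
    Real.cosh (Real.pi * x / 2)) = (‖PF (x + (1 / 2 : ℝ) * I)‖ *
    (Real.exp (Real.pi * x / 4) / x ^ 2)) ^ 2 := by
    rw [mul_pow, norm_PF_half x, div_pow, ← Real.exp_nat_mul]
    have e2 : ((2 : ℕ) : ℝ) * (Real.pi * x / 4) = Real.pi * x / 2 := by push_cast; ring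
    rw [e2]
    have := (Real.cosh_pos (Real.pi * x / 2)).ne'
    field_simp
    ring
  simp only [Function.comp]
  rw [e1, Real.sqrt_sq (by positivity)]

variable {ι : Type*} {l : Filter ι}

theorem tendsto_norm_PF {x : ι → ℝ} (hx : Tendsto x l atTop) {y0 : ℝ} (hy0 : 1 / 2 ≤ y0) :
    Tendsto (fun i => ‖PF (x i + y0 * I)‖ * (Real.exp (Real.pi * x i / 4) / x i ^ 2) *
      Real.exp (-((y0 - 1 / 2) * LL (x i)))) l (𝓝 (Real.sqrt (1 / 2))) := by
  have h1 := tendsto_norm_PF_half.comp hx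
  have h2 := tendsto_PF_ratio (l := l) (z := fun i => (x i : ℂ) + (1 / 2 : ℝ) * I)
    (h := fun _ => ((y0 - 1 / 2 : ℝ) : ℂ) * I) (B := 1 / 2) (H := max 1 (y0 - 1 / 2))
    (by simpa using hx) (fun i => by simp) (le_max_left _ _)
    (fun i => by
      rw [norm_mul, norm_I, mul_one, Complex.norm_real, Real.norm_eq_abs,
        abs_of_nonneg (by linarith)]
      exact le_max_right _ _)
    (fun i => by simp) (fun i => by simp; linarith)
  have h3 := h1.mul h2.norm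
  rw [norm_one, mul_one] at h3
  refine h3.congr' ?_
  filter_upwards [hx.eventually_gt_atTop 0] with i hi
  simp only [Function.comp]
  have e1 : ((x i : ℂ) + (1 / 2 : ℝ) * I) + ((y0 - 1 / 2 : ℝ) : ℂ) * I = x i + y0 * I := by
    push_cast; ring
  have hre : ((x i : ℂ) + (1 / 2 : ℝ) * I).re = x i := by simp
  rw [e1, norm_mul, norm_div, hre, Complex.norm_exp]
  have e2 : (I * (((y0 - 1 / 2 : ℝ) : ℂ) * I) * (LL (x i) : ℂ) +
      Real.pi * (((y0 - 1 / 2 : ℝ) : ℂ) * I) / 4).re = -((y0 - 1 / 2) * LL (x i)) := by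
    have : (I * (((y0 - 1 / 2 : ℝ) : ℂ) * I) * (LL (x i) : ℂ) +
      Real.pi * (((y0 - 1 / 2 : ℝ) : ℂ) * I) / 4) =
      ((-((y0 - 1 / 2) * LL (x i)) : ℝ) : ℂ) + ((Real.pi * (y0 - 1 / 2) / 4 : ℝ) : ℂ) * I := by
      push_cast
      linear_combination ((y0 : ℂ) - 1 / 2) * (LL (x i) : ℂ) * Complex.I_sq
    rw [this]; simp
  rw [e2]
  have hne : ‖PF ((x i : ℂ) + (1 / 2 : ℝ) * I)‖ ≠ 0 := by
    rw [norm_ne_zero_iff]
    apply PF_ne_zero
    · rw [hre]; exact hi.ne'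
    · simp
  field_simp

end Pool.Agent.Lib.MP_13bed0_nt
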