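import Pool.Agent.Lib.MP_13bed0_nt.AlmostPeriod

/-!
# Bounds for zeta in `Re s ≥ σ > 1` and behaviour near the pole
-/

set_option autoImplicit false

open Complex Filter Topology Set

namespace Pool.Agent.Lib.MP_13bed0_nt

/-- The bound. -/
noncomputable def Zb (σ : ℝ) : ℝ := ∑' n : ℕ, 1 / ((n : ℝ) + 1) ^ σ

theorem Zb_pos {σ : ℝ} (hσ : 1 < σ) : 0 < Zb σ := by
  have h := summable_term hσ
  refine h.tsum_pos (fun n => by positivity) 0 (by positivity)

theorem norm_zeta_le {σ : ℝ} (hσ : 1 < σ) {s : ℂ} (hs : σ ≤ s.re) : ‖riemannZeta s‖ ≤ Zb σ := by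
  rw [zeta_eq_tsum_one_div_nat_add_one_cpow (by linarith)]
  refine tsum_of_norm_bounded (summable_term hσ).hasSum fun n => ?_
  rw [norm_term]
  have h1 : (1 : ℝ) ≤ (n : ℝ) + 1 := by linarith [(Nat.cast_nonneg n : (0 : ℝ) ≤ n)]
  apply one_div_le_one_div_of_le (by positivity)
  exact Real.rpow_le_rpow_of_exponent_le h1 hs

theorem norm_moebius_le {σ : ℝ} (hσ : 1 < σ) {s : ℂ} (hs : σ ≤ s.re) :
    ‖LSeries (fun n => ((ArithmeticFunction.moebius n : ℤ) : ℂ)) s‖ ≤ Zb σ := by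
  unfold LSeries
  have hsum : Summable fun n : ℕ => LSeries.term (fun n => ((ArithmeticFunction.moebius n : ℤ) : ℂ)) s n :=
    ArithmeticFunction.LSeriesSummable_moebius_iff.2 (by linarith)
  rw [hsum.tsum_eq_zero_add, LSeries.term_zero, zero_add]
  refine tsum_of_norm_bounded (summable_term hσ).hasSum fun n => ?_
  rw [LSeries.norm_term_eq, if_neg (Nat.succ_ne_zero n)]
  have h1 : (1 : ℝ) ≤ (n : ℝ) + 1 := by linarith [(Nat.cast_nonneg n : (0 : ℝ) ≤ n)]
  have h2 : ‖((ArithmeticFunction.moebius (n + 1) : ℤ) : ℂ)‖ ≤ 1 := by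
    rw [Complex.norm_intCast]
    exact_mod_cast ArithmeticFunction.abs_moebius_le_one
  push_cast
  apply div_le_div₀ zero_le_one h2 (by positivity)
  exact Real.rpow_le_rpow_of_exponent_le h1 hs

theorem norm_zeta_ge {σ : ℝ} (hσ : 1 < σ) {s : ℂ} (hs : σ ≤ s.re) : 1 / Zb σ ≤ ‖riemannZeta s‖ := by
  have h1 := ArithmeticFunction.LSeries_zeta_mul_Lseries_moebius (s := s) (by linarith)
  rw [ArithmeticFunction.LSeries_zeta_eq_riemannZeta (by linarith)] at h1
  have h2 := congrArg norm h1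
  rw [norm_mul, norm_one] at h2
  have h3 := norm_moebius_le hσ hs
  have h4 := Zb_pos hσ
  rw [div_le_iff₀ h4]
  have h5 := norm_nonneg (riemannZeta s)
  calc (1 : ℝ) = _ := h2.symm
    _ ≤ ‖riemannZeta s‖ * Zb σ := mul_le_mul_of_nonneg_left h3 h5

theorem norm_deriv_zeta_le {σ : ℝ} (hσ : 1 < σ) {s : ℂ} (hs : σ ≤ s.re) :
    ‖deriv riemannZeta s‖ ≤ Zb ((1 + σ) / 2) / ((σ - 1) / 2) := by
  refine Complex.norm_deriv_le_of_forall_mem_sphere_norm_le (by linarith) ?_ ?_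
  · apply DifferentiableOn.diffContOnCl
    intro w hw
    apply DifferentiableAt.differentiableWithinAt
    apply differentiableAt_riemannZeta
    rintro rfl
    rw [closure_ball _ (by linarith), Metric.mem_closedBall, dist_eq_norm] at hw
    have h1 := Complex.abs_re_le_norm ((1 : ℂ) - s)
    rw [sub_re, one_re] at h1
    have h2 := neg_abs_le (1 - s.re)
    linarith
  · intro w hw
    rw [mem_sphere_iff_norm] at hw
    have h1 := Complex.abs_re_le_norm (w - s)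
    rw [sub_re, hw] at h1
    have h2 := neg_abs_le (w.re - s.re)
    exact norm_zeta_le (by linarith) (by linarith)

theorem zeta_lipschitz {σ : ℝ} (hσ : 1 < σ) {s t : ℂ} (hs : σ ≤ s.re) (ht : σ ≤ t.re) :
    ‖riemannZeta t - riemannZeta s‖ ≤ Zb ((1 + σ) / 2) / ((σ - 1) / 2) * ‖t - s‖ := by
  have hconv : Convex ℝ {w : ℂ | σ ≤ w.re} := convex_halfSpace_re_ge σ
  refine hconv.norm_image_sub_le_of_norm_deriv_le (fun w hw => ?_) (fun w hw => ?_) hs ht
  · apply differentiableAt_riemannZeta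
    rintro rfl
    have : σ ≤ (1 : ℂ).re := hw
    rw [one_re] at this
    linarith
  · exact norm_deriv_zeta_le hσ hw

/-- near the pole -/
theorem exists_sigma : ∃ σ : ℝ, 1 < σ ∧ σ < 3 / 2 ∧
    3 * (‖riemannZeta (σ + I)‖ + 1) + 1 ≤ ‖riemannZeta σ‖ := by
  have hof : Tendsto (fun σ : ℝ => (σ : ℂ)) (𝓝[>] 1) (𝓝[≠] 1) := by
    refine tendsto_nhdsWithin_iff.2 ⟨?_, ?_⟩
    · have := (Complex.continuous_ofReal.tendsto (1 : ℝ)).mono_left
        (nhdsWithin_le_nhds (s := Ioi (1 : ℝ)))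
      simpa using this
    · filter_upwards [self_mem_nhdsWithin] with σ hσ
      have hσ' : (1 : ℝ) < σ := hσ
      simp only [mem_compl_iff, mem_singleton_iff]
      intro h
      have : (σ : ℝ) = 1 := by exact_mod_cast h
      linarith
  have h1 := (riemannZeta_residue_one.comp hof).norm
  rw [norm_one] at h1
  -- so eventually ‖(σ - 1) ζ(σ)‖ ≥ 1/2
  have e1 : ∀ᶠ σ : ℝ in 𝓝[>] 1, (1 / 2 : ℝ) ≤ ‖((σ : ℂ) - 1) * riemannZeta σ‖ :=
    h1.eventually_const_le (by norm_num)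
  have hcont : ContinuousAt (fun σ : ℝ => ‖riemannZeta (σ + I)‖) 1 := by
    have h2 : ContinuousAt riemannZeta (((1 : ℝ) : ℂ) + I) := by
      apply (differentiableAt_riemannZeta _).continuousAt
      intro h
      have := congrArg Complex.im h
      simp at this
    have h3 : ContinuousAt (fun σ : ℝ => (σ : ℂ) + I) 1 := by fun_prop
    exact (ContinuousAt.comp (f := fun σ : ℝ => (σ : ℂ) + I) h2 h3).norm
  set K := ‖riemannZeta (((1 : ℝ) : ℂ) + I)‖ + 1 with hK
  have e2 : ∀ᶠ σ : ℝ in 𝓝[>] 1, ‖riemannZeta (σ + I)‖ ≤ K :=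
    (hcont.tendsto.mono_left nhdsWithin_le_nhds).eventually_le_const (by rw [hK]; linarith)
  have hK0 : 0 < K := by rw [hK]; positivity
  set r := 1 / (2 * (3 * (K + 1) + 1)) with hr
  have hr0 : 0 < r := by rw [hr]; positivity
  have hr2 : r < 1 / 2 := by
    rw [hr]
    apply one_div_lt_one_div_of_lt (by norm_num)
    linarith
  have e3 : ∀ᶠ σ : ℝ in 𝓝[>] 1, σ < 1 + r :=
    eventually_nhdsWithin_of_eventually_nhds (eventually_lt_nhds (by linarith))
  have e4 : ∀ᶠ σ : ℝ in 𝓝[>] 1, 1 < σ := self_mem_nhdsWithin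
  obtain ⟨σ, a1, a2, a3, a4⟩ := (e1.and (e2.and (e3.and e4))).exists
  refine ⟨σ, a4, by linarith, ?_⟩
  have h5 : ‖((σ : ℂ) - 1) * riemannZeta σ‖ = (σ - 1) * ‖riemannZeta σ‖ := by
    rw [norm_mul]
    congr 1
    have : (σ : ℂ) - 1 = ((σ - 1 : ℝ) : ℂ) := by push_cast; rfl
    rw [this, Complex.norm_real, Real.norm_eq_abs, abs_of_pos (by linarith)]
  rw [h5] at a1
  have h6 : (σ - 1) * ‖riemannZeta σ‖ ≤ r * ‖riemannZeta σ‖ :=
    mul_le_mul_of_nonneg_right (by linarith) (norm_nonneg _)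
  have h7 : 1 / 2 ≤ r * ‖riemannZeta σ‖ := a1.trans h6
  have h8 : 3 * (K + 1) + 1 ≤ ‖riemannZeta σ‖ := by
    rw [hr, one_div_mul_eq_div, le_div_iff₀ (by positivity)] at h7
    linarith
  linarith

end Pool.Agent.Lib.MP_13bed0_nt
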