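import Pool.Agent.Lib.MP_13bed0_nt.Local
import Pool.Agent.Lib.MP_13bed0_nt.PModulus
import Pool.Agent.Lib.MP_13bed0_nt.ZetaBounds

/-!
# Asymptotics along `x ≈ 4 (N+1)²`
-/

set_option autoImplicit false

open Complex Filter Topology MeasureTheory Set

namespace Pool.Agent.Lib.MP_13bed0_nt

/-- eventual version of the ratio asymptotics -/
theorem PF_ratio_ev {z h : ℕ → ℂ} {B H : ℝ} (hH : 1 ≤ H)
    (hx : Tendsto (fun N => (z N).re) atTop atTop)
    (hev : ∀ᶠ N in atTop, |(z N).im| ≤ B ∧ ‖h N‖ ≤ H ∧ 0 ≤ (z N).im ∧ 0 ≤ (z N + h N).im) :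
    Tendsto (fun N => PF (z N + h N) / PF (z N) *
      Complex.exp (I * h N * (LL (z N).re : ℂ) + Real.pi * h N / 4)) atTop (𝓝 1) := by
  classical
  set P : ℕ → Prop := fun N => |(z N).im| ≤ B ∧ ‖h N‖ ≤ H ∧ 0 ≤ (z N).im ∧ 0 ≤ (z N + h N).im
    with hP
  have hB : 0 ≤ max B 0 := le_max_right _ _
  set z' : ℕ → ℂ := fun N => if P N then z N else ((z N).re : ℂ) with hz'
  set h' : ℕ → ℂ := fun N => if P N then h N else 0 with hh'
  have hre : ∀ N, (z' N).re = (z N).re := by
    intro N; simp only [hz']; split_ifs <;> simp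
  have key := tendsto_PF_ratio (l := atTop) (z := z') (h := h') (B := max B 0) (H := H)
    (by simp_rw [hre]; exact hx)
    (fun N => by
      simp only [hz']; split_ifs with hc
      · exact hc.1.trans (le_max_left _ _)
      · simp)
    hH
    (fun N => by
      simp only [hh']; split_ifs with hc
      · exact hc.2.1
      · simp; linarith)
    (fun N => by
      simp only [hz']; split_ifs with hc
      · exact hc.2.2.1
      · simp)
    (fun N => by
      simp only [hz', hh']; split_ifs with hc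
      · exact hc.2.2.2
      · simp)
  refine key.congr' ?_
  filter_upwards [hev] with N hN
  have hc : P N := hN
  simp only [hz', hh', if_pos hc]

/-- eventual version of the tail asymptotics -/
theorem tail_lim_ev {z : ℕ → ℂ} {c : ℝ} (hz : Tendsto (fun N => z N / an N) atTop (𝓝 (c : ℂ)))
    (hev : ∀ᶠ N in atTop, 1 / 2 < (z N).im ∧ (z N).im ≤ 2) :
    Tendsto (fun N => ((Real.exp (an N) / an N : ℝ) : ℂ) * TT N (z N)) atTop (𝓝 (kap c)) := by
  classical
  set z' : ℕ → ℂ := fun N => if 1 / 2 < (z N).im ∧ (z N).im ≤ 2 then z N else I with hz'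
  have heq : ∀ᶠ N in atTop, z' N = z N := by
    filter_upwards [hev] with N hN
    simp only [hz', if_pos hN]
  have key := tail_lim (z := z') (c := c)
    (hz.congr' (by filter_upwards [heq] with N hN; rw [hN]))
    (fun N => by
      simp only [hz']; split_ifs with hc
      · exact hc.1
      · simp; norm_num)
    (fun N => by
      simp only [hz']; split_ifs with hc
      · exact hc.2
      · simp)
  refine key.congr' ?_
  filter_upwards [heq] with N hN
  rw [hN]

/-- `X_N = 4 (N+1)²` -/
noncomputable def XN (N : ℕ) : ℝ := 4 * an N / Real.pi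

theorem XN_eq (N : ℕ) : XN N = 4 * ((N : ℝ) + 1) ^ 2 := by
  unfold XN an
  have := Real.pi_ne_zero
  field_simp

theorem XN_pos (N : ℕ) : 0 < XN N := by rw [XN_eq]; positivity

theorem XN_tendsto : Tendsto XN atTop atTop := by
  have h1 := (an_tendsto.const_mul_atTop (show (0 : ℝ) < 4 by norm_num)).atTop_div_const Real.pi_pos
  exact h1

noncomputable def LN (N : ℕ) : ℝ := LL (XN N)

theorem LN_tendsto : Tendsto LN atTop atTop := by
  unfold LN LL
  refine Tendsto.const_mul_atTop (by norm_num) ?_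
  exact Real.tendsto_log_atTop.comp (XN_tendsto.atTop_div_const (by positivity))

noncomputable def xs (k0 : ℝ) (N : ℕ) : ℝ :=
  XN N + 4 / Real.pi * Real.log (XN N ^ 2 * Real.exp (k0 * LN N) / an N)

theorem log_part (k0 : ℝ) (N : ℕ) :
    Real.log (XN N ^ 2 * Real.exp (k0 * LN N) / an N) =
      (1 + k0 / 2) * Real.log (XN N) + (-(k0 / 2) * Real.log (2 * Real.pi)
        - Real.log (Real.pi / 4)) := by
  have hX := XN_pos N
  have ha := an_pos N
  have e : an N = Real.pi / 4 * XN N := by unfold XN; have := Real.pi_ne_zero; field_simp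
  rw [Real.log_div (by positivity) ha.ne', Real.log_mul (by positivity) (Real.exp_pos _).ne',
    Real.log_exp, Real.log_pow, e, Real.log_mul (by positivity) hX.ne']
  unfold LN LL
  rw [Real.log_div hX.ne' (by positivity)]
  push_cast
  ring

theorem xs_div (k0 : ℝ) : Tendsto (fun N => (xs k0 N - XN N) / XN N) atTop (𝓝 0) := by
  have h1 : Tendsto (fun N => Real.log (XN N) / XN N) atTop (𝓝 0) :=
    (Real.isLittleO_log_id_atTop.tendsto_div_nhds_zero).comp XN_tendsto
  have h2 : Tendsto (fun N => (-(k0 / 2) * Real.log (2 * Real.pi) - Real.log (Real.pi / 4)) / XN N)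
      atTop (𝓝 0) := XN_tendsto.const_div_atTop _
  have h3 := ((h1.const_mul (1 + k0 / 2)).add h2).const_mul (4 / Real.pi)
  rw [mul_zero, zero_add, mul_zero] at h3
  refine h3.congr fun N => ?_
  unfold xs
  rw [log_part]
  have hX := (XN_pos N).ne'
  have := Real.pi_ne_zero
  field_simp
  ring

variable {k0 R : ℝ} {x : ℕ → ℝ}

theorem x_div (hx : ∀ N, |x N - xs k0 N| ≤ R) : Tendsto (fun N => x N / XN N) atTop (𝓝 1) := by
  have h1 : Tendsto (fun N => (x N - xs k0 N) / XN N) atTop (𝓝 0) := by
    refine squeeze_zero_norm (a := fun N => R / XN N) ?_ (XN_tendsto.const_div_atTop _)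
    intro N
    rw [Real.norm_eq_abs, abs_div, abs_of_pos (XN_pos N)]
    exact div_le_div_of_nonneg_right (hx N) (XN_pos N).le
  have h2 := (h1.add (xs_div k0)).const_add 1
  rw [zero_add, add_zero] at h2
  refine h2.congr fun N => ?_
  have hX := (XN_pos N).ne'
  field_simp
  ring

theorem x_tendsto (hx : ∀ N, |x N - xs k0 N| ≤ R) : Tendsto x atTop atTop := by
  have h1 := (x_div hx).pos_mul_atTop one_pos XN_tendsto
  refine h1.congr fun N => ?_
  have hX := (XN_pos N).ne'
  field_simp

theorem LL_sub (hx : ∀ N, |x N - xs k0 N| ≤ R) : Tendsto (fun N => LL (x N) - LN N) atTop (𝓝 0) := by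
  have h1 := (Real.continuousAt_log one_ne_zero).tendsto.comp (x_div hx)
  rw [Real.log_one] at h1
  have h2 := h1.const_mul (1 / 2)
  rw [mul_zero] at h2
  refine h2.congr' ?_
  filter_upwards [(x_tendsto hx).eventually_gt_atTop 0] with N hN
  have hX := XN_pos N
  simp only [Function.comp]
  unfold LN LL
  rw [Real.log_div hN.ne' hX.ne', Real.log_div hN.ne' (by positivity),
    Real.log_div hX.ne' (by positivity)]
  ring

theorem x_div_an (hx : ∀ N, |x N - xs k0 N| ≤ R) :
    Tendsto (fun N => x N / an N) atTop (𝓝 (4 / Real.pi)) := by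
  have h1 := (x_div hx).mul_const (4 / Real.pi)
  rw [one_mul] at h1
  refine h1.congr fun N => ?_
  have ha := (an_pos N).ne'
  have hX := (XN_pos N).ne'
  have := Real.pi_ne_zero
  have e : XN N = 4 * an N / Real.pi := rfl
  rw [e]
  field_simp

/-- bounded perturbations do not change the limit of `z / a`. -/
theorem z_div_an (hx : ∀ N, |x N - xs k0 N| ≤ R) {g : ℕ → ℂ} {G : ℝ}
    (hg : ∀ᶠ N in atTop, ‖g N‖ ≤ G) :
    Tendsto (fun N => ((x N : ℂ) + g N) / an N) atTop (𝓝 (((4 / Real.pi : ℝ)) : ℂ)) := by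
  have h1 := (Complex.continuous_ofReal.tendsto _).comp (x_div_an hx)
  have h2 : Tendsto (fun N => g N / (an N : ℂ)) atTop (𝓝 0) := by
    refine squeeze_zero_norm' (a := fun N => G / an N) ?_ (an_tendsto.const_div_atTop _)
    filter_upwards [hg] with N hN
    rw [norm_div, Complex.norm_real, Real.norm_eq_abs, abs_of_pos (an_pos N)]
    exact div_le_div_of_nonneg_right hN (an_pos N).le
  have h3 := h1.add h2
  rw [add_zero] at h3
  refine h3.congr fun N => ?_
  simp only [Function.comp]
  push_cast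
  ring

theorem PF_modulus {y0 : ℝ} (hy0 : 1 / 2 ≤ y0) (hk : k0 = y0 - 1 / 2)
    (hx : ∀ N, |x N - xs k0 N| ≤ R) :
    Tendsto (fun N => ‖PF (x N + y0 * I)‖ * (Real.exp (an N) / an N) *
      Real.exp (Real.pi * (x N - xs k0 N) / 4)) atTop (𝓝 (Real.sqrt (1 / 2))) := by
  have h1 := tendsto_norm_PF (x_tendsto hx) hy0
  have h2 := (x_div hx).pow 2
  have h3 := (Real.continuous_exp.tendsto _).comp ((LL_sub hx).const_mul k0)
  rw [mul_zero, Real.exp_zero] at h3
  have h4 := (h1.mul h2).mul h3
  rw [one_pow, mul_one, mul_one] at h4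
  refine h4.congr' ?_
  filter_upwards [(x_tendsto hx).eventually_gt_atTop 0] with N hN
  simp only [Function.comp]
  have hX := XN_pos N
  have ha := an_pos N
  have e1 : Real.exp (Real.pi * (x N - xs k0 N) / 4) = Real.exp (Real.pi * x N / 4) *
      (Real.exp (an N) * (XN N ^ 2 * Real.exp (k0 * LN N) / an N))⁻¹ := by
    have e2 : Real.pi * (x N - xs k0 N) / 4 = Real.pi * x N / 4 -
        (an N + Real.log (XN N ^ 2 * Real.exp (k0 * LN N) / an N)) := by
      have e3 : an N = Real.pi / 4 * XN N := by unfold XN; have := Real.pi_ne_zero; field_simp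
      have : Real.pi * (4 / Real.pi) = 4 := by have := Real.pi_ne_zero; field_simp
      unfold xs
      have h5 : Real.pi * (x N - (XN N + 4 / Real.pi *
          Real.log (XN N ^ 2 * Real.exp (k0 * LN N) / an N))) / 4 =
          Real.pi * x N / 4 - (Real.pi / 4 * XN N) - (Real.pi * (4 / Real.pi)) *
          Real.log (XN N ^ 2 * Real.exp (k0 * LN N) / an N) / 4 := by ring
      rw [h5, this, ← e3]
      ring
    rw [e2, Real.exp_sub, Real.exp_add, Real.exp_log (by positivity), div_eq_mul_inv]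
  have e4 : Real.exp (k0 * (LL (x N) - LN N)) = Real.exp (k0 * LL (x N)) * (Real.exp (k0 * LN N))⁻¹ := by
    rw [mul_sub, Real.exp_sub, div_eq_mul_inv]
  have e5 : Real.exp (-((y0 - 1 / 2) * LL (x N))) = (Real.exp (k0 * LL (x N)))⁻¹ := by
    rw [Real.exp_neg, hk]
  rw [e1, e4, e5]
  have n1 := (Real.exp_pos (k0 * LL (x N))).ne'
  have n2 := (Real.exp_pos (k0 * LN N)).ne'
  have n3 := (Real.exp_pos (an N)).ne'
  field_simp

end Pool.Agent.Lib.MP_13bed0_nt
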