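import Mathlib

/-!
# The integrals `∫ exp (c u - a e^{2u}) du`
-/

set_option autoImplicit false

open Complex Filter Topology MeasureTheory Set

namespace Pool.Agent.Lib.MP_13bed0_nt

theorem image_exp {a : ℝ} (ha : 0 < a) : (fun u : ℝ => a * Real.exp (2 * u)) '' univ = Ioi 0 := by
  ext t
  simp only [mem_image, mem_univ, true_and, mem_Ioi]
  constructor
  · rintro ⟨u, rfl⟩; positivity
  · intro ht
    refine ⟨Real.log (t / a) / 2, ?_⟩
    rw [mul_div_cancel₀ _ (two_ne_zero), Real.exp_log (by positivity)]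
    field_simp

theorem inj_exp {a : ℝ} (ha : 0 < a) : InjOn (fun u : ℝ => a * Real.exp (2 * u)) univ := by
  intro u _ v _ h
  have h1 : Real.exp (2 * u) = Real.exp (2 * v) := mul_left_cancel₀ ha.ne' h
  have h2 := Real.exp_injective h1
  linarith

theorem hasDeriv_exp (a : ℝ) (u : ℝ) :
    HasDerivWithinAt (fun u : ℝ => a * Real.exp (2 * u)) (a * (Real.exp (2 * u) * 2)) univ u := by
  rw [hasDerivWithinAt_univ]
  have h1 : HasDerivAt (fun u : ℝ => 2 * u) 2 u := by
    simpa using (hasDerivAt_id u).const_mul 2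
  exact (h1.exp).const_mul a

theorem integrand_eq {c : ℂ} {a : ℝ} (ha : 0 < a) (u : ℝ) :
    |a * (Real.exp (2 * u) * 2)| • ((((-(a * Real.exp (2 * u))).exp : ℝ) : ℂ) *
      ((a * Real.exp (2 * u) : ℝ) : ℂ) ^ (c / 2 - 1)) =
    (2 * (a : ℂ) ^ (c / 2)) * Complex.exp (c * u - a * Real.exp (2 * u)) := by
  have ha' : (a : ℂ) ≠ 0 := by exact_mod_cast ha.ne'
  have he : (0 : ℝ) < Real.exp (2 * u) := Real.exp_pos _
  rw [abs_of_pos (by positivity), Complex.real_smul]
  rw [Complex.ofReal_mul a (Real.exp (2 * u)), Complex.mul_cpow_ofReal_nonneg ha.le he.le]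
  rw [Complex.cpow_sub _ _ ha', Complex.cpow_one]
  have h1 : ((Real.exp (2 * u) : ℝ) : ℂ) ^ (c / 2 - 1) = Complex.exp ((c - 2) * u) := by
    rw [Complex.cpow_def_of_ne_zero (by exact_mod_cast he.ne'), ← Complex.ofReal_log he.le,
      Real.log_exp]
    congr 1
    push_cast; ring
  rw [h1]
  push_cast
  have h2 : Complex.exp (c * u - a * Complex.exp (2 * u)) =
      Complex.exp (2 * u) * Complex.exp ((c - 2) * u) * Complex.exp (-(a * Complex.exp (2 * u))) := by
    rw [← Complex.exp_add, ← Complex.exp_add]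
    congr 1; ring
  rw [h2]
  field_simp

theorem exp_int {c : ℂ} {a : ℝ} (hc : 0 < c.re) (ha : 0 < a) :
    Integrable (fun u : ℝ => Complex.exp (c * u - a * Real.exp (2 * u))) ∧
    ∫ u : ℝ, Complex.exp (c * u - a * Real.exp (2 * u)) =
      1 / 2 * (a : ℂ) ^ (-(c / 2)) * Complex.Gamma (c / 2) := by
  have hc2 : 0 < (c / 2).re := by rw [Complex.div_ofNat_re]; positivity
  have ha' : (a : ℂ) ≠ 0 := by exact_mod_cast ha.ne'
  have hcp : (2 * (a : ℂ) ^ (c / 2)) ≠ 0 := by
    refine mul_ne_zero two_ne_zero ?_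
    rw [Complex.cpow_def_of_ne_zero ha']
    exact Complex.exp_ne_zero _
  have h1 := Complex.GammaIntegral_convergent hc2
  have h2 := (integrableOn_image_iff_integrableOn_abs_deriv_smul MeasurableSet.univ
    (fun x _ => hasDeriv_exp a x) (inj_exp ha)
    (fun t : ℝ => (((-t).exp : ℝ) : ℂ) * (t : ℂ) ^ (c / 2 - 1))).1 (by rw [image_exp ha]; exact h1)
  have h3 := integral_image_eq_integral_abs_deriv_smul MeasurableSet.univ
    (fun x _ => hasDeriv_exp a x) (inj_exp ha)
    (fun t : ℝ => (((-t).exp : ℝ) : ℂ) * (t : ℂ) ^ (c / 2 - 1))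
  rw [image_exp ha] at h3
  simp only [integrand_eq ha] at h2 h3
  rw [integrableOn_univ] at h2
  rw [Measure.restrict_univ] at h3
  constructor
  · exact (integrable_const_mul_iff (IsUnit.mk0 _ hcp) _).1 h2
  · rw [MeasureTheory.integral_const_mul] at h3
    rw [Complex.Gamma_eq_integral hc2, Complex.GammaIntegral, h3, Complex.cpow_neg]
    have : (a : ℂ) ^ (c / 2) ≠ 0 := fun h => hcp (by rw [h, mul_zero])
    field_simp

end Pool.Agent.Lib.MP_13bed0_nt
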