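import Mathlib

/-!
# Asymptotics of the ratio `Γ(s+h) / Γ(s)` as `|Im s| → ∞`
-/

set_option autoImplicit false

open Complex Filter Topology

namespace Pool.Agent.Lib.MP_13bed0_nt

theorem key_local {h w : ℂ} {H : ℝ} (hH : 1 ≤ H) (hh : ‖h‖ ≤ H) (hw : ‖w‖ ≤ 1 / (4 * H)) :
    ‖Complex.exp (h * Complex.log (1 + w)) / (1 + h * w) - 1‖ ≤ 4 * H ^ 2 * ‖w‖ ^ 2 := by
  have hH0 : 0 < H := by linarith
  have hw4 : ‖w‖ ≤ 1 / 4 := by
    refine hw.trans ?_
    apply one_div_le_one_div_of_le (by norm_num)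
    linarith
  have hw0 := norm_nonneg w
  have hHw : H * ‖w‖ ≤ 1 / 4 := by
    have := mul_le_mul_of_nonneg_left hw hH0.le
    calc H * ‖w‖ ≤ H * (1 / (4 * H)) := this
      _ = 1 / 4 := by field_simp
  have h1 : ‖Complex.log (1 + w) - w‖ ≤ ‖w‖ ^ 2 := by
    refine (Complex.norm_log_one_add_sub_self_le (by linarith)).trans ?_
    have h2 : (1 - ‖w‖)⁻¹ ≤ 2 := by
      rw [inv_le_comm₀ (by linarith) (by norm_num)]
      linarith
    have h3 : 0 ≤ ‖w‖ ^ 2 := by positivity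
    nlinarith
  have h2 : ‖Complex.log (1 + w)‖ ≤ 5 / 4 * ‖w‖ := by
    have h3 : Complex.log (1 + w) = (Complex.log (1 + w) - w) + w := by ring
    rw [h3]
    refine (norm_add_le _ _).trans ?_
    nlinarith
  have hv : ‖h * Complex.log (1 + w)‖ ≤ 5 / 4 * (H * ‖w‖) := by
    rw [norm_mul]
    calc ‖h‖ * ‖Complex.log (1 + w)‖ ≤ H * (5 / 4 * ‖w‖) :=
          mul_le_mul hh h2 (norm_nonneg _) hH0.le
      _ = _ := by ring
  have hv1 : ‖h * Complex.log (1 + w)‖ ≤ 1 := by linarith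
  have h3 := Complex.norm_exp_sub_one_sub_id_le hv1
  have h4 : ‖Complex.exp (h * Complex.log (1 + w)) - (1 + h * w)‖ ≤ 3 * (H ^ 2 * ‖w‖ ^ 2) := by
    have h5 : Complex.exp (h * Complex.log (1 + w)) - (1 + h * w) =
        (Complex.exp (h * Complex.log (1 + w)) - 1 - h * Complex.log (1 + w)) +
          h * (Complex.log (1 + w) - w) := by ring
    rw [h5]
    refine (norm_add_le _ _).trans ?_
    have h6 : ‖h * (Complex.log (1 + w) - w)‖ ≤ H * ‖w‖ ^ 2 := by
      rw [norm_mul]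
      exact mul_le_mul hh h1 (norm_nonneg _) hH0.le
    have h7 : ‖h * Complex.log (1 + w)‖ ^ 2 ≤ (5 / 4 * (H * ‖w‖)) ^ 2 :=
      pow_le_pow_left₀ (norm_nonneg _) hv 2
    have h8 : H * ‖w‖ ^ 2 ≤ H ^ 2 * ‖w‖ ^ 2 := by
      have : 0 ≤ ‖w‖ ^ 2 := by positivity
      nlinarith
    have h9 : 0 ≤ H ^ 2 * ‖w‖ ^ 2 := by positivity
    nlinarith
  have h5 : 3 / 4 ≤ ‖1 + h * w‖ := by
    have h6 : ‖h * w‖ ≤ 1 / 4 := by
      rw [norm_mul]
      exact (mul_le_mul_of_nonneg_right hh hw0).trans hHw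
    have h7 : ‖(1 : ℂ)‖ ≤ ‖1 + h * w‖ + ‖h * w‖ := by
      have := norm_sub_le (1 + h * w) (h * w)
      simpa using this
    rw [norm_one] at h7
    linarith
  have hne : 1 + h * w ≠ 0 := by
    rw [← norm_pos_iff]; linarith
  have h6 : Complex.exp (h * Complex.log (1 + w)) / (1 + h * w) - 1 =
      (Complex.exp (h * Complex.log (1 + w)) - (1 + h * w)) / (1 + h * w) := by
    field_simp
  rw [h6, norm_div, div_le_iff₀ (by linarith)]
  have h9 : 0 ≤ H ^ 2 * ‖w‖ ^ 2 := by positivity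
  nlinarith

/-- The normalised ratio. -/
noncomputable def Rat (h s : ℂ) : ℂ :=
  Gamma (s + h) / (Gamma s * Complex.exp (h * Complex.log s))

theorem log_add_one {s : ℂ} (hs : 0 < s.re) :
    Complex.log (s + 1) = Complex.log s + Complex.log (1 + s⁻¹) := by
  have hs0 : s ≠ 0 := by rintro rfl; simp at hs
  have h1 : 0 < (1 + s⁻¹).re := by
    rw [add_re, one_re, inv_re]
    have : 0 < normSq s := normSq_pos.2 hs0
    positivity
  have hs1 : 1 + s⁻¹ ≠ 0 := by
    intro h; rw [h] at h1; simp at h1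
  have h2 : s + 1 = s * (1 + s⁻¹) := by field_simp
  rw [h2, Complex.log_mul hs0 hs1]
  have ha := Complex.abs_arg_lt_pi_div_two_iff.2 (Or.inl hs)
  have hb := Complex.abs_arg_lt_pi_div_two_iff.2 (Or.inl h1)
  rw [abs_lt] at ha hb
  constructor <;> linarith

theorem Rat_step {h s : ℂ} (hs : 0 < s.re) (hsh : 0 < (s + h).re) :
    Rat h s = (Complex.exp (h * Complex.log (1 + s⁻¹)) / (1 + h * s⁻¹)) * Rat h (s + 1) := by
  have hs0 : s ≠ 0 := by rintro rfl; simp at hs
  have hsh0 : s + h ≠ 0 := by intro e; rw [e] at hsh; simp at hsh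
  have hG : Gamma s ≠ 0 := Gamma_ne_zero_of_re_pos hs
  unfold Rat
  rw [Gamma_add_one s hs0, log_add_one hs]
  have e1 : s + 1 + h = (s + h) + 1 := by ring
  rw [e1, Gamma_add_one _ hsh0, mul_add, Complex.exp_add]
  have e2 : 1 + h * s⁻¹ = (s + h) / s := by field_simp
  rw [e2]
  have e3 := Complex.exp_ne_zero (h * Complex.log (1 + s⁻¹))
  have e4 := Complex.exp_ne_zero (h * Complex.log s)
  field_simp

theorem Rat_prod {h s : ℂ} (hs : 0 < s.re) (hsh : 0 < (s + h).re) (n : ℕ) :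
    Rat h s = (∏ k ∈ Finset.range n,
      (Complex.exp (h * Complex.log (1 + (s + k)⁻¹)) / (1 + h * (s + k)⁻¹))) * Rat h (s + n) := by
  induction n with
  | zero => simp
  | succ n ih =>
    rw [ih, Finset.prod_range_succ, mul_assoc]
    congr 1
    have h1 : 0 < (s + n).re := by
      rw [add_re, natCast_re]; positivity
    have h2 : 0 < (s + n + h).re := by
      rw [add_re, add_re, natCast_re]
      rw [add_re] at hsh
      have : (0 : ℝ) ≤ n := by positivity
      linarith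
    rw [Rat_step h1 h2]
    congr 2
    push_cast
    ring

/-- Γ(s + n + 1) in terms of `GammaSeq`. -/
theorem Gamma_add_nat {s : ℂ} (hs : 0 < s.re) (n : ℕ) :
    Gamma (s + (n + 1 : ℕ)) = Gamma s * ∏ j ∈ Finset.range (n + 1), (s + j) := by
  induction n with
  | zero =>
    have hs0 : s ≠ 0 := by rintro rfl; simp at hs
    simp [Gamma_add_one s hs0, mul_comm]
  | succ n ih =>
    rw [Finset.prod_range_succ, ← mul_assoc, ← ih]
    have h1 : s + (n + 1 : ℕ) ≠ 0 := by
      intro e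
      have := congrArg Complex.re e
      rw [add_re, natCast_re, zero_re] at this
      have h2 : (0 : ℝ) ≤ ((n + 1 : ℕ) : ℝ) := by positivity
      linarith
    have e : s + ((n + 1 + 1 : ℕ) : ℂ) = (s + (n + 1 : ℕ)) + 1 := by push_cast; ring
    rw [e, Gamma_add_one _ h1, mul_comm]

theorem prod_ne_zero' {s : ℂ} (hs : 0 < s.re) (n : ℕ) :
    ∏ j ∈ Finset.range n, (s + j) ≠ 0 := by
  rw [Finset.prod_ne_zero_iff]
  intro j _ e
  have := congrArg Complex.re e
  rw [add_re, natCast_re, zero_re] at this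
  have h2 : (0 : ℝ) ≤ (j : ℝ) := by positivity
  linarith

theorem log_ratio_tendsto (s : ℂ) :
    Tendsto (fun n : ℕ => Complex.log (s + (n + 1 : ℕ)) - Complex.log (n : ℂ)) atTop (𝓝 0) := by
  have h1 : Tendsto (fun n : ℕ => (1 + (s + 1) / (n : ℂ))) atTop (𝓝 (1 + 0)) := by
    refine Tendsto.const_add _ ?_
    have := tendsto_inv_atTop_nhds_zero_nat (𝕜 := ℂ)
    simpa [div_eq_mul_inv] using this.const_mul (s + 1)
  rw [add_zero] at h1
  have h2 : Tendsto (fun n : ℕ => Complex.log (1 + (s + 1) / (n : ℂ))) atTop (𝓝 0) := by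
    have := (continuousAt_clog (x := 1) (by simp)).tendsto.comp h1
    rw [Complex.log_one] at this
    exact this
  refine h2.congr' ?_
  filter_upwards [eventually_gt_atTop 0, h1.eventually_ne one_ne_zero] with n hn hz
  have hn0 : (n : ℂ) ≠ 0 := by exact_mod_cast hn.ne'
  have hnr : (0 : ℝ) < n := by exact_mod_cast hn
  have e : s + ((n + 1 : ℕ) : ℂ) = ((n : ℝ) : ℂ) * (1 + (s + 1) / n) := by
    push_cast; field_simp; ring
  rw [e, Complex.log_ofReal_mul hnr hz]
  rw [show ((n : ℂ)) = ((n : ℝ) : ℂ) by simp, ← Complex.ofReal_log hnr.le]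
  ring

theorem Rat_tendsto {h s : ℂ} (hs : 0 < s.re) (hsh : 0 < (s + h).re) :
    Tendsto (fun n : ℕ => Rat h (s + (n + 1 : ℕ))) atTop (𝓝 1) := by
  have hG : Gamma s ≠ 0 := Gamma_ne_zero_of_re_pos hs
  have hGh : Gamma (s + h) ≠ 0 := Gamma_ne_zero_of_re_pos hsh
  have t1 : Tendsto (fun n : ℕ => Gamma (s + h) / GammaSeq (s + h) n) atTop
      (𝓝 (Gamma (s + h) / Gamma (s + h))) :=
    (tendsto_const_nhds).div (GammaSeq_tendsto_Gamma (s + h)) hGh
  have t2 : Tendsto (fun n : ℕ => GammaSeq s n / Gamma s) atTop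
      (𝓝 (Gamma s / Gamma s)) :=
    (GammaSeq_tendsto_Gamma s).div_const _
  have t3 : Tendsto (fun n : ℕ => Complex.exp (-(h * (Complex.log (s + (n + 1 : ℕ)) -
      Complex.log (n : ℂ))))) atTop (𝓝 (Complex.exp (-(h * 0)))) := by
    refine (Complex.continuous_exp.tendsto _).comp ?_
    exact ((log_ratio_tendsto s).const_mul h).neg
  rw [div_self hGh] at t1
  rw [div_self hG] at t2
  have t4 := (t1.mul t2).mul t3
  simp only [mul_zero, neg_zero, Complex.exp_zero, mul_one] at t4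
  refine t4.congr' ?_
  filter_upwards [eventually_gt_atTop 0] with n hn
  have hn0 : (n : ℂ) ≠ 0 := by exact_mod_cast hn.ne'
  unfold Rat
  have e1 : s + ((n + 1 : ℕ) : ℂ) + h = (s + h) + ((n + 1 : ℕ) : ℂ) := by ring
  rw [e1, Gamma_add_nat hsh, Gamma_add_nat hs]
  unfold GammaSeq
  have p1 := prod_ne_zero' hs (n + 1)
  have p2 := prod_ne_zero' hsh (n + 1)
  have f0 : (n.factorial : ℂ) ≠ 0 := by exact_mod_cast n.factorial_ne_zero
  rw [Complex.cpow_add _ _ hn0]
  have c1 : (n : ℂ) ^ s ≠ 0 := by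
    rw [Complex.cpow_def_of_ne_zero hn0]; exact Complex.exp_ne_zero _
  have c2 : (n : ℂ) ^ h = Complex.exp (h * Complex.log n) := by
    rw [Complex.cpow_def_of_ne_zero hn0, mul_comm]
  rw [c2, mul_sub, neg_sub, Complex.exp_sub]
  have e4 := Complex.exp_ne_zero (h * Complex.log (s + ((n + 1 : ℕ) : ℂ)))
  have e5 := Complex.exp_ne_zero (h * Complex.log (n : ℂ))
  field_simp

theorem sum_bound {t : ℝ} (ht : 1 < t) (n : ℕ) :
    ∑ k ∈ Finset.range n, 1 / ((k : ℝ) + t) ^ 2 ≤ 1 / (t - 1) := by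
  have h : ∑ k ∈ Finset.range n, 1 / ((k : ℝ) + t) ^ 2 ≤ 1 / (t - 1) - 1 / (n + t - 1) := by
    induction n with
    | zero => simp
    | succ n ih =>
      rw [Finset.sum_range_succ]
      refine (add_le_add_left ih _).trans ?_
      have h0 : (0 : ℝ) ≤ n := by positivity
      have h1 : 0 < (n : ℝ) + t - 1 := by linarith
      have h2 : 0 < (n : ℝ) + t := by linarith
      have key : 1 / ((n : ℝ) + t) ^ 2 ≤ 1 / (n + t - 1) - 1 / (n + t) := by
        rw [div_sub_div _ _ h1.ne' h2.ne', div_le_div_iff₀ (by positivity) (by positivity)]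
        nlinarith
      push_cast
      have e : (n : ℝ) + 1 + t - 1 = n + t := by ring
      rw [e]
      linarith
  refine h.trans ?_
  have h0 : (0 : ℝ) ≤ n := by positivity
  have : 0 ≤ 1 / ((n : ℝ) + t - 1) := by
    apply one_div_nonneg.2; linarith
  linarith

/-- **Gamma ratio asymptotics**, explicit form. -/
theorem Rat_sub_one_le {H : ℝ} (hH : 1 ≤ H) {h s : ℂ} (hh : ‖h‖ ≤ H) (hs : 0 < s.re)
    (hsh : 0 < (s + h).re) (ht : 4 * H ≤ |s.im|) :
    ‖Rat h s - 1‖ ≤ Real.exp (8 * H ^ 2 / (|s.im| - 1)) - 1 := by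
  set t := |s.im| with htdef
  have ht1 : 1 < t := by linarith
  have hsk : ∀ k : ℕ, (k + t) ^ 2 / 2 ≤ ‖s + k‖ ^ 2 := by
    intro k
    rw [← Complex.normSq_eq_norm_sq, Complex.normSq_apply, add_re, add_im, natCast_re, natCast_im,
      add_zero]
    have h0 : (0 : ℝ) ≤ k := by positivity
    have h1 : t ^ 2 = s.im * s.im := by rw [htdef, sq_abs]; ring
    nlinarith [sq_nonneg ((k : ℝ) - t)]
  have hsk' : ∀ k : ℕ, 4 * H ≤ ‖s + k‖ := by
    intro k
    refine ht.trans ?_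
    have := Complex.abs_im_le_norm (s + k)
    rwa [add_im, natCast_im, add_zero] at this
  have hfin : ∀ n : ℕ, ‖(∏ k ∈ Finset.range n,
      (Complex.exp (h * Complex.log (1 + (s + k)⁻¹)) / (1 + h * (s + k)⁻¹))) - 1‖ ≤
      Real.exp (8 * H ^ 2 / (t - 1)) - 1 := by
    intro n
    have e : ∏ k ∈ Finset.range n,
      (Complex.exp (h * Complex.log (1 + (s + k)⁻¹)) / (1 + h * (s + k)⁻¹)) =
      ∏ k ∈ Finset.range n, (1 +
      (Complex.exp (h * Complex.log (1 + (s + k)⁻¹)) / (1 + h * (s + k)⁻¹) - 1)) := by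
      refine Finset.prod_congr rfl fun k _ => ?_
      ring
    rw [e]
    refine (Finset.norm_prod_one_add_sub_one_le _ _).trans ?_
    apply sub_le_sub_right
    apply Real.exp_le_exp.2
    calc ∑ k ∈ Finset.range n,
        ‖Complex.exp (h * Complex.log (1 + (s + k)⁻¹)) / (1 + h * (s + k)⁻¹) - 1‖
        ≤ ∑ k ∈ Finset.range n, 8 * H ^ 2 * (1 / ((k : ℝ) + t) ^ 2) := by
          refine Finset.sum_le_sum fun k _ => ?_
          have hw : ‖(s + k)⁻¹‖ ≤ 1 / (4 * H) := by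
            rw [norm_inv, ← one_div]
            exact one_div_le_one_div_of_le (by linarith) (hsk' k)
          refine (key_local hH hh hw).trans ?_
          rw [norm_inv, inv_pow]
          have h1 := hsk k
          have h0 : (0 : ℝ) ≤ k := by positivity
          have h2 : 0 < (k + t) ^ 2 / 2 := by positivity
          have h3 : (‖s + k‖ ^ 2)⁻¹ ≤ ((k + t) ^ 2 / 2)⁻¹ := inv_anti₀ h2 h1
          have h4 : 0 ≤ 4 * H ^ 2 := by positivity
          calc 4 * H ^ 2 * (‖s + k‖ ^ 2)⁻¹ ≤ 4 * H ^ 2 * ((k + t) ^ 2 / 2)⁻¹ :=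
                mul_le_mul_of_nonneg_left h3 h4
            _ = 8 * H ^ 2 * (1 / ((k : ℝ) + t) ^ 2) := by
                rw [inv_div]; ring
      _ = 8 * H ^ 2 * ∑ k ∈ Finset.range n, (1 / ((k : ℝ) + t) ^ 2) := by
          rw [Finset.mul_sum]
      _ ≤ 8 * H ^ 2 * (1 / (t - 1)) :=
          mul_le_mul_of_nonneg_left (sum_bound ht1 n) (by positivity)
      _ = 8 * H ^ 2 / (t - 1) := by ring
  -- pass to the limit
  have hlim : Tendsto (fun n : ℕ => (∏ k ∈ Finset.range (n + 1),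
      (Complex.exp (h * Complex.log (1 + (s + k)⁻¹)) / (1 + h * (s + k)⁻¹))) - 1) atTop
      (𝓝 (Rat h s / 1 - 1)) := by
    refine Tendsto.sub_const ?_ _
    have h1 : Tendsto (fun n : ℕ => Rat h s / Rat h (s + (n + 1 : ℕ))) atTop
        (𝓝 (Rat h s / 1)) := tendsto_const_nhds.div (Rat_tendsto hs hsh) one_ne_zero
    refine h1.congr' ?_
    filter_upwards [(Rat_tendsto hs hsh).eventually_ne one_ne_zero] with n hn
    rw [Rat_prod hs hsh (n + 1)]
    field_simp
  rw [div_one] at hlim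
  exact le_of_tendsto' hlim.norm fun n => hfin (n + 1)

end Pool.Agent.Lib.MP_13bed0_nt
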