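import Pool.Agent.Lib.MP_13bed0_nt.PhiInt

/-!
# The identity `∑ Φ_n(z) = P(z) ζ(1/2 - i z)` for `Im z > 1/2`
-/

set_option autoImplicit false

open Complex Filter Topology MeasureTheory Set

namespace Pool.Agent.Lib.MP_13bed0_nt

/-- `a_n = π (n+1)²` -/
noncomputable def an (n : ℕ) : ℝ := Real.pi * ((n : ℝ) + 1) ^ 2

theorem an_pos (n : ℕ) : 0 < an n := by unfold an; positivity

theorem real_exp_int {c a : ℝ} (hc : 0 < c) (ha : 0 < a) :
    Integrable (fun u : ℝ => Real.exp (c * u - a * Real.exp (2 * u))) ∧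
    ∫ u : ℝ, Real.exp (c * u - a * Real.exp (2 * u)) =
      1 / 2 * a ^ (-(c / 2)) * Real.Gamma (c / 2) := by
  have h1 := exp_int (c := (c : ℂ)) (a := a) (by simpa using hc) ha
  have e : (fun u : ℝ => Complex.exp ((c : ℂ) * u - a * Real.exp (2 * u))) =
      fun u : ℝ => ((Real.exp (c * u - a * Real.exp (2 * u)) : ℝ) : ℂ) := by
    funext u
    rw [Complex.ofReal_exp]
    push_cast; ring_nf
  rw [e] at h1
  obtain ⟨h2, h3⟩ := h1
  constructor
  · refine h2.re.congr (Eventually.of_forall fun u => ?_)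
    exact Complex.ofReal_re _
  · rw [integral_complex_ofReal] at h3
    have h4 : ((1 / 2 * a ^ (-(c / 2)) * Real.Gamma (c / 2) : ℝ) : ℂ) =
        1 / 2 * (a : ℂ) ^ (-((c : ℂ) / 2)) * Complex.Gamma ((c : ℂ) / 2) := by
      push_cast
      rw [Complex.ofReal_cpow ha.le, ← Complex.Gamma_ofReal]
      push_cast
      rfl
    rw [← h4] at h3
    exact_mod_cast h3

/-- constant in the norm bound -/
noncomputable def CC (y : ℝ) : ℝ :=
  4 * Real.Gamma ((y + 9 / 2) / 2) + 6 * Real.Gamma ((y + 5 / 2) / 2)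

theorem norm_int_le {y a : ℝ} (hy : 0 < y) (ha : 0 < a) :
    Integrable (fun u : ℝ => Real.exp (y * u) * |ff a u|) ∧
    ∫ u : ℝ, Real.exp (y * u) * |ff a u| ≤ CC y * a ^ (-((y + 1 / 2) / 2)) := by
  have i1 := real_exp_int (c := y + 9 / 2) (a := a) (by linarith) ha
  have i2 := real_exp_int (c := y + 5 / 2) (a := a) (by linarith) ha
  have hb : ∀ u : ℝ, Real.exp (y * u) * |ff a u| ≤
      8 * a ^ 2 * Real.exp ((y + 9 / 2) * u - a * Real.exp (2 * u)) +
      12 * a * Real.exp ((y + 5 / 2) * u - a * Real.exp (2 * u)) := by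
    intro u
    rw [ff_eq_sub]
    have h1 : |8 * a ^ 2 * Real.exp (9 / 2 * u - a * Real.exp (2 * u)) -
        12 * a * Real.exp (5 / 2 * u - a * Real.exp (2 * u))| ≤
        8 * a ^ 2 * Real.exp (9 / 2 * u - a * Real.exp (2 * u)) +
        12 * a * Real.exp (5 / 2 * u - a * Real.exp (2 * u)) := by
      refine (abs_sub _ _).trans ?_
      rw [abs_of_nonneg (by positivity), abs_of_nonneg (by positivity)]
    refine (mul_le_mul_of_nonneg_left h1 (Real.exp_pos _).le).trans (le_of_eq ?_)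
    have e1 : Real.exp ((y + 9 / 2) * u - a * Real.exp (2 * u)) =
        Real.exp (y * u) * Real.exp (9 / 2 * u - a * Real.exp (2 * u)) := by
      rw [← Real.exp_add]; congr 1; ring
    have e2 : Real.exp ((y + 5 / 2) * u - a * Real.exp (2 * u)) =
        Real.exp (y * u) * Real.exp (5 / 2 * u - a * Real.exp (2 * u)) := by
      rw [← Real.exp_add]; congr 1; ring
    rw [e1, e2]
    ring
  have hg : Integrable (fun u : ℝ => 8 * a ^ 2 *
      Real.exp ((y + 9 / 2) * u - a * Real.exp (2 * u)) +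
      12 * a * Real.exp ((y + 5 / 2) * u - a * Real.exp (2 * u))) :=
    (i1.1.const_mul (8 * a ^ 2)).add (i2.1.const_mul (12 * a))
  have hcont : Continuous (fun u : ℝ => Real.exp (y * u) * |ff a u|) := by
    unfold ff; fun_prop
  have hint : Integrable (fun u : ℝ => Real.exp (y * u) * |ff a u|) := by
    refine Integrable.mono' hg hcont.aestronglyMeasurable ?_
    refine Eventually.of_forall fun u => ?_
    rw [Real.norm_eq_abs, abs_of_nonneg (by positivity)]
    exact hb u
  refine ⟨hint, ?_⟩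
  refine (integral_mono hint hg hb).trans (le_of_eq ?_)
  rw [integral_add (i1.1.const_mul (8 * a ^ 2)) (i2.1.const_mul (12 * a)), integral_const_mul,
    integral_const_mul, i1.2, i2.2]
  have c1 : a ^ (-((y + 9 / 2) / 2)) = a ^ (-((y + 1 / 2) / 2)) * (a ^ 2)⁻¹ := by
    have e1 : -((y + 9 / 2) / 2) = -((y + 1 / 2) / 2) - (2 : ℕ) := by push_cast; ring
    rw [e1, Real.rpow_sub_natCast ha.ne', div_eq_mul_inv]
  have c2 : a ^ (-((y + 5 / 2) / 2)) = a ^ (-((y + 1 / 2) / 2)) * a⁻¹ := by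
    have e1 : -((y + 5 / 2) / 2) = -((y + 1 / 2) / 2) - 1 := by ring
    rw [e1, Real.rpow_sub_one ha.ne', div_eq_mul_inv]
  rw [c1, c2]
  unfold CC
  field_simp
  ring

theorem summable_norm_bound {y : ℝ} (hy : 1 / 2 < y) :
    Summable fun n : ℕ => CC y * an n ^ (-((y + 1 / 2) / 2)) := by
  refine Summable.mul_left _ ?_
  have h1 : Summable fun n : ℕ => 1 / ((n : ℝ) + 1) ^ (y + 1 / 2) := by
    have := (Real.summable_one_div_nat_add_rpow 1 (y + 1 / 2)).2 (by linarith)
    refine this.congr fun n => ?_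
    rw [abs_of_pos (by positivity)]
  have h2 := h1.mul_left (Real.pi ^ (-((y + 1 / 2) / 2)))
  refine h2.congr fun n => ?_
  unfold an
  have hn : (0 : ℝ) < (n : ℝ) + 1 := by positivity
  rw [Real.mul_rpow Real.pi_pos.le (by positivity), ← Real.rpow_natCast, ← Real.rpow_mul hn.le]
  congr 1
  rw [one_div, ← Real.rpow_neg hn.le]
  congr 1
  push_cast; ring

theorem norm_twosided (z : ℂ) (a u : ℝ) :
    ‖Complex.exp (-(I * z * u)) * ((ff a u : ℝ) : ℂ)‖ = Real.exp (z.im * u) * |ff a u| := by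
  rw [norm_mul, Complex.norm_real, Real.norm_eq_abs, Complex.norm_exp]
  congr 2
  simp

theorem twosided_an {z : ℂ} (hz : 1 / 2 < z.im) (n : ℕ) :
    ∫ u : ℝ, Complex.exp (-(I * z * u)) * ((ff (an n) u : ℝ) : ℂ) =
      2 * PF z * (1 / ((n : ℂ) + 1) ^ sv z) := by
  rw [twosided (by linarith) (an_pos n)]
  unfold PF an
  rw [Gammaℝ_def]
  have hn : (0 : ℝ) < (n : ℝ) + 1 := by positivity
  have h1 : ((Real.pi * ((n : ℝ) + 1) ^ 2 : ℝ) : ℂ) ^ (-(sv z / 2)) =
      (Real.pi : ℂ) ^ (-sv z / 2) * (1 / ((n : ℂ) + 1) ^ sv z) := by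
    rw [Complex.ofReal_mul, Complex.mul_cpow_ofReal_nonneg Real.pi_pos.le (by positivity)]
    congr 1
    · congr 1; ring
    · have e : ((n : ℂ) + 1) = (((n : ℝ) + 1 : ℝ) : ℂ) := by push_cast; rfl
      rw [e, one_div, ← Complex.cpow_neg, Complex.cpow_def_of_ne_zero
        (by exact_mod_cast (pow_pos hn 2).ne'), Complex.cpow_def_of_ne_zero
        (by exact_mod_cast hn.ne'), ← Complex.ofReal_log (by positivity),
        ← Complex.ofReal_log hn.le, Real.log_pow]
      congr 1
      push_cast; ring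
  rw [h1]
  ring

/-- left-half integrals -/
theorem split_twosided {z : ℂ} (hz : 1 / 2 < z.im) (n : ℕ) :
    (∫ u in Ioi (0 : ℝ), Complex.exp (-(I * z * u)) * ((ff (an n) u : ℝ) : ℂ)) +
      (∫ u in Ioi (0 : ℝ), Complex.exp (I * z * u) * ((ff (an n) (-u) : ℝ) : ℂ)) =
      2 * PF z * (1 / ((n : ℂ) + 1) ^ sv z) := by
  have hF : Integrable (fun u : ℝ => Complex.exp (-(I * z * u)) * ((ff (an n) u : ℝ) : ℂ)) :=
    integrable_twosided (by linarith) (an_pos n)
  rw [← twosided_an hz n, ← intervalIntegral.integral_Iic_add_Ioi (b := 0) hF.integrableOn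
    hF.integrableOn, add_comm]
  congr 1
  have h1 := integral_comp_neg_Ioi (c := (0 : ℝ))
    (f := fun u : ℝ => Complex.exp (-(I * z * u)) * ((ff (an n) u : ℝ) : ℂ))
  rw [neg_zero] at h1
  rw [← h1]
  refine integral_congr_ae (Eventually.of_forall fun u => ?_)
  simp only
  congr 2
  push_cast; ring

theorem norm_onesided (z : ℂ) (c u : ℝ) :
    ‖Complex.exp (I * z * u) * (c : ℂ)‖ = Real.exp (-(z.im * u)) * |c| := by
  rw [norm_mul, Complex.norm_real, Real.norm_eq_abs, Complex.norm_exp]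
  congr 2
  simp

theorem summable_of_le {F : ℕ → ℝ → ℂ} {z : ℂ} (hz : 1 / 2 < z.im)
    (h : ∀ n, ∫ u in Ioi (0 : ℝ), ‖F n u‖ ≤ ∫ u : ℝ, Real.exp (z.im * u) * |ff (an n) u|) :
    Summable fun n => ∫ u in Ioi (0 : ℝ), ‖F n u‖ := by
  refine Summable.of_nonneg_of_le (fun n => integral_nonneg fun u => norm_nonneg _)
      (fun n => ?_) (summable_norm_bound hz)
  exact (h n).trans (norm_int_le (by linarith) (an_pos n)).2

theorem hasSum_A {z : ℂ} (hz : 1 / 2 < z.im) :
    HasSum (fun n => ∫ u in Ioi (0 : ℝ), Complex.exp (-(I * z * u)) * ((ff (an n) u : ℝ) : ℂ))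
      (∫ u in Ioi (0 : ℝ), Complex.exp (-(I * z * u)) * ((phi u : ℝ) : ℂ)) := by
  have h1 := hasSum_integral_of_summable_integral_norm (μ := volume.restrict (Ioi (0 : ℝ)))
    (F := fun n (u : ℝ) => Complex.exp (-(I * z * u)) * ((ff (an n) u : ℝ) : ℂ))
    (fun n => (integrable_twosided (by linarith) (an_pos n)).integrableOn)
    (summable_of_le hz fun n => by
      simp_rw [norm_twosided]
      exact setIntegral_le_integral (norm_int_le (by linarith) (an_pos n)).1
        (Eventually.of_forall fun u => by positivity))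
  have h2 : ∀ u : ℝ, ∑' n, Complex.exp (-(I * z * u)) * ((ff (an n) u : ℝ) : ℂ) =
      Complex.exp (-(I * z * u)) * ((phi u : ℝ) : ℂ) := by
    intro u
    rw [tsum_mul_left, ← Complex.ofReal_tsum]
    rfl
  simp_rw [h2] at h1
  exact h1

theorem hasSum_B {z : ℂ} (hz : 1 / 2 < z.im) :
    HasSum (fun n => ∫ u in Ioi (0 : ℝ), Complex.exp (I * z * u) * ((ff (an n) (-u) : ℝ) : ℂ))
      (∫ u in Ioi (0 : ℝ), Complex.exp (I * z * u) * ((phi u : ℝ) : ℂ)) := by
  have h1 := hasSum_integral_of_summable_integral_norm (μ := volume.restrict (Ioi (0 : ℝ)))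
    (F := fun n (u : ℝ) => Complex.exp (I * z * u) * ((ff (an n) (-u) : ℝ) : ℂ))
    (fun n => by
      have h0 := (integrable_twosided (z := z) (a := an n) (by linarith) (an_pos n)).comp_neg
      refine (h0.congr ?_).integrableOn
      refine Eventually.of_forall fun u => ?_
      simp only
      congr 2
      push_cast; ring)
    (summable_of_le hz fun n => by
      simp_rw [norm_onesided]
      have h0 := norm_int_le (y := z.im) (a := an n) (by linarith) (an_pos n)
      have h1 : ∫ u in Ioi (0 : ℝ), Real.exp (-(z.im * u)) * |ff (an n) (-u)| =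
          ∫ u in Iic (0 : ℝ), Real.exp (z.im * u) * |ff (an n) u| := by
        have := integral_comp_neg_Ioi (c := (0 : ℝ))
          (f := fun u : ℝ => Real.exp (z.im * u) * |ff (an n) u|)
        rw [neg_zero] at this
        rw [← this]
        refine integral_congr_ae (Eventually.of_forall fun u => ?_)
        simp only
        congr 2; ring
      rw [h1]
      exact setIntegral_le_integral h0.1 (Eventually.of_forall fun u => by positivity))
  have h2 : ∀ u : ℝ, ∑' n, Complex.exp (I * z * u) * ((ff (an n) (-u) : ℝ) : ℂ) =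
      Complex.exp (I * z * u) * ((phi u : ℝ) : ℂ) := by
    intro u
    rw [tsum_mul_left, ← Complex.ofReal_tsum, ← phi_even u]
    rfl
  simp_rw [h2] at h1
  exact h1

theorem integrableOn_B' {z : ℂ} {a : ℝ} (ha : 0 < a) :
    IntegrableOn (fun u : ℝ => Complex.exp (I * z * u) * ((ff a u : ℝ) : ℂ)) (Ioi 0) := by
  have h1 := ((integrableOn_exp (I * z + 9 / 2) ha).const_mul (8 * a ^ 2 : ℂ)).sub
    ((integrableOn_exp (I * z + 5 / 2) ha).const_mul (12 * a : ℂ))
  refine h1.congr (Eventually.of_forall fun u => ?_)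
  simp only [Pi.sub_apply]
  rw [ff_coe]
  have e1 : Complex.exp ((I * z + 9 / 2) * u - a * Real.exp (2 * u)) = Complex.exp (I * z * u) *
      Complex.exp ((9 / 2 * u - a * Real.exp (2 * u) : ℝ) : ℂ) := by
    rw [← Complex.exp_add]; congr 1; push_cast; ring
  have e2 : Complex.exp ((I * z + 5 / 2) * u - a * Real.exp (2 * u)) = Complex.exp (I * z * u) *
      Complex.exp ((5 / 2 * u - a * Real.exp (2 * u) : ℝ) : ℂ) := by
    rw [← Complex.exp_add]; congr 1; push_cast; ring
  rw [e1, e2]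
  ring

theorem hasSum_B' {z : ℂ} (hz : 1 / 2 < z.im) :
    HasSum (fun n => ∫ u in Ioi (0 : ℝ), Complex.exp (I * z * u) * ((ff (an n) u : ℝ) : ℂ))
      (∫ u in Ioi (0 : ℝ), Complex.exp (I * z * u) * ((phi u : ℝ) : ℂ)) := by
  have h1 := hasSum_integral_of_summable_integral_norm (μ := volume.restrict (Ioi (0 : ℝ)))
    (F := fun n (u : ℝ) => Complex.exp (I * z * u) * ((ff (an n) u : ℝ) : ℂ))
    (fun n => integrableOn_B' (an_pos n))
    (summable_of_le hz fun n => by
      simp_rw [norm_onesided]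
      have h0 := norm_int_le (y := z.im) (a := an n) (by linarith) (an_pos n)
      refine le_trans ?_ (setIntegral_le_integral (s := Ioi (0 : ℝ)) h0.1
        (Eventually.of_forall fun u => by positivity))
      refine setIntegral_mono_on ?_ h0.1.integrableOn measurableSet_Ioi ?_
      · have := (integrableOn_B' (z := z) (an_pos n)).norm
        simp_rw [norm_onesided] at this
        exact this
      · intro u hu
        have hu' : (0 : ℝ) < u := hu
        apply mul_le_mul_of_nonneg_right _ (abs_nonneg _)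
        apply Real.exp_le_exp.2
        have : 0 < z.im * u := mul_pos (by linarith) hu'
        linarith)
  have h2 : ∀ u : ℝ, ∑' n, Complex.exp (I * z * u) * ((ff (an n) u : ℝ) : ℂ) =
      Complex.exp (I * z * u) * ((phi u : ℝ) : ℂ) := by
    intro u
    rw [tsum_mul_left, ← Complex.ofReal_tsum]
    rfl
  simp_rw [h2] at h1
  exact h1

theorem Phi_succ {z : ℂ} (hz : 1 / 2 < z.im) (n : ℕ) :
    Phi (n + 1) z = 1 / 2 *
      ((∫ u in Ioi (0 : ℝ), Complex.exp (-(I * z * u)) * ((ff (an n) u : ℝ) : ℂ)) +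
      (∫ u in Ioi (0 : ℝ), Complex.exp (I * z * u) * ((ff (an n) u : ℝ) : ℂ))) := by
  rw [Phi_eq (Nat.succ_ne_zero n), ← integral_add
    (integrable_twosided (by linarith) (an_pos n)).integrableOn (integrableOn_B' (an_pos n)),
    ← integral_const_mul]
  refine integral_congr_ae (Eventually.of_forall fun u => ?_)
  simp only
  have e : Real.pi * ((n + 1 : ℕ) : ℝ) ^ 2 = an n := by unfold an; push_cast; rfl
  rw [e, Complex.cos]
  have e1 : z * (u : ℂ) * I = I * z * u := by ring
  have e2 : -(z * (u : ℂ)) * I = -(I * z * u) := by ring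
  rw [e1, e2]
  ring

/-- **The identity.** -/
theorem hasSum_Phi {z : ℂ} (hz : 1 / 2 < z.im) :
    HasSum (fun n => Phi (n + 1) z) (PF z * riemannZeta (sv z)) := by
  have hA := hasSum_A hz
  have hB := hasSum_B hz
  have hB' := hasSum_B' hz
  have h1 := (hA.add hB)
  simp_rw [split_twosided hz] at h1
  have h2 : ∑' n : ℕ, 2 * PF z * (1 / ((n : ℂ) + 1) ^ sv z) = 2 * PF z * riemannZeta (sv z) := by
    rw [tsum_mul_left, zeta_eq_tsum_one_div_nat_add_one_cpow (by rw [sv_re]; linarith)]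
  rw [h1.tsum_eq] at h2
  have h3 := (hA.add hB').mul_left (1 / 2 : ℂ)
  rw [h2] at h3
  have e : (1 / 2 : ℂ) * (2 * PF z * riemannZeta (sv z)) = PF z * riemannZeta (sv z) := by ring
  rw [e] at h3
  have hfun : (fun n => Phi (n + 1) z) = fun n => 1 / 2 *
      ((∫ u in Ioi (0 : ℝ), Complex.exp (-(I * z * u)) * ((ff (an n) u : ℝ) : ℂ)) +
      (∫ u in Ioi (0 : ℝ), Complex.exp (I * z * u) * ((ff (an n) u : ℝ) : ℂ))) :=
    funext (Phi_succ hz)
  rw [hfun]
  exact h3

end Pool.Agent.Lib.MP_13bed0_nt
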