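import Pool.Agent.Lib.MP_13bed0_nt.TailLim

/-!
# Local zero finding, and holomorphy of the truncations
-/

set_option autoImplicit false

open Complex Filter Topology MeasureTheory Set

namespace Pool.Agent.Lib.MP_13bed0_nt

theorem norm_exp_sub_one_ge {v : ℂ} (hv : ‖v‖ ≤ 1 / 2) : ‖v‖ / 2 ≤ ‖Complex.exp v - 1‖ := by
  have h1 := Complex.norm_exp_sub_one_sub_id_le (x := v) (by linarith)
  have h2 : ‖v‖ ≤ ‖Complex.exp v - 1‖ + ‖Complex.exp v - 1 - v‖ := by
    have := norm_sub_le (Complex.exp v - 1) (Complex.exp v - 1 - v)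
    simpa using this
  nlinarith [norm_nonneg v]

/-- zero finding -/
theorem exists_zero {f : ℂ → ℂ} (hf : Differentiable ℂ f) {W w0 : ℂ} (hW : Complex.exp (I * w0) = W)
    {ρ : ℝ} (hρ : 0 < ρ) (hρ2 : ρ ≤ 1 / 2)
    (herr : ∀ w, ‖w - w0‖ ≤ ρ → ‖f w - (W * Complex.exp (-(I * w)) - 1)‖ ≤ ρ / 10) :
    ∃ w, ‖w - w0‖ ≤ ρ ∧ f w = 0 := by
  have hmain : ∀ w, W * Complex.exp (-(I * w)) = Complex.exp (-(I * (w - w0))) := by
    intro w
    rw [← hW, ← Complex.exp_add]; congr 1; ring
  have h0 : ‖f w0‖ ≤ ρ / 10 := by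
    have := herr w0 (by simpa using hρ.le)
    rw [hmain, sub_self, mul_zero, neg_zero, Complex.exp_zero, sub_self, sub_zero] at this
    exact this
  have hsph : ∀ z ∈ Metric.sphere w0 ρ, 3 * ρ / 10 ≤ ‖f z - f w0‖ := by
    intro z hz
    rw [mem_sphere_iff_norm] at hz
    have h1 := herr z hz.le
    rw [hmain] at h1
    have hn : ‖-(I * (z - w0))‖ = ρ := by rw [norm_neg, norm_mul, norm_I, one_mul, hz]
    have h2 := norm_exp_sub_one_ge (v := -(I * (z - w0))) (by rw [hn]; exact hρ2)
    rw [hn] at h2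
    have e : Complex.exp (-(I * (z - w0))) - 1 = (f z - f w0) -
        (f z - (Complex.exp (-(I * (z - w0))) - 1)) + f w0 := by ring
    have h3 : ‖Complex.exp (-(I * (z - w0))) - 1‖ ≤ ‖f z - f w0‖ +
        ‖f z - (Complex.exp (-(I * (z - w0))) - 1)‖ + ‖f w0‖ := by
      conv_lhs => rw [e]
      refine (norm_add_le _ _).trans ?_
      have := norm_sub_le (f z - f w0) (f z - (Complex.exp (-(I * (z - w0))) - 1))
      linarith
    linarith
  have hfreq : ∃ᶠ z in 𝓝 w0, f z ≠ f w0 := by
    by_contra hcon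
    rw [Filter.not_frequently] at hcon
    have hev : f =ᶠ[𝓝 w0] fun _ => f w0 := by
      filter_upwards [hcon] with z hz
      exact not_not.1 hz
    have h1 := (hf.differentiableOn.analyticOnNhd isOpen_univ).eq_of_eventuallyEq
      (analyticOnNhd_const (v := f w0)) hev
    have h2 := hsph (w0 + ρ) (by
      rw [mem_sphere_iff_norm, add_sub_cancel_left, Complex.norm_real, Real.norm_eq_abs,
        abs_of_pos hρ])
    rw [congrFun h1 (w0 + ρ), sub_self, norm_zero] at h2
    linarith
  have h1 := DiffContOnCl.ball_subset_image_closedBall (hf.diffContOnCl (s := Metric.ball w0 ρ))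
    hρ hsph hfreq
  have h2 : (0 : ℂ) ∈ Metric.ball (f w0) (3 * ρ / 10 / 2) := by
    rw [Metric.mem_ball, dist_zero_left]
    linarith
  obtain ⟨w, hw, hw0⟩ := h1 h2
  rw [mem_closedBall_iff_norm] at hw
  exact ⟨w, hw, hw0⟩

theorem differentiable_Phi {n : ℕ} (hn : n ≠ 0) : Differentiable ℂ (Phi n) := by
  have ha : 0 < Real.pi * (n : ℝ) ^ 2 := by positivity
  set a := Real.pi * (n : ℝ) ^ 2 with hadef
  have hfun : Phi n = fun z => ∫ u in Ioi (0 : ℝ), Complex.cos (z * u) * ((ff a u : ℝ) : ℂ) :=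
    funext fun z => Phi_eq hn z
  rw [hfun]
  intro z0
  set B := |z0.im| + 1 with hB
  have key := hasDerivAt_integral_of_dominated_loc_of_deriv_le (𝕜 := ℂ)
    (μ := volume.restrict (Ioi (0 : ℝ)))
    (F := fun z (u : ℝ) => Complex.cos (z * u) * ((ff a u : ℝ) : ℂ))
    (F' := fun z (u : ℝ) => (-Complex.sin (z * u) * u) * ((ff a u : ℝ) : ℂ))
    (x₀ := z0) (s := Metric.ball z0 1) (bound := fun u => Real.exp ((B + 1) * u) * |ff a u|)
    (Metric.ball_mem_nhds z0 one_pos) ?_ (integrableOn_cos_ff z0 ha) ?_ ?_ ?_ ?_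
  · exact key.2.differentiableAt
  · refine Eventually.of_forall fun z => ?_
    apply Continuous.aestronglyMeasurable
    unfold ff; fun_prop
  · apply Continuous.aestronglyMeasurable
    unfold ff; fun_prop
  · refine (ae_restrict_iff' measurableSet_Ioi).2 (Eventually.of_forall fun u hu z hz => ?_)
    have hu' : (0 : ℝ) < u := hu
    rw [mem_ball_iff_norm] at hz
    have him : |z.im| ≤ B := by
      have h1 := Complex.abs_im_le_norm (z - z0)
      rw [sub_im] at h1
      have h2 := abs_sub_abs_le_abs_sub z.im z0.im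
      rw [hB]; linarith
    rw [norm_mul, Complex.norm_real, Real.norm_eq_abs]
    apply mul_le_mul_of_nonneg_right _ (abs_nonneg _)
    rw [norm_mul, norm_neg, Complex.norm_real, Real.norm_eq_abs, abs_of_pos hu']
    have h3 : ‖Complex.sin (z * u)‖ ≤ Real.exp (B * u) := by
      rw [Complex.sin]
      have h1 : ‖Complex.exp (z * u * I)‖ ≤ Real.exp (B * u) := by
        rw [Complex.norm_exp]
        apply Real.exp_le_exp.2
        have e : (z * u * I).re = -(z.im * u) := by simp
        rw [e]
        have := (abs_le.1 him).1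
        nlinarith
      have h2 : ‖Complex.exp (-(z * u) * I)‖ ≤ Real.exp (B * u) := by
        rw [Complex.norm_exp]
        apply Real.exp_le_exp.2
        have e : (-(z * u) * I).re = z.im * u := by simp
        rw [e]
        have := (abs_le.1 him).2
        nlinarith
      rw [norm_div, Complex.norm_ofNat, norm_mul, norm_I, mul_one]
      have h3 := norm_sub_le (Complex.exp (-(z * u) * I)) (Complex.exp (z * u * I))
      linarith
    have h4 : u ≤ Real.exp u := by
      have := Real.add_one_le_exp u; linarith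
    calc ‖Complex.sin (z * u)‖ * u ≤ Real.exp (B * u) * Real.exp u :=
          mul_le_mul h3 h4 hu'.le (Real.exp_pos _).le
      _ = Real.exp ((B + 1) * u) := by rw [← Real.exp_add]; congr 1; ring
  · exact (norm_int_le (y := B + 1) (by positivity) ha).1.integrableOn
  · refine Eventually.of_forall fun u z _ => ?_
    have h1 : HasDerivAt (fun z : ℂ => z * u) (u : ℂ) z := by
      simpa using (hasDerivAt_id z).mul_const (u : ℂ)
    have h2 := ((Complex.hasDerivAt_cos (z * u)).comp z h1)
    exact h2.mul_const _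

theorem differentiable_XiTrunc (N : ℕ) : Differentiable ℂ (XiTrunc N) := by
  unfold XiTrunc
  apply Differentiable.fun_sum
  intro n hn
  rw [Finset.mem_Icc] at hn
  exact differentiable_Phi (by omega)

end Pool.Agent.Lib.MP_13bed0_nt
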