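import Pool.Agent.Lib.MP_13bed0_nt.Zero

/-!
# Failure of monotonic zeros for all large truncations
-/

set_option autoImplicit false

open Complex Filter Topology MeasureTheory Set

namespace Pool.Agent.Lib.MP_13bed0_nt

theorem log_three : 1.039 < Real.log 3 := by
  have h1 : 3 * Real.log 2 < 2 * Real.log 3 := by
    have h2 : Real.log ((2 : ℝ) ^ 3) < Real.log ((3 : ℝ) ^ 2) :=
      Real.log_lt_log (by norm_num) (by norm_num)
    rw [Real.log_pow, Real.log_pow] at h2
    exact_mod_cast h2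
  have h2 := Real.log_two_gt_d9
  norm_num at h1 h2 ⊢
  linarith

theorem main_theorem : ∀ᶠ N : ℕ in atTop, ∃ α β : ℂ, α ∈ Quadrant ∧ β ∈ Quadrant ∧
    XiTrunc N α = 0 ∧ XiTrunc N β = 0 ∧ α.re < β.re ∧ β.im < α.im := by
  obtain ⟨σ, hσ1, hσ2, hσ3⟩ := exists_sigma
  obtain ⟨ℓ, hℓ, hap⟩ := almost_periods hσ1
  set y0 := σ - 1 / 2 with hy0def
  set k0 := y0 - 1 / 2 with hk0def
  have hy0 : 1 / 2 < y0 := by rw [hy0def]; linarith
  have hy1 : y0 < 1 := by rw [hy0def]; linarith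
  choose τ hτ1 hτ2 hτ3 using fun N => hap (xs k0 N)
  set x0 : ℕ → ℝ := τ with hx0
  set x1 : ℕ → ℝ := fun N => τ N - 1 with hx1
  have hR0 : ∀ N, |x0 N - xs k0 N| ≤ ℓ + 1 := fun N => by
    rw [abs_le]; constructor <;> linarith [hτ1 N, hτ2 N]
  have hR1 : ∀ N, |x1 N - xs k0 N| ≤ ℓ + 1 := fun N => by
    have : x1 N = τ N - 1 := rfl
    rw [abs_le, this]; constructor <;> linarith [hτ1 N, hτ2 N]
  -- zeta comparison
  have hz : ∀ N, 3 * ‖riemannZeta (sv (x1 N + y0 * I))‖ ≤ ‖riemannZeta (sv (x0 N + y0 * I))‖ := by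
    intro N
    have e0 : sv (x0 N + y0 * I) = (σ : ℂ) - I * τ N := by
      unfold sv
      rw [hy0def, hx0]; push_cast
      linear_combination (-(σ : ℂ) + 1 / 2) * Complex.I_sq
    have e1 : sv (x1 N + y0 * I) = ((σ : ℂ) + I) - I * τ N := by
      have : x1 N = τ N - 1 := rfl
      unfold sv
      rw [hy0def, this]; push_cast
      linear_combination (-(σ : ℂ) + 1 / 2) * Complex.I_sq
    have z0 := hτ3 N (σ : ℂ) (by simp)
    have z1 := hτ3 N ((σ : ℂ) + I) (by simp)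
    rw [e0, e1]
    have a0 : ‖riemannZeta σ‖ ≤ ‖riemannZeta ((σ : ℂ) - I * τ N)‖ + 1 := by
      have := norm_sub_norm_le (riemannZeta (σ : ℂ)) (riemannZeta ((σ : ℂ) - I * τ N))
      rw [norm_sub_rev] at this
      linarith
    have a1 : ‖riemannZeta (((σ : ℂ) + I) - I * τ N)‖ ≤ ‖riemannZeta ((σ : ℂ) + I)‖ + 1 := by
      have := norm_sub_norm_le (riemannZeta (((σ : ℂ) + I) - I * τ N)) (riemannZeta ((σ : ℂ) + I))
      linarith
    linarith
  -- ratio comparison
  have r0 := ratio_lim hy0 hy1 hk0def hR0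
  have r1 := ratio_lim hy0 hy1 hk0def hR1
  have r2 := r0.div r1 c1_pos.ne'
  rw [div_self c1_pos.ne'] at r2
  have hexp : Real.exp (-(1 / 20) : ℝ) < 1 := by
    rw [Real.exp_lt_one_iff]; norm_num
  obtain ⟨K0, hK0⟩ := norm_WW_bounds hy0 hy1 hk0def hR0
  obtain ⟨K1, hK1⟩ := norm_WW_bounds hy0 hy1 hk0def hR1
  have Z0 := zero_near hy0 hy1 hk0def hR0 (ρ := 1 / 20) (by norm_num) (by norm_num)
  have Z1 := zero_near hy0 hy1 hk0def hR1 (ρ := 1 / 20) (by norm_num) (by norm_num)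
  have hL1 := LN_tendsto.eventually_gt_atTop (2 * (Real.pi + 1))
  have hL2 := LN_tendsto.eventually_gt_atTop (2 * (|K0| + |K1| + 1))
  have hxt := (x_tendsto hR0).eventually_gt_atTop 2
  filter_upwards [r2.eventually_const_le hexp, hK0, hK1, Z0, Z1, hL1, hL2, hxt] with N hr hW0 hW1
    hZ0 hZ1 hLa hLb hx
  obtain ⟨v0, hv0, hv0'⟩ := hZ0
  obtain ⟨v1, hv1, hv1'⟩ := hZ1
  have hLpos : 0 < LN N := by
    have := Real.pi_pos; linarith
  -- log comparison
  have hlog : Real.log 3 - Real.pi / 4 - 1 / 20 ≤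
      Real.log ‖WW y0 x0 N‖ - Real.log ‖WW y0 x1 N‖ := by
    have w0pos : 0 < ‖WW y0 x0 N‖ := norm_pos_iff.2 hW0.1
    have w1pos : 0 < ‖WW y0 x1 N‖ := norm_pos_iff.2 hW1.1
    have W0n : ‖WW y0 x0 N‖ = ‖PF (x0 N + y0 * I)‖ / ‖TT N (x0 N + y0 * I)‖ *
        ‖riemannZeta (sv (x0 N + y0 * I))‖ := by
      unfold WW; rw [norm_div, norm_mul]; ring
    have W1n : ‖WW y0 x1 N‖ = ‖PF (x1 N + y0 * I)‖ / ‖TT N (x1 N + y0 * I)‖ *
        ‖riemannZeta (sv (x1 N + y0 * I))‖ := by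
      unfold WW; rw [norm_div, norm_mul]; ring
    set p0 := ‖PF (x0 N + y0 * I)‖ / ‖TT N (x0 N + y0 * I)‖ with hp0
    set p1 := ‖PF (x1 N + y0 * I)‖ / ‖TT N (x1 N + y0 * I)‖ with hp1
    have hp0' : 0 ≤ p0 := by rw [hp0]; positivity
    have hp1' : 0 ≤ p1 := by rw [hp1]; positivity
    have hp1pos : 0 < p1 := by
      rcases hp1'.lt_or_eq with h | h
      · exact h
      · rw [W1n, ← h, zero_mul] at w1pos; exact absurd w1pos (lt_irrefl _)
    have hex : Real.exp (Real.pi * (x0 N - xs k0 N) / 4) =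
        Real.exp (Real.pi * (x1 N - xs k0 N) / 4) * Real.exp (Real.pi / 4) := by
      rw [← Real.exp_add]
      congr 1
      have : x1 N = x0 N - 1 := rfl
      rw [this]; ring
    have hr' : Real.exp (-(1 / 20)) ≤ p0 / p1 * Real.exp (Real.pi / 4) := by
      refine hr.trans (le_of_eq ?_)
      simp only [Pi.div_apply]
      rw [hex, ← hp0, ← hp1]
      have := (Real.exp_pos (Real.pi * (x1 N - xs k0 N) / 4)).ne'
      field_simp
    have hr2 : Real.exp (-(1 / 20)) * Real.exp (-(Real.pi / 4)) * p1 ≤ p0 := by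
      have h1 : p0 / p1 * Real.exp (Real.pi / 4) * Real.exp (-(Real.pi / 4)) * p1 = p0 := by
        rw [mul_assoc (p0 / p1), ← Real.exp_add, add_neg_cancel, Real.exp_zero, mul_one]
        field_simp
      rw [← h1]
      apply mul_le_mul_of_nonneg_right _ hp1'
      exact mul_le_mul_of_nonneg_right hr' (Real.exp_pos _).le
    have key : 3 * (Real.exp (-(1 / 20)) * Real.exp (-(Real.pi / 4))) * ‖WW y0 x1 N‖ ≤
        ‖WW y0 x0 N‖ := by
      rw [W0n, W1n]
      calc 3 * (Real.exp (-(1 / 20)) * Real.exp (-(Real.pi / 4))) *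
          (p1 * ‖riemannZeta (sv (x1 N + y0 * I))‖) =
          (Real.exp (-(1 / 20)) * Real.exp (-(Real.pi / 4)) * p1) *
            (3 * ‖riemannZeta (sv (x1 N + y0 * I))‖) := by ring
        _ ≤ p0 * ‖riemannZeta (sv (x0 N + y0 * I))‖ :=
            mul_le_mul hr2 (hz N) (by positivity) hp0'
    have h3 := Real.log_le_log (by positivity) key
    rw [Real.log_mul (by positivity) w1pos.ne', Real.log_mul (by norm_num) (by positivity),
      Real.log_mul (by positivity) (by positivity), Real.log_exp, Real.log_exp] at h3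
    linarith
  have hpi := Real.pi_lt_d2
  have hlog3 := log_three
  -- components of v
  have comp : ∀ (W v : ℂ), ‖v - -(I * Complex.log W)‖ ≤ 1 / 20 →
      |v.im + Real.log ‖W‖| ≤ 1 / 20 ∧ |v.re| ≤ Real.pi + 1 / 20 := by
    intro W v hv
    have e1 : (v - -(I * Complex.log W)).im = v.im + Real.log ‖W‖ := by
      rw [sub_neg_eq_add, add_im, mul_im, I_re, I_im, Complex.log_re]; ring
    have e2 : (v - -(I * Complex.log W)).re = v.re - Complex.arg W := by
      rw [sub_neg_eq_add, add_re, mul_re, I_re, I_im, Complex.log_im]; ring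
    have b1 := (Complex.abs_im_le_norm (v - -(I * Complex.log W))).trans hv
    have b2 := (Complex.abs_re_le_norm (v - -(I * Complex.log W))).trans hv
    rw [e1] at b1
    rw [e2] at b2
    refine ⟨b1, ?_⟩
    have b3 := Complex.abs_arg_le_pi W
    have b4 : v.re = (v.re - Complex.arg W) + Complex.arg W := by ring
    rw [b4]
    exact (abs_add_le _ _).trans (by linarith)
  obtain ⟨im0, re0⟩ := comp _ _ hv0
  obtain ⟨im1, re1⟩ := comp _ _ hv1
  have im0' := abs_le.1 im0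
  have im1' := abs_le.1 im1
  have re0' := abs_le.1 re0
  have re1' := abs_le.1 re1
  have ereal : ∀ (x : ℝ) (v : ℂ), ((x : ℂ) + y0 * I + v / LN N).re = x + v.re / LN N := by
    intro x v
    rw [add_re, add_re, Complex.div_ofReal_re]; simp
  have eim : ∀ (x : ℝ) (v : ℂ), ((x : ℂ) + y0 * I + v / LN N).im = y0 + v.im / LN N := by
    intro x v
    rw [add_im, add_im, Complex.div_ofReal_im]; simp
  have hLinv : (Real.pi + 1 / 20) / LN N < 1 / 2 := by
    rw [div_lt_iff₀ hLpos]; linarith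
  have hre : ∀ v : ℂ, |v.re| ≤ Real.pi + 1 / 20 → |v.re / LN N| < 1 / 2 := by
    intro v hv
    rw [abs_div, abs_of_pos hLpos]
    exact lt_of_le_of_lt (div_le_div_of_nonneg_right hv hLpos.le) hLinv
  have q0 := abs_lt.1 (hre v0 re0)
  have q1 := abs_lt.1 (hre v1 re1)
  have himb : ∀ v : ℂ, |v.im| ≤ |K0| + |K1| + 1 → |v.im / LN N| < 1 / 2 := by
    intro v hv
    rw [abs_div, abs_of_pos hLpos, div_lt_iff₀ hLpos]
    linarith
  have i0 : |v0.im| ≤ |K0| + |K1| + 1 := by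
    have h1 := hW0.2
    have h2 : v0.im = (v0.im + Real.log ‖WW y0 x0 N‖) - Real.log ‖WW y0 x0 N‖ := by ring
    rw [h2]
    refine (abs_sub _ _).trans ?_
    have := le_abs_self K0
    have := abs_nonneg K1
    linarith
  have i1 : |v1.im| ≤ |K0| + |K1| + 1 := by
    have h1 := hW1.2
    have h2 : v1.im = (v1.im + Real.log ‖WW y0 x1 N‖) - Real.log ‖WW y0 x1 N‖ := by ring
    rw [h2]
    refine (abs_sub _ _).trans ?_
    have := le_abs_self K1
    have := abs_nonneg K0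
    linarith
  have j0 := abs_lt.1 (himb v0 i0)
  have j1 := abs_lt.1 (himb v1 i1)
  have hx1' : x1 N = x0 N - 1 := rfl
  refine ⟨x1 N + y0 * I + v1 / LN N, x0 N + y0 * I + v0 / LN N, ⟨?_, ?_⟩, ⟨?_, ?_⟩, hv1', hv0', ?_, ?_⟩
  · rw [ereal, hx1']; linarith
  · rw [eim]; linarith
  · rw [ereal]; linarith
  · rw [eim]; linarith
  · rw [ereal, ereal, hx1']; linarith
  · rw [eim, eim]
    have h1 : v0.im < v1.im := by
      norm_num at hlog3 hpi
      linarith
    have := div_lt_div_of_pos_right h1 hLpos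
    linarith

end Pool.Agent.Lib.MP_13bed0_nt
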