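import Pool.Agent.Lib.MP_13bed0_nt.GammaRatio

/-!
# The Gamma factor `P(z) = s(s-1) π^{-s/2} Γ(s/2) / 2`, `s = 1/2 - i z`
-/

set_option autoImplicit false

open Complex Filter Topology

namespace Pool.Agent.Lib.MP_13bed0_nt

/-- The variable `s`. -/
noncomputable def sv (z : ℂ) : ℂ := 1 / 2 - I * z

theorem sv_re (z : ℂ) : (sv z).re = 1 / 2 + z.im := by
  simp [sv]

theorem sv_im (z : ℂ) : (sv z).im = -z.re := by
  simp [sv]

theorem sv_add (z h : ℂ) : sv (z + h) = sv z + -(I * h) := by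
  simp only [sv]; ring

/-- The Gamma factor. -/
noncomputable def PF (z : ℂ) : ℂ := 1 / 2 * (sv z * (sv z - 1)) * Gammaℝ (sv z)

/-- Half the logarithm of the conductor. -/
noncomputable def LL (x : ℝ) : ℝ := 1 / 2 * Real.log (x / (2 * Real.pi))

variable {ι : Type*} {l : Filter ι} {z h : ι → ℂ} {B H : ℝ}

theorem tendsto_sv_div (hx : Tendsto (fun i => (z i).re) l atTop)
    (hy : ∀ i, |(z i).im| ≤ B) :
    Tendsto (fun i => sv (z i) / ((z i).re : ℂ)) l (𝓝 (-I)) := by
  have h1 : Tendsto (fun i => (((1 / 2 + (z i).im) / (z i).re : ℝ) : ℂ) - I) l (𝓝 (((0 : ℝ) : ℂ) - I)) := by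
    refine Tendsto.sub_const ?_ _
    refine (Complex.continuous_ofReal.tendsto _).comp ?_
    refine squeeze_zero_norm' (a := fun i => (1 / 2 + B) / (z i).re) ?_
      (hx.const_div_atTop _)
    filter_upwards [hx.eventually_gt_atTop 0] with i hi
    rw [Real.norm_eq_abs, abs_div, abs_of_pos hi]
    apply div_le_div_of_nonneg_right _ hi.le
    refine (abs_add_le _ _).trans ?_
    have := hy i
    rw [abs_of_pos (by norm_num : (0 : ℝ) < 1 / 2)]
    linarith
  simp only [ofReal_zero, zero_sub] at h1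
  refine h1.congr' ?_
  filter_upwards [hx.eventually_gt_atTop 0] with i hi
  have hne : ((z i).re : ℂ) ≠ 0 := by exact_mod_cast hi.ne'
  have e : sv (z i) = ((1 / 2 + (z i).im : ℝ) : ℂ) - I * ((z i).re : ℂ) := by
    apply Complex.ext
    · rw [sv_re]; simp
    · rw [sv_im]; simp
  rw [e]
  push_cast
  field_simp

theorem tendsto_log_sv (hx : Tendsto (fun i => (z i).re) l atTop)
    (hy : ∀ i, |(z i).im| ≤ B) :
    Tendsto (fun i => Complex.log (sv (z i) / 2) - (Real.log ((z i).re / 2) : ℂ)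
      + I * (Real.pi / 2)) l (𝓝 0) := by
  have h1 := tendsto_sv_div hx hy
  have hcont : ContinuousAt Complex.log (-I) := by
    apply continuousAt_clog
    right; simp
  have h2 := hcont.tendsto.comp h1
  rw [Complex.log_neg_I] at h2
  have h3 := h2.add_const (I * (Real.pi / 2))
  have e0 : -(Real.pi / 2) * I + I * (Real.pi / 2) = (0 : ℂ) := by ring
  rw [e0] at h3
  refine h3.congr' ?_
  filter_upwards [hx.eventually_gt_atTop 0, h1.eventually_ne (neg_ne_zero.2 I_ne_zero)] with i hi hz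
  have hne : ((z i).re : ℂ) ≠ 0 := by exact_mod_cast hi.ne'
  have e : sv (z i) / 2 = (((z i).re / 2 : ℝ) : ℂ) * (sv (z i) / ((z i).re : ℂ)) := by
    push_cast; field_simp
  rw [e, Complex.log_ofReal_mul (by positivity) hz]
  simp only [Function.comp]
  ring

theorem PF_ne_zero {z : ℂ} (hx : z.re ≠ 0) (hy : 0 ≤ z.im) : PF z ≠ 0 := by
  unfold PF
  have h1 : sv z ≠ 0 := by
    intro e
    have := congrArg Complex.im e
    rw [sv_im, zero_im] at this
    exact hx (by linarith)
  have h2 : sv z - 1 ≠ 0 := by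
    intro e
    have := congrArg Complex.im e
    rw [sub_im, sv_im, zero_im, one_im] at this
    exact hx (by linarith)
  have h3 : Gammaℝ (sv z) ≠ 0 := by
    apply Gammaℝ_ne_zero_of_re_pos
    rw [sv_re]; linarith
  exact mul_ne_zero (mul_ne_zero (by norm_num) (mul_ne_zero h1 h2)) h3

theorem tendsto_poly_ratio (hx : Tendsto (fun i => (z i).re) l atTop)
    (hy : ∀ i, |(z i).im| ≤ B) (hh : ∀ i, ‖h i‖ ≤ H) (c : ℂ) :
    Tendsto (fun i => (sv (z i + h i) + c) / (sv (z i) + c)) l (𝓝 1) := by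
  have h1 := tendsto_sv_div hx hy
  have hinv : Tendsto (fun i => (((z i).re : ℝ) : ℂ)⁻¹) l (𝓝 0) := by
    have h2 : Tendsto (fun i => ((z i).re)⁻¹) l (𝓝 0) := tendsto_inv_atTop_zero.comp hx
    have h3 := (Complex.continuous_ofReal.tendsto 0).comp h2
    rw [Complex.ofReal_zero] at h3
    refine h3.congr fun i => ?_
    simp
  have hc : Tendsto (fun i => c * (((z i).re : ℝ) : ℂ)⁻¹) l (𝓝 (c * 0)) := hinv.const_mul c
  rw [mul_zero] at hc
  have hhh : Tendsto (fun i => -(I * h i) * (((z i).re : ℝ) : ℂ)⁻¹) l (𝓝 0) := by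
    refine squeeze_zero_norm (a := fun i => H * ‖(((z i).re : ℝ) : ℂ)⁻¹‖) ?_ ?_
    · intro i
      rw [norm_mul, norm_neg, norm_mul, norm_I, one_mul]
      exact mul_le_mul_of_nonneg_right (hh i) (norm_nonneg _)
    · simpa using hinv.norm.const_mul H
  have hden := h1.add hc
  have hnum := hden.add hhh
  have hne : (-I + 0 : ℂ) ≠ 0 := by simp [I_ne_zero]
  have h4 := hnum.div hden hne
  rw [add_zero, add_zero, div_self (neg_ne_zero.2 I_ne_zero)] at h4
  refine h4.congr' ?_
  filter_upwards [hx.eventually_gt_atTop 0] with i hi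
  have hne : ((z i).re : ℂ) ≠ 0 := by exact_mod_cast hi.ne'
  have e1 : sv (z i) / ((z i).re : ℂ) + c * (((z i).re : ℝ) : ℂ)⁻¹ =
      (sv (z i) + c) * (((z i).re : ℝ) : ℂ)⁻¹ := by
    rw [div_eq_mul_inv]; ring
  have e2 : sv (z i) / ((z i).re : ℂ) + c * (((z i).re : ℝ) : ℂ)⁻¹ +
      -(I * h i) * (((z i).re : ℝ) : ℂ)⁻¹ = (sv (z i + h i) + c) * (((z i).re : ℝ) : ℂ)⁻¹ := by
    rw [sv_add, div_eq_mul_inv]; ring
  rw [Pi.div_apply, e2, e1, mul_div_mul_right _ _ (inv_ne_zero hne)]

/-- The main ratio asymptotics for the Gamma factor. -/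
theorem tendsto_PF_ratio (hx : Tendsto (fun i => (z i).re) l atTop)
    (hy : ∀ i, |(z i).im| ≤ B) (hH : 1 ≤ H) (hh : ∀ i, ‖h i‖ ≤ H)
    (hy0 : ∀ i, 0 ≤ (z i).im) (hy1 : ∀ i, 0 ≤ (z i + h i).im) :
    Tendsto (fun i => PF (z i + h i) / PF (z i) *
      Complex.exp (I * h i * (LL (z i).re : ℂ) + Real.pi * h i / 4)) l (𝓝 1) := by
  have q1 := tendsto_poly_ratio hx hy hh 0
  have q2 := tendsto_poly_ratio hx hy hh (-1)
  have him : Tendsto (fun i => |(sv (z i) / 2).im|) l atTop := by
    have : Tendsto (fun i => (z i).re / 2) l atTop := hx.atTop_div_const (by norm_num)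
    refine this.congr' ?_
    filter_upwards [hx.eventually_gt_atTop 0] with i hi
    have e : (sv (z i) / 2).im = -((z i).re / 2) := by
      rw [Complex.div_ofNat_im, sv_im]; ring
    rw [e, abs_neg, abs_of_pos (by positivity)]
  have q3 : Tendsto (fun i => Rat (-(I * h i) / 2) (sv (z i) / 2)) l (𝓝 1) := by
    rw [tendsto_iff_norm_sub_tendsto_zero]
    have hbd : Tendsto (fun i => Real.exp (8 * H ^ 2 / (|(sv (z i) / 2).im| - 1)) - 1) l (𝓝 0) := by
      have h2 : Tendsto (fun i => |(sv (z i) / 2).im| - 1) l atTop :=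
        tendsto_atTop_add_const_right _ _ him
      have h3 := (h2.const_div_atTop (8 * H ^ 2))
      have h4 := (Real.continuous_exp.tendsto 0).comp h3
      rw [Real.exp_zero] at h4
      simpa using h4.sub_const 1
    refine squeeze_zero' (Eventually.of_forall fun i => norm_nonneg _) ?_ hbd
    filter_upwards [him.eventually_ge_atTop (4 * H)] with i hi
    apply Rat_sub_one_le hH _ _ _ hi
    · rw [norm_div, norm_neg, norm_mul, norm_I, one_mul]
      have := hh i
      simp only [Complex.norm_ofNat]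
      linarith
    · rw [Complex.div_ofNat_re, sv_re]
      have := hy0 i
      positivity
    · have e : sv (z i) / 2 + -(I * h i) / 2 = sv (z i + h i) / 2 := by rw [sv_add]; ring
      rw [e, Complex.div_ofNat_re, sv_re]
      have := hy1 i
      positivity
  have q4 : Tendsto (fun i => Complex.exp (-(I * h i) / 2 *
      (Complex.log (sv (z i) / 2) - (Real.log ((z i).re / 2) : ℂ) + I * (Real.pi / 2)))) l
      (𝓝 1) := by
    have h1 := tendsto_log_sv hx hy
    have h2 : Tendsto (fun i => -(I * h i) / 2 *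
      (Complex.log (sv (z i) / 2) - (Real.log ((z i).re / 2) : ℂ) + I * (Real.pi / 2))) l
      (𝓝 0) := by
      refine squeeze_zero_norm (a := fun i => H * ‖Complex.log (sv (z i) / 2) -
        (Real.log ((z i).re / 2) : ℂ) + I * (Real.pi / 2)‖) ?_ ?_
      · intro i
        rw [norm_mul]
        apply mul_le_mul_of_nonneg_right _ (norm_nonneg _)
        rw [norm_div, norm_neg, norm_mul, norm_I, one_mul]
        have := hh i
        have := norm_nonneg (h i)
        simp only [Complex.norm_ofNat]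
        linarith
      · simpa using h1.norm.const_mul H
    have h3 := (Complex.continuous_exp.tendsto 0).comp h2
    rw [Complex.exp_zero] at h3
    exact h3
  have q := ((q1.mul q2).mul q3).mul q4
  simp only [mul_one] at q
  refine q.congr' ?_
  filter_upwards [hx.eventually_gt_atTop 0] with i hi
  have hs1 : sv (z i) ≠ 0 := by
    intro e
    have := congrArg Complex.im e
    rw [sv_im, zero_im] at this
    linarith
  have hs2 : sv (z i) - 1 ≠ 0 := by
    intro e
    have := congrArg Complex.im e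
    rw [sub_im, sv_im, zero_im, one_im] at this
    linarith
  have hpi : (Real.pi : ℂ) ≠ 0 := by exact_mod_cast Real.pi_ne_zero
  have hG : Gamma (sv (z i) / 2) ≠ 0 := by
    apply Gamma_ne_zero_of_re_pos
    rw [Complex.div_ofNat_re, sv_re]
    have := hy0 i
    positivity
  have hLL : ((LL (z i).re : ℝ) : ℂ) = 1 / 2 * ((Real.log ((z i).re / 2) : ℂ) -
      (Real.log Real.pi : ℂ)) := by
    unfold LL
    have e : (z i).re / (2 * Real.pi) = (z i).re / 2 / Real.pi := by
      field_simp
    rw [e, Real.log_div (by positivity) Real.pi_ne_zero]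
    push_cast; ring
  have e1 : sv (z i + h i) / 2 = sv (z i) / 2 + -(I * h i) / 2 := by rw [sv_add]; ring
  unfold PF Rat
  rw [Gammaℝ_def, Gammaℝ_def, e1, Complex.cpow_def_of_ne_zero hpi, Complex.cpow_def_of_ne_zero hpi]
  rw [← Complex.ofReal_log Real.pi_pos.le, hLL]
  have e2 : (-sv (z i + h i) / 2 : ℂ) = -sv (z i) / 2 + I * h i / 2 := by rw [sv_add]; ring
  rw [e2]
  have e3 : Complex.exp (-(I * h i) / 2 *
      (Complex.log (sv (z i) / 2) - (Real.log ((z i).re / 2) : ℂ) + I * (Real.pi / 2))) =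
      Complex.exp (-(I * h i) / 2 * Complex.log (sv (z i) / 2)) *
      Complex.exp ((Real.log Real.pi : ℂ) * (I * h i / 2)) *
      Complex.exp (I * h i * (1 / 2 * ((Real.log ((z i).re / 2) : ℂ) -
      (Real.log Real.pi : ℂ))) + Real.pi * h i / 4) := by
    rw [← Complex.exp_add, ← Complex.exp_add]
    congr 1
    linear_combination (-(h i) * (Real.pi : ℂ) / 4) * Complex.I_sq
  have e4 : Complex.exp ((Real.log Real.pi : ℂ) * (-sv (z i) / 2 + I * h i / 2)) =
      Complex.exp ((Real.log Real.pi : ℂ) * (-sv (z i) / 2)) *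
      Complex.exp ((Real.log Real.pi : ℂ) * (I * h i / 2)) := by
    rw [← Complex.exp_add]; congr 1; ring
  rw [e3, e4]
  have n1 := Complex.exp_ne_zero (-(I * h i) / 2 * Complex.log (sv (z i) / 2))
  have n2 := Complex.exp_ne_zero ((Real.log Real.pi : ℂ) * (-sv (z i) / 2))
  have hs1' : sv (z i) + 0 ≠ 0 := by rwa [add_zero]
  have hs2' : sv (z i) + -1 ≠ 0 := by rwa [← sub_eq_add_neg]
  rw [show sv (z i) - 1 = sv (z i) + -1 by ring, show sv (z i + h i) - 1 = sv (z i + h i) + -1 by ring]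
  rw [add_zero, add_zero]
  generalize Complex.exp (-(I * h i) / 2 * Complex.log (sv (z i) / 2)) = E1 at *
  generalize Complex.exp ((Real.log Real.pi : ℂ) * (-sv (z i) / 2)) = E2 at *
  generalize Complex.exp ((Real.log Real.pi : ℂ) * (I * h i / 2)) = E3 at *
  generalize Complex.exp (I * h i * (1 / 2 * ((Real.log ((z i).re / 2) : ℂ) -
      (Real.log Real.pi : ℂ))) + Real.pi * h i / 4) = E4 at *
  generalize Gamma (sv (z i) / 2 + -(I * h i) / 2) = G1 at *
  generalize Gamma (sv (z i) / 2) = G2 at *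
  rw [add_zero] at hs1'
  field_simp

end Pool.Agent.Lib.MP_13bed0_nt
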