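import Mathlib

/-!
# Evenness of the Riemann-Pólya kernel

`φ(u) = ∑_{n ≥ 1} (8 π² n⁴ e^{9u/2} - 12 π n² e^{5u/2}) exp(-π n² e^{2u})` is an even function of `u`.
-/

set_option autoImplicit false

open Filter Topology Set

namespace Pool.Agent.Lib.MP_13bed0_nt

/-- The real kernel of one term. -/
noncomputable def ff (a u : ℝ) : ℝ :=
  (8 * a ^ 2 * Real.exp (9 / 2 * u) - 12 * a * Real.exp (5 / 2 * u)) *
    Real.exp (-(a * Real.exp (2 * u)))

/-- theta term -/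
noncomputable def hh (n : ℤ) (u : ℝ) : ℝ :=
  Real.exp (u / 2 - Real.pi * n ^ 2 * Real.exp (2 * u))

/-- first derivative -/
noncomputable def hh1 (n : ℤ) (u : ℝ) : ℝ :=
  (1 / 2 - 2 * Real.pi * n ^ 2 * Real.exp (2 * u)) * hh n u

/-- second derivative -/
noncomputable def hh2 (n : ℤ) (u : ℝ) : ℝ :=
  (1 / 4 - 6 * Real.pi * n ^ 2 * Real.exp (2 * u)
    + 4 * (Real.pi * n ^ 2 * Real.exp (2 * u)) ^ 2) * hh n u

theorem hasDerivAt_e2 (u : ℝ) : HasDerivAt (fun u : ℝ => Real.exp (2 * u)) (2 * Real.exp (2 * u)) u := by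
  have h1 : HasDerivAt (fun u : ℝ => 2 * u) 2 u := by
    simpa using (hasDerivAt_id u).const_mul 2
  simpa [mul_comm] using h1.exp

theorem hasDerivAt_hh (n : ℤ) (u : ℝ) : HasDerivAt (hh n) (hh1 n u) u := by
  unfold hh1 hh
  have h1 : HasDerivAt (fun u : ℝ => u / 2 - Real.pi * n ^ 2 * Real.exp (2 * u))
      (1 / 2 - Real.pi * n ^ 2 * (2 * Real.exp (2 * u))) u :=
    ((hasDerivAt_id u).div_const 2).sub ((hasDerivAt_e2 u).const_mul _)
  convert h1.exp using 1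
  ring

theorem hasDerivAt_hh1 (n : ℤ) (u : ℝ) : HasDerivAt (hh1 n) (hh2 n u) u := by
  have h1 : HasDerivAt (fun u : ℝ => 1 / 2 - 2 * Real.pi * n ^ 2 * Real.exp (2 * u))
      (-(2 * Real.pi * n ^ 2 * (2 * Real.exp (2 * u)))) u :=
    ((hasDerivAt_e2 u).const_mul (2 * Real.pi * n ^ 2)).const_sub (1 / 2)
  have h2 : HasDerivAt (hh1 n) (-(2 * Real.pi * n ^ 2 * (2 * Real.exp (2 * u))) * hh n u +
      (1 / 2 - 2 * Real.pi * n ^ 2 * Real.exp (2 * u)) * hh1 n u) u :=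
    h1.mul (hasDerivAt_hh n u)
  refine h2.congr_deriv ?_
  simp only [hh2, hh1]
  ring

theorem hh_le {A : ℝ} {u : ℝ} (hu : u ∈ Ioo (-A) A) (n : ℤ) :
    hh n u ≤ Real.exp (A / 2) *
      Real.exp (-Real.pi * (Real.exp (-2 * A) * n ^ 2 - 2 * 0 * |(n : ℝ)|)) := by
  unfold hh
  rw [← Real.exp_add]
  apply Real.exp_le_exp.2
  have h1 : Real.exp (-2 * A) ≤ Real.exp (2 * u) := Real.exp_le_exp.2 (by linarith [hu.1])
  have h2 : (0 : ℝ) ≤ Real.pi * n ^ 2 := by positivity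
  have h3 := hu.2
  have h4 := mul_le_mul_of_nonneg_left h1 h2
  have h5 : -Real.pi * (Real.exp (-2 * A) * n ^ 2 - 2 * 0 * |(n : ℝ)|) =
    -(Real.pi * n ^ 2 * Real.exp (-2 * A)) := by ring
  rw [h5]
  linarith

theorem hh_pos (n : ℤ) (u : ℝ) : 0 < hh n u := Real.exp_pos _

theorem e2_le {A : ℝ} {u : ℝ} (hu : u ∈ Ioo (-A) A) : Real.exp (2 * u) ≤ Real.exp (2 * A) :=
  Real.exp_le_exp.2 (by linarith [hu.2])

/-- summable bound -/
noncomputable def bd (A : ℝ) (k : ℕ) (n : ℤ) : ℝ :=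
  |(n : ℝ)| ^ k * Real.exp (-Real.pi * (Real.exp (-2 * A) * n ^ 2 - 2 * 0 * |(n : ℝ)|))

theorem summable_bd (A : ℝ) (k : ℕ) : Summable (bd A k) := by
  have := summable_pow_mul_jacobiTheta₂_term_bound 0 (Real.exp_pos (-2 * A)) k
  unfold bd
  refine this.congr fun n => ?_
  push_cast
  rfl

theorem bd_nonneg (A : ℝ) (k : ℕ) (n : ℤ) : 0 ≤ bd A k n := by unfold bd; positivity

theorem hh1_bound {A : ℝ} {u : ℝ} (hu : u ∈ Ioo (-A) A) (n : ℤ) :
    ‖hh1 n u‖ ≤ Real.exp (A / 2) * (1 / 2 * bd A 0 n + 2 * Real.pi * Real.exp (2 * A) * bd A 2 n) := by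
  have h1 := hh_le hu n
  have h2 := e2_le hu
  have h3 := hh_pos n u
  unfold hh1
  rw [norm_mul, Real.norm_eq_abs, Real.norm_eq_abs, abs_of_pos h3]
  have h4 : |1 / 2 - 2 * Real.pi * (n : ℝ) ^ 2 * Real.exp (2 * u)| ≤
      1 / 2 + 2 * Real.pi * (n : ℝ) ^ 2 * Real.exp (2 * A) := by
    refine (abs_sub _ _).trans ?_
    rw [abs_of_pos (by norm_num : (0 : ℝ) < 1 / 2), abs_of_nonneg (by positivity)]
    have : (0 : ℝ) ≤ 2 * Real.pi * (n : ℝ) ^ 2 := by positivity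
    have := mul_le_mul_of_nonneg_left h2 this
    linarith
  refine (mul_le_mul h4 h1 h3.le (by positivity)).trans (le_of_eq ?_)
  unfold bd
  rw [pow_zero, sq_abs]
  ring

theorem hh2_bound {A : ℝ} {u : ℝ} (hu : u ∈ Ioo (-A) A) (n : ℤ) :
    ‖hh2 n u‖ ≤ Real.exp (A / 2) * (1 / 4 * bd A 0 n + 6 * Real.pi * Real.exp (2 * A) * bd A 2 n
      + 4 * Real.pi ^ 2 * Real.exp (2 * A) ^ 2 * bd A 4 n) := by
  have h1 := hh_le hu n
  have h2 := e2_le hu
  have h3 := hh_pos n u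
  unfold hh2
  rw [norm_mul, Real.norm_eq_abs, Real.norm_eq_abs, abs_of_pos h3]
  have h4 : |1 / 4 - 6 * Real.pi * (n : ℝ) ^ 2 * Real.exp (2 * u)
      + 4 * (Real.pi * (n : ℝ) ^ 2 * Real.exp (2 * u)) ^ 2| ≤
      1 / 4 + 6 * Real.pi * (n : ℝ) ^ 2 * Real.exp (2 * A)
      + 4 * (Real.pi * (n : ℝ) ^ 2 * Real.exp (2 * A)) ^ 2 := by
    refine (abs_add_le _ _).trans ?_
    refine add_le_add ((abs_sub _ _).trans ?_) ?_
    · rw [abs_of_pos (by norm_num : (0 : ℝ) < 1 / 4), abs_of_nonneg (by positivity)]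
      have : (0 : ℝ) ≤ 6 * Real.pi * (n : ℝ) ^ 2 := by positivity
      have := mul_le_mul_of_nonneg_left h2 this
      linarith
    · rw [abs_of_nonneg (by positivity)]
      have : (0 : ℝ) ≤ Real.pi * (n : ℝ) ^ 2 := by positivity
      have := mul_le_mul_of_nonneg_left h2 this
      gcongr
  refine (mul_le_mul h4 h1 h3.le (by positivity)).trans (le_of_eq ?_)
  have e4 : |(n : ℝ)| ^ 4 = (n : ℝ) ^ 4 := by
    rw [show (4 : ℕ) = 2 * 2 by norm_num, pow_mul, pow_mul, sq_abs]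
  unfold bd
  rw [pow_zero, sq_abs, e4]
  ring

theorem summable_b1 (A : ℝ) : Summable fun n : ℤ =>
    Real.exp (A / 2) * (1 / 2 * bd A 0 n + 2 * Real.pi * Real.exp (2 * A) * bd A 2 n) :=
  (((summable_bd A 0).mul_left _).add ((summable_bd A 2).mul_left _)).mul_left _

theorem summable_b2 (A : ℝ) : Summable fun n : ℤ =>
    Real.exp (A / 2) * (1 / 4 * bd A 0 n + 6 * Real.pi * Real.exp (2 * A) * bd A 2 n
      + 4 * Real.pi ^ 2 * Real.exp (2 * A) ^ 2 * bd A 4 n) :=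
  ((((summable_bd A 0).mul_left _).add ((summable_bd A 2).mul_left _)).add
    ((summable_bd A 4).mul_left _)).mul_left _

theorem mem_Ioo_self (u : ℝ) : u ∈ Ioo (-(|u| + 1)) (|u| + 1) := by
  have h := abs_le.1 (le_refl |u|)
  constructor <;> linarith [h.1, h.2]

theorem summable_hh (u : ℝ) : Summable fun n => hh n u := by
  have hb : Summable fun n => Real.exp ((|u| + 1) / 2) * bd (|u| + 1) 0 n :=
    (summable_bd _ 0).mul_left _
  refine Summable.of_nonneg_of_le (fun n => (hh_pos n u).le) (fun n => ?_) hb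
  refine (hh_le (mem_Ioo_self u) n).trans (le_of_eq ?_)
  unfold bd; rw [pow_zero, one_mul]

theorem summable_hh1 (u : ℝ) : Summable fun n => hh1 n u :=
  Summable.of_norm_bounded (summable_b1 (|u| + 1)) fun n => hh1_bound (mem_Ioo_self u) n

theorem summable_hh2 (u : ℝ) : Summable fun n => hh2 n u :=
  Summable.of_norm_bounded (summable_b2 (|u| + 1)) fun n => hh2_bound (mem_Ioo_self u) n

/-- theta -/
noncomputable def TH (u : ℝ) : ℝ := ∑' n : ℤ, hh n u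
/-- theta' -/
noncomputable def TH1 (u : ℝ) : ℝ := ∑' n : ℤ, hh1 n u
/-- theta'' -/
noncomputable def TH2 (u : ℝ) : ℝ := ∑' n : ℤ, hh2 n u

theorem hasDerivAt_TH (u : ℝ) : HasDerivAt TH (TH1 u) u :=
  hasDerivAt_tsum_of_isPreconnected (summable_b1 (|u| + 1)) isOpen_Ioo isPreconnected_Ioo
    (fun n _ _ => hasDerivAt_hh n _) (fun n _ hy => hh1_bound hy n) (mem_Ioo_self u)
    (summable_hh u) (mem_Ioo_self u)

theorem hasDerivAt_TH1 (u : ℝ) : HasDerivAt TH1 (TH2 u) u :=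
  hasDerivAt_tsum_of_isPreconnected (summable_b2 (|u| + 1)) isOpen_Ioo isPreconnected_Ioo
    (fun n _ _ => hasDerivAt_hh1 n _) (fun n _ hy => hh2_bound hy n) (mem_Ioo_self u)
    (summable_hh1 u) (mem_Ioo_self u)

theorem TH_eq (u : ℝ) : TH u = Real.exp (u / 2) *
    ∑' n : ℤ, Real.exp (-Real.pi * Real.exp (2 * u) * n ^ 2) := by
  unfold TH hh
  rw [← tsum_mul_left]
  refine tsum_congr fun n => ?_
  rw [← Real.exp_add]
  congr 1; ring

theorem TH_even (u : ℝ) : TH (-u) = TH u := by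
  rw [TH_eq, TH_eq, Real.tsum_exp_neg_mul_int_sq (Real.exp_pos _), ← mul_assoc]
  have h1 : Real.exp (-u / 2) * (1 / Real.exp (2 * -u) ^ (1 / 2 : ℝ)) = Real.exp (u / 2) := by
    rw [← Real.exp_mul, one_div, ← Real.exp_neg, ← Real.exp_add]
    congr 1; ring
  rw [h1]
  congr 1
  refine tsum_congr fun n => ?_
  congr 1
  have h2 : Real.pi / Real.exp (2 * -u) = Real.pi * Real.exp (2 * u) := by
    rw [div_eq_mul_inv, ← Real.exp_neg]; congr 2; ring
  rw [neg_div, h2]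
  ring

theorem TH1_odd (u : ℝ) : TH1 (-u) = -TH1 u := by
  have h1 : HasDerivAt (fun v => TH (-v)) (TH1 (-u) * (-1)) u :=
    HasDerivAt.comp u (hasDerivAt_TH (-u)) (hasDerivAt_neg u)
  have h2 : (fun v => TH (-v)) = TH := funext TH_even
  rw [h2] at h1
  have h3 := h1.unique (hasDerivAt_TH u)
  linarith

theorem TH2_even (u : ℝ) : TH2 (-u) = TH2 u := by
  have h1 : HasDerivAt (fun v => TH1 (-v)) (TH2 (-u) * (-1)) u :=
    HasDerivAt.comp u (hasDerivAt_TH1 (-u)) (hasDerivAt_neg u)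
  have h2 : (fun v => TH1 (-v)) = fun v => -TH1 v := funext TH1_odd
  rw [h2] at h1
  have h3 := h1.unique (hasDerivAt_TH1 u).neg
  linarith

theorem ff_eq (n : ℤ) (u : ℝ) : ff (Real.pi * n ^ 2) u = 2 * (hh2 n u - hh n u / 4) := by
  unfold ff hh2 hh
  have e1 : Real.exp (u / 2 - Real.pi * n ^ 2 * Real.exp (2 * u)) =
    Real.exp (u / 2) * Real.exp (-(Real.pi * n ^ 2 * Real.exp (2 * u))) := by
    rw [← Real.exp_add]; congr 1
  have e2 : Real.exp (9 / 2 * u) = Real.exp (u / 2) * Real.exp (2 * u) ^ 2 := by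
    rw [← Real.exp_nat_mul, ← Real.exp_add]; congr 1; push_cast; ring
  have e3 : Real.exp (5 / 2 * u) = Real.exp (u / 2) * Real.exp (2 * u) := by
    rw [← Real.exp_add]; congr 1; ring
  rw [e1, e2, e3]
  ring

theorem summable_ff_int (u : ℝ) : Summable fun n : ℤ => ff (Real.pi * n ^ 2) u := by
  have := ((summable_hh2 u).sub ((summable_hh u).div_const 4)).mul_left 2
  exact this.congr fun n => (ff_eq n u).symm

theorem tsum_ff_int_even (u : ℝ) :
    ∑' n : ℤ, ff (Real.pi * n ^ 2) (-u) = ∑' n : ℤ, ff (Real.pi * n ^ 2) u := by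
  have key : ∀ v, ∑' n : ℤ, ff (Real.pi * n ^ 2) v = 2 * (TH2 v - TH v / 4) := by
    intro v
    simp_rw [ff_eq]
    rw [tsum_mul_left, Summable.tsum_sub (summable_hh2 v) ((summable_hh v).div_const 4),
      tsum_div_const]
    rfl
  rw [key, key, TH2_even, TH_even]

/-- The kernel, as a sum over positive integers. -/
noncomputable def phi (u : ℝ) : ℝ := ∑' n : ℕ, ff (Real.pi * ((n : ℝ) + 1) ^ 2) u

theorem summable_ff (u : ℝ) : Summable fun n : ℕ => ff (Real.pi * ((n : ℝ) + 1) ^ 2) u := by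
  have h1 := (summable_ff_int u).comp_injective (i := fun n : ℕ => ((n : ℤ) + 1))
    (fun a b h => by simpa using h)
  refine h1.congr fun n => ?_
  simp [Function.comp]

theorem two_phi (u : ℝ) : ∑' n : ℤ, ff (Real.pi * n ^ 2) u = 2 * phi u := by
  have h1 := summable_ff u
  obtain ⟨g, hg⟩ : ∃ g : ℤ → ℝ, ∀ n, g n = ff (Real.pi * n ^ 2) u := ⟨_, fun _ => rfl⟩
  have hgs : Summable g := (summable_ff_int u).congr fun n => (hg n).symm
  have e1 : ∀ n : ℕ, g ((n + 1 : ℕ) : ℤ) = ff (Real.pi * ((n : ℝ) + 1) ^ 2) u := by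
    intro n; rw [hg]; push_cast; rfl
  have e2 : ∀ n : ℕ, g (-((n : ℤ) + 1)) = ff (Real.pi * ((n : ℝ) + 1) ^ 2) u := by
    intro n; rw [hg]
    have : (((-((n : ℤ) + 1) : ℤ)) : ℝ) ^ 2 = ((n : ℝ) + 1) ^ 2 := by push_cast; ring
    rw [this]
  have e0 : g ((0 : ℕ) : ℤ) = 0 := by rw [hg]; simp [ff]
  have hs1 : Summable fun n : ℕ => g (n : ℤ) := hgs.comp_injective Nat.cast_injective
  have hs2 : Summable fun n : ℕ => g (-((n : ℤ) + 1)) := h1.congr fun n => (e2 n).symm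
  have e3 : ∑' n : ℤ, ff (Real.pi * n ^ 2) u = ∑' n : ℤ, g n := tsum_congr fun n => (hg n).symm
  rw [e3, tsum_of_nat_of_neg_add_one hs1 hs2, hs1.tsum_eq_zero_add, e0, zero_add, two_mul]
  unfold phi
  rw [tsum_congr e1, tsum_congr e2]

theorem phi_even (u : ℝ) : phi (-u) = phi u := by
  have h1 := two_phi u
  have h2 := two_phi (-u)
  rw [tsum_ff_int_even] at h2
  linarith

end Pool.Agent.Lib.MP_13bed0_nt
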