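import Pool.Agent.Lib.MP_13bed0_nt.Defs
import Pool.Agent.Lib.MP_13bed0_nt.ExpInt
import Pool.Agent.Lib.MP_13bed0_nt.ThetaEven
import Pool.Agent.Lib.MP_13bed0_nt.PFactor

/-!
# `Φ_n` as an integral, and the two-sided integral
-/

set_option autoImplicit false

open Complex Filter Topology MeasureTheory Set

namespace Pool.Agent.Lib.MP_13bed0_nt

theorem integrableOn_exp (c : ℂ) {a : ℝ} (ha : 0 < a) :
    IntegrableOn (fun u : ℝ => Complex.exp (c * u - a * Real.exp (2 * u))) (Ioi 0) := by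
  have h1 := (exp_int (c := ((|c.re| + 1 : ℝ) : ℂ)) (a := a)
    (by rw [Complex.ofReal_re]; positivity) ha).1.integrableOn (s := Ioi 0)
  refine Integrable.mono h1 ?_ ?_
  · apply Continuous.aestronglyMeasurable
    fun_prop
  · refine (ae_restrict_iff' measurableSet_Ioi).2 (Eventually.of_forall fun u hu => ?_)
    rw [Complex.norm_exp, Complex.norm_exp]
    apply Real.exp_le_exp.2
    have hu' : (0 : ℝ) < u := hu
    have e1 : (c * u - a * Real.exp (2 * u) : ℂ).re = c.re * u - a * Real.exp (2 * u) := by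
      rw [← Complex.ofReal_mul, sub_re, Complex.re_mul_ofReal, Complex.ofReal_re]
    have e2 : (((|c.re| + 1 : ℝ) : ℂ) * u - a * Real.exp (2 * u) : ℂ).re =
        (|c.re| + 1) * u - a * Real.exp (2 * u) := by
      rw [← Complex.ofReal_mul, sub_re, Complex.re_mul_ofReal, Complex.ofReal_re,
        Complex.ofReal_re]
    rw [e1, e2]
    have h2 : c.re ≤ |c.re| + 1 := by have := le_abs_self c.re; linarith
    have := mul_le_mul_of_nonneg_right h2 hu'.le
    linarith

theorem cos_mul_exp (z : ℂ) (a b u : ℝ) :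
    Complex.cos (z * u) * ((Real.exp (b * u - a * Real.exp (2 * u)) : ℝ) : ℂ) =
      1 / 2 * (Complex.exp ((b + I * z) * u - a * Real.exp (2 * u)) +
        Complex.exp ((b - I * z) * u - a * Real.exp (2 * u))) := by
  rw [Complex.cos, Complex.ofReal_exp]
  have e1 : Complex.exp ((b + I * z) * u - a * Real.exp (2 * u)) =
      Complex.exp (z * u * I) * Complex.exp ((b * u - a * Real.exp (2 * u) : ℝ) : ℂ) := by
    rw [← Complex.exp_add]; congr 1; push_cast; ring
  have e2 : Complex.exp ((b - I * z) * u - a * Real.exp (2 * u)) =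
      Complex.exp (-(z * u) * I) * Complex.exp ((b * u - a * Real.exp (2 * u) : ℝ) : ℂ) := by
    rw [← Complex.exp_add]; congr 1; push_cast; ring
  rw [e1, e2]; ring

theorem integrableOn_cos (z : ℂ) {a : ℝ} (ha : 0 < a) (b : ℝ) :
    IntegrableOn (fun u : ℝ => Complex.cos (z * u) *
      ((Real.exp (b * u - a * Real.exp (2 * u)) : ℝ) : ℂ)) (Ioi 0) := by
  have h1 := ((integrableOn_exp (b + I * z) ha).add (integrableOn_exp (b - I * z) ha)).const_mul
    (1 / 2 : ℂ)
  refine h1.congr ?_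
  refine Eventually.of_forall fun u => ?_
  simp only [Pi.add_apply]
  rw [cos_mul_exp]

theorem ff_eq_sub (a u : ℝ) : ff a u = 8 * a ^ 2 * Real.exp (9 / 2 * u - a * Real.exp (2 * u)) -
    12 * a * Real.exp (5 / 2 * u - a * Real.exp (2 * u)) := by
  unfold ff
  rw [Real.exp_sub, Real.exp_sub, Real.exp_neg]
  ring

theorem integrableOn_cos_ff (z : ℂ) {a : ℝ} (ha : 0 < a) :
    IntegrableOn (fun u : ℝ => Complex.cos (z * u) * ((ff a u : ℝ) : ℂ)) (Ioi 0) := by
  have h1 := ((integrableOn_cos z ha (9 / 2)).const_mul (8 * a ^ 2 : ℂ)).sub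
    ((integrableOn_cos z ha (5 / 2)).const_mul (12 * a : ℂ))
  refine h1.congr ?_
  refine Eventually.of_forall fun u => ?_
  simp only [Pi.sub_apply]
  rw [ff_eq_sub]
  push_cast
  ring

theorem Phi_eq {n : ℕ} (hn : n ≠ 0) (z : ℂ) :
    Phi n z = ∫ u in Ioi (0 : ℝ), Complex.cos (z * u) * ((ff (Real.pi * n ^ 2) u : ℝ) : ℂ) := by
  have ha : 0 < Real.pi * (n : ℝ) ^ 2 := by positivity
  set a := Real.pi * (n : ℝ) ^ 2 with hadef
  have e1 : ∀ b : ℝ, Gfun (z / 2) a (b / 2) = 4 * ∫ u in Ioi (0 : ℝ), Complex.cos (z * u) *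
      ((Real.exp (b * u - a * Real.exp (2 * u)) : ℝ) : ℂ) := by
    intro b
    unfold Gfun
    congr 1
    refine integral_congr_ae (Eventually.of_forall fun u => ?_)
    simp only
    have h1 : 2 * (z / 2) * (u : ℂ) = z * u := by ring
    have h2 : 2 * (b / 2) * u = b * u := by ring
    rw [h1, h2]
  have e2 := e1 (9 / 2)
  have e3 := e1 (5 / 2)
  have h94 : (9 / 2 / 2 : ℝ) = 9 / 4 := by norm_num
  have h54 : (5 / 2 / 2 : ℝ) = 5 / 4 := by norm_num
  rw [h94] at e2
  rw [h54] at e3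
  unfold Phi
  rw [← hadef, e2, e3]
  have h1 : ∫ u in Ioi (0 : ℝ), Complex.cos (z * u) * ((ff a u : ℝ) : ℂ) =
      (8 * a ^ 2 : ℂ) * (∫ u in Ioi (0 : ℝ), Complex.cos (z * u) *
        ((Real.exp (9 / 2 * u - a * Real.exp (2 * u)) : ℝ) : ℂ)) -
      (12 * a : ℂ) * (∫ u in Ioi (0 : ℝ), Complex.cos (z * u) *
        ((Real.exp (5 / 2 * u - a * Real.exp (2 * u)) : ℝ) : ℂ)) := by
    rw [← integral_const_mul, ← integral_const_mul, ← integral_sub
      ((integrableOn_cos z ha (9 / 2)).const_mul (8 * a ^ 2 : ℂ))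
      ((integrableOn_cos z ha (5 / 2)).const_mul (12 * a : ℂ))]
    refine integral_congr_ae (Eventually.of_forall fun u => ?_)
    simp only
    rw [ff_eq_sub]
    push_cast
    ring
  rw [h1]
  push_cast
  ring

theorem ff_coe (a u : ℝ) : ((ff a u : ℝ) : ℂ) =
    8 * (a : ℂ) ^ 2 * Complex.exp ((9 / 2 * u - a * Real.exp (2 * u) : ℝ) : ℂ) -
    12 * (a : ℂ) * Complex.exp ((5 / 2 * u - a * Real.exp (2 * u) : ℝ) : ℂ) := by
  rw [ff_eq_sub, ← Complex.ofReal_exp, ← Complex.ofReal_exp]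
  push_cast
  ring

theorem twosided_integrand (z : ℂ) (a u : ℝ) :
    Complex.exp (-(I * z * u)) * ((ff a u : ℝ) : ℂ) =
    8 * (a : ℂ) ^ 2 * Complex.exp ((sv z + 4) * u - a * Real.exp (2 * u)) -
    12 * (a : ℂ) * Complex.exp ((sv z + 2) * u - a * Real.exp (2 * u)) := by
  rw [ff_coe]
  have e1 : Complex.exp ((sv z + 4) * u - a * Real.exp (2 * u)) = Complex.exp (-(I * z * u)) *
      Complex.exp ((9 / 2 * u - a * Real.exp (2 * u) : ℝ) : ℂ) := by
    rw [← Complex.exp_add]; congr 1; unfold sv; push_cast; ring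
  have e2 : Complex.exp ((sv z + 2) * u - a * Real.exp (2 * u)) = Complex.exp (-(I * z * u)) *
      Complex.exp ((5 / 2 * u - a * Real.exp (2 * u) : ℝ) : ℂ) := by
    rw [← Complex.exp_add]; congr 1; unfold sv; push_cast; ring
  rw [e1, e2]
  ring

/-- integrability on the whole line -/
theorem integrable_twosided {z : ℂ} (hz : -(1 / 2) < z.im) {a : ℝ} (ha : 0 < a) :
    Integrable (fun u : ℝ => Complex.exp (-(I * z * u)) * ((ff a u : ℝ) : ℂ)) := by
  have h1 := ((exp_int (c := sv z + 4) (a := a) (by simp [sv_re]; linarith) ha).1.const_mul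
    (8 * a ^ 2 : ℂ)).sub ((exp_int (c := sv z + 2) (a := a) (by simp [sv_re]; linarith) ha).1.const_mul
    (12 * a : ℂ))
  refine h1.congr ?_
  refine Eventually.of_forall fun u => ?_
  simp only [Pi.sub_apply]
  rw [twosided_integrand]

theorem twosided {z : ℂ} (hz : -(1 / 2) < z.im) {a : ℝ} (ha : 0 < a) :
    ∫ u : ℝ, Complex.exp (-(I * z * u)) * ((ff a u : ℝ) : ℂ) =
      sv z * (sv z - 1) * (a : ℂ) ^ (-(sv z / 2)) * Complex.Gamma (sv z / 2) := by
  have i1 := exp_int (c := sv z + 4) (a := a) (by simp [sv_re]; linarith) ha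
  have i2 := exp_int (c := sv z + 2) (a := a) (by simp [sv_re]; linarith) ha
  have h1 : ∫ u : ℝ, Complex.exp (-(I * z * u)) * ((ff a u : ℝ) : ℂ) =
      (8 * a ^ 2 : ℂ) * (∫ u : ℝ, Complex.exp ((sv z + 4) * u - a * Real.exp (2 * u))) -
      (12 * a : ℂ) * (∫ u : ℝ, Complex.exp ((sv z + 2) * u - a * Real.exp (2 * u))) := by
    rw [← integral_const_mul, ← integral_const_mul, ← integral_sub
      (i1.1.const_mul (8 * a ^ 2 : ℂ)) (i2.1.const_mul (12 * a : ℂ))]
    refine integral_congr_ae (Eventually.of_forall fun u => ?_)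
    simp only
    rw [twosided_integrand]
  rw [h1, i1.2, i2.2]
  have ha' : (a : ℂ) ≠ 0 := by exact_mod_cast ha.ne'
  have hs : sv z / 2 ≠ 0 := by
    intro e
    have := congrArg Complex.re e
    rw [Complex.div_ofNat_re, sv_re, zero_re] at this
    linarith
  have hs1 : sv z / 2 + 1 ≠ 0 := by
    intro e
    have := congrArg Complex.re e
    rw [add_re, Complex.div_ofNat_re, sv_re, zero_re, one_re] at this
    linarith
  have g1 : Complex.Gamma ((sv z + 2) / 2) = sv z / 2 * Complex.Gamma (sv z / 2) := by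
    rw [← Complex.Gamma_add_one _ hs]; congr 1; ring
  have g2 : Complex.Gamma ((sv z + 4) / 2) = (sv z / 2 + 1) * (sv z / 2 * Complex.Gamma (sv z / 2)) := by
    have e1 : (sv z + 4) / 2 = (sv z / 2 + 1) + 1 := by ring
    rw [e1, Complex.Gamma_add_one _ hs1, Complex.Gamma_add_one _ hs]
  have c1 : (a : ℂ) ^ (-((sv z + 4) / 2)) = (a : ℂ) ^ (-(sv z / 2)) * ((a : ℂ) ^ 2)⁻¹ := by
    have e1 : -((sv z + 4) / 2) = -(sv z / 2) - (2 : ℕ) := by push_cast; ring
    rw [e1, Complex.cpow_sub _ _ ha', Complex.cpow_natCast, div_eq_mul_inv]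
  have c2 : (a : ℂ) ^ (-((sv z + 2) / 2)) = (a : ℂ) ^ (-(sv z / 2)) * (a : ℂ)⁻¹ := by
    have e1 : -((sv z + 2) / 2) = -(sv z / 2) - 1 := by ring
    rw [e1, Complex.cpow_sub _ _ ha', Complex.cpow_one, div_eq_mul_inv]
  rw [g1, g2, c1, c2]
  field_simp
  ring

end Pool.Agent.Lib.MP_13bed0_nt
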