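import Pool.Agent.Lib.MP_13bed0_nt.Identity

/-!
# Asymptotics of the tail `∑_{n > N} Φ_n(z)`
-/

set_option autoImplicit false

open Complex Filter Topology MeasureTheory Set

namespace Pool.Agent.Lib.MP_13bed0_nt

/-- The tail. -/
noncomputable def TT (N : ℕ) (z : ℂ) : ℂ := ∑' k : ℕ, Phi (k + N + 1) z

theorem summable_Phi {z : ℂ} (hz : 1 / 2 < z.im) (N : ℕ) :
    Summable fun k : ℕ => Phi (k + N + 1) z :=
  (summable_nat_add_iff N).2 (hasSum_Phi hz).summable

theorem XiTrunc_add_TT {z : ℂ} (hz : 1 / 2 < z.im) (N : ℕ) :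
    XiTrunc N z + TT N z = PF z * riemannZeta (sv z) := by
  have h := (hasSum_Phi hz).summable.sum_add_tsum_nat_add N
  rw [(hasSum_Phi hz).tsum_eq] at h
  rw [← h]
  unfold XiTrunc TT
  congr 1
  rw [Finset.range_eq_Ico, Finset.sum_Ico_add' (fun n => Phi n z) 0 N 1]
  rfl

theorem norm_cos_le {z : ℂ} {u : ℝ} (hu : 0 ≤ u) {B : ℝ} (hB : |z.im| ≤ B) :
    ‖Complex.cos (z * u)‖ ≤ Real.exp (B * u) := by
  rw [Complex.cos]
  have h1 : ‖Complex.exp (z * u * I)‖ ≤ Real.exp (B * u) := by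
    rw [Complex.norm_exp]
    apply Real.exp_le_exp.2
    have e : (z * u * I).re = -(z.im * u) := by simp
    rw [e]
    have := (abs_le.1 hB).1
    nlinarith
  have h2 : ‖Complex.exp (-(z * u) * I)‖ ≤ Real.exp (B * u) := by
    rw [Complex.norm_exp]
    apply Real.exp_le_exp.2
    have e : (-(z * u) * I).re = z.im * u := by simp
    rw [e]
    have := (abs_le.1 hB).2
    nlinarith
  rw [norm_div, Complex.norm_ofNat]
  have h3 := norm_add_le (Complex.exp (z * u * I)) (Complex.exp (-(z * u) * I))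
  linarith

theorem ff_nonneg_le {a u : ℝ} (ha : 3 / 2 ≤ a) (hu : 0 ≤ u) :
    0 ≤ ff a u ∧ ff a u ≤ 8 * a ^ 2 * Real.exp (9 / 2 * u - a * Real.exp (2 * u)) := by
  rw [ff_eq_sub]
  constructor
  · have e1 : Real.exp (9 / 2 * u - a * Real.exp (2 * u)) =
        Real.exp (2 * u) * Real.exp (5 / 2 * u - a * Real.exp (2 * u)) := by
      rw [← Real.exp_add]; congr 1; ring
    rw [e1]
    have h1 : 1 ≤ Real.exp (2 * u) := Real.one_le_exp (by linarith)
    have h2 : 12 * a ≤ 8 * a ^ 2 * Real.exp (2 * u) := by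
      have : 12 * a ≤ 8 * a ^ 2 := by nlinarith
      have h3 : 8 * a ^ 2 * 1 ≤ 8 * a ^ 2 * Real.exp (2 * u) :=
        mul_le_mul_of_nonneg_left h1 (by positivity)
      linarith
    have := mul_le_mul_of_nonneg_right h2
      (Real.exp_pos (5 / 2 * u - a * Real.exp (2 * u))).le
    linarith
  · have : 0 ≤ 12 * a * Real.exp (5 / 2 * u - a * Real.exp (2 * u)) := by positivity
    linarith

theorem Phi_bound {n : ℕ} (hn : 2 ≤ n) {z : ℂ} (hz : |z.im| ≤ 2) :
    ‖Phi n z‖ ≤ 8 * (Real.pi * n ^ 2) * Real.exp (-(Real.pi * n ^ 2)) := by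
  have hn' : (2 : ℝ) ≤ n := by exact_mod_cast hn
  have hpi := Real.pi_gt_three
  set a := Real.pi * (n : ℝ) ^ 2 with hadef
  have ha : 13 / 2 ≤ a := by rw [hadef]; nlinarith
  have ha0 : 0 < a := by linarith
  rw [Phi_eq (by omega)]
  have hb : ∀ u ∈ Ioi (0 : ℝ), ‖Complex.cos (z * u) * ((ff a u : ℝ) : ℂ)‖ ≤
      8 * a ^ 2 * Real.exp (-a) * Real.exp ((-a) * u) := by
    intro u hu
    have hu' : (0 : ℝ) < u := hu
    obtain ⟨f1, f2⟩ := ff_nonneg_le (a := a) (by linarith) hu'.le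
    rw [norm_mul, Complex.norm_real, Real.norm_eq_abs, abs_of_nonneg f1]
    refine (mul_le_mul (norm_cos_le hu'.le hz) f2 f1 (Real.exp_pos _).le).trans ?_
    have h3 : 1 + 2 * u ≤ Real.exp (2 * u) := by
      have := Real.add_one_le_exp (2 * u); linarith
    have h4 : Real.exp (2 * u) * (8 * a ^ 2 * Real.exp (9 / 2 * u - a * Real.exp (2 * u))) =
        8 * a ^ 2 * Real.exp (2 * u + (9 / 2 * u - a * Real.exp (2 * u))) := by
      rw [Real.exp_add]; ring
    rw [h4, mul_assoc (8 * a ^ 2) (Real.exp (-a)), ← Real.exp_add]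
    apply mul_le_mul_of_nonneg_left _ (by positivity)
    apply Real.exp_le_exp.2
    nlinarith
  have hint : IntegrableOn (fun u : ℝ => 8 * a ^ 2 * Real.exp (-a) * Real.exp ((-a) * u)) (Ioi 0) :=
    (integrableOn_exp_mul_Ioi (by linarith) 0).const_mul _
  refine (norm_integral_le_of_norm_le hint
    ((ae_restrict_iff' measurableSet_Ioi).2 (Eventually.of_forall hb))).trans ?_
  rw [integral_const_mul, integral_exp_mul_Ioi (by linarith)]
  rw [mul_zero, Real.exp_zero]
  apply le_of_eq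
  field_simp

end Pool.Agent.Lib.MP_13bed0_nt
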