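import Pool.Agent.Lib.MP_13bed0_nt.Tail

/-!
# Limit of the normalised tail
-/

set_option autoImplicit false

open Complex Filter Topology MeasureTheory Set

namespace Pool.Agent.Lib.MP_13bed0_nt

/-- The limiting constant. -/
noncomputable def kap (c : ℝ) : ℂ := ∫ v in Ioi (0 : ℝ), Complex.cos (c * v) * (8 * Real.exp (-2 * v) : ℝ)

theorem kap_eq (c : ℝ) : kap c = ((16 / (4 + c ^ 2) : ℝ) : ℂ) := by
  have h1 : ∀ e : ℝ, ∫ v in Ioi (0 : ℝ), Complex.exp ((-2 + e * I) * v) = -1 / (-2 + e * I) := by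
    intro e
    rw [integral_exp_mul_complex_Ioi (by simp)]
    simp
  have i1 : ∀ e : ℝ, IntegrableOn (fun v : ℝ => Complex.exp ((-2 + e * I) * v)) (Ioi 0) := fun e =>
    integrableOn_exp_mul_complex_Ioi (by simp) 0
  have h2 : kap c = 4 * ((∫ v in Ioi (0 : ℝ), Complex.exp ((-2 + c * I) * v)) +
      ∫ v in Ioi (0 : ℝ), Complex.exp ((-2 + (-c : ℝ) * I) * v)) := by
    unfold kap
    rw [← integral_add (i1 c) (i1 (-c)), ← integral_const_mul]
    refine integral_congr_ae (Eventually.of_forall fun v => ?_)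
    simp only
    rw [Complex.cos]
    have e1 : Complex.exp ((-2 + c * I) * v) = Complex.exp (c * v * I) * Complex.exp (-2 * v) := by
      rw [← Complex.exp_add]; congr 1; ring
    have e2 : Complex.exp ((-2 + (-c : ℝ) * I) * v) =
        Complex.exp (-(c * v) * I) * Complex.exp (-2 * v) := by
      rw [← Complex.exp_add]; congr 1; push_cast; ring
    rw [e1, e2]
    push_cast
    ring
  rw [h2, h1, h1]
  have n1 : (-2 + (c : ℂ) * I) ≠ 0 := by
    intro e; have := congrArg Complex.re e; simp at this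
  have n2 : (-2 + ((-c : ℝ) : ℂ) * I) ≠ 0 := by
    intro e; have := congrArg Complex.re e; simp at this
  have n3 : ((4 + c ^ 2 : ℝ) : ℂ) ≠ 0 := by
    have : (4 + c ^ 2 : ℝ) ≠ 0 := by positivity
    exact_mod_cast this
  have key : (-2 + (c : ℂ) * I) * (-2 + ((-c : ℝ) : ℂ) * I) = ((4 + c ^ 2 : ℝ) : ℂ) := by
    push_cast
    linear_combination (-(c : ℂ) ^ 2) * Complex.I_sq
  rw [div_add_div _ _ n1 n2, key, Complex.ofReal_div, mul_div_assoc']
  congr 1
  push_cast
  ring

theorem kap_ne_zero (c : ℝ) : kap c ≠ 0 := by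
  rw [kap_eq]
  have : (16 / (4 + c ^ 2) : ℝ) ≠ 0 := by positivity
  exact_mod_cast this

theorem an_tendsto : Tendsto an atTop atTop := by
  unfold an
  have h1 : Tendsto (fun n : ℕ => (n : ℝ) + 1) atTop atTop :=
    tendsto_atTop_add_const_right _ _ tendsto_natCast_atTop_atTop
  exact ((tendsto_pow_atTop (two_ne_zero)).comp h1).const_mul_atTop Real.pi_pos

theorem Phi_scaled (N : ℕ) (z : ℂ) :
    ((Real.exp (an N) / an N : ℝ) : ℂ) * Phi (N + 1) z =
      ∫ v in Ioi (0 : ℝ), Complex.cos (z / an N * v) *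
        ((Real.exp (an N) * ff (an N) (v / an N) / an N ^ 2 : ℝ) : ℂ) := by
  have ha := an_pos N
  have e : Real.pi * ((N + 1 : ℕ) : ℝ) ^ 2 = an N := by unfold an; push_cast; rfl
  rw [Phi_eq (Nat.succ_ne_zero N), e]
  have h1 := integral_comp_mul_left_Ioi (fun u : ℝ => Complex.cos (z * u) * ((ff (an N) u : ℝ) : ℂ)) 0
    (inv_pos.2 ha)
  rw [mul_zero, inv_inv] at h1
  have ha' : (an N : ℂ) ≠ 0 := by exact_mod_cast ha.ne'
  have h2 : ∫ u in Ioi (0 : ℝ), Complex.cos (z * u) * ((ff (an N) u : ℝ) : ℂ) =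
      (an N : ℂ)⁻¹ * ∫ x in Ioi (0 : ℝ), Complex.cos (z * ((an N)⁻¹ * x : ℝ)) *
        ((ff (an N) ((an N)⁻¹ * x) : ℝ) : ℂ) := by
    rw [h1, Complex.real_smul]
    field_simp
  rw [h2, ← integral_const_mul, ← integral_const_mul]
  refine integral_congr_ae (Eventually.of_forall fun v => ?_)
  simp only
  have e1 : z * (((an N)⁻¹ * v : ℝ) : ℂ) = z / an N * v := by push_cast; field_simp
  have e2 : (an N)⁻¹ * v = v / an N := by field_simp
  rw [e1, e2]
  push_cast
  field_simp

theorem scaled_ff (a v : ℝ) (ha : 0 < a) :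
    Real.exp a * ff a (v / a) / a ^ 2 =
      (8 * Real.exp (9 / 2 * (v / a)) - 12 / a * Real.exp (5 / 2 * (v / a))) *
        Real.exp (-(a * (Real.exp (2 * (v / a)) - 1))) := by
  unfold ff
  have e1 : Real.exp (-(a * (Real.exp (2 * (v / a)) - 1))) =
      Real.exp a * Real.exp (-(a * Real.exp (2 * (v / a)))) := by
    rw [← Real.exp_add]; congr 1; ring
  rw [e1]
  field_simp

theorem tendsto_exp_sub_one {v : ℝ} :
    Tendsto (fun a : ℝ => a * (Real.exp (2 * (v / a)) - 1)) atTop (𝓝 (2 * v)) := by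
  have h1 : HasDerivAt (fun t : ℝ => Real.exp (2 * v * t)) (2 * v) 0 := by
    have h2 : HasDerivAt (fun t : ℝ => 2 * v * t) (2 * v) 0 := by
      simpa using (hasDerivAt_id (0 : ℝ)).const_mul (2 * v)
    simpa using h2.exp
  have h3 := hasDerivAt_iff_tendsto_slope_zero.1 h1
  have h4 : Tendsto (fun a : ℝ => a⁻¹) atTop (𝓝[≠] 0) := by
    refine tendsto_nhdsWithin_iff.2 ⟨tendsto_inv_atTop_zero, ?_⟩
    filter_upwards [eventually_gt_atTop 0] with a ha
    exact (inv_ne_zero ha.ne')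
  have h5 := h3.comp h4
  refine h5.congr' ?_
  filter_upwards [eventually_gt_atTop 0] with a ha
  simp only [Function.comp, zero_add, mul_zero, Real.exp_zero, inv_inv, smul_eq_mul]
  congr 3
  field_simp

theorem scaled_pointwise {v : ℝ} :
    Tendsto (fun a : ℝ => Real.exp a * ff a (v / a) / a ^ 2) atTop (𝓝 (8 * Real.exp (-2 * v))) := by
  have h0 : ∀ c : ℝ, Tendsto (fun a : ℝ => Real.exp (c * (v / a))) atTop (𝓝 1) := by
    intro c
    have h1 : Tendsto (fun a : ℝ => c * (v / a)) atTop (𝓝 (c * 0)) :=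
      (tendsto_id.const_div_atTop v).const_mul c
    rw [mul_zero] at h1
    have := (Real.continuous_exp.tendsto 0).comp h1
    rwa [Real.exp_zero] at this
  have h1 : Tendsto (fun a : ℝ => 12 / a) atTop (𝓝 0) := tendsto_id.const_div_atTop 12
  have h2 := (((h0 (9 / 2)).const_mul 8).sub (h1.mul (h0 (5 / 2)))).mul
    ((Real.continuous_exp.tendsto _).comp (tendsto_exp_sub_one (v := v)).neg)
  have e : (8 * 1 - 0 * 1) * Real.exp (-(2 * v)) = 8 * Real.exp (-2 * v) := by
    rw [neg_mul]; ring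
  rw [e] at h2
  refine h2.congr' ?_
  filter_upwards [eventually_gt_atTop 0] with a ha
  rw [scaled_ff a v ha]
  rfl

theorem scaled_bound {a v : ℝ} (ha : 9 ≤ a) (hv : 0 < v) {z : ℂ} (hz : |z.im| ≤ 2) :
    ‖Complex.cos (z / a * v) * ((Real.exp a * ff a (v / a) / a ^ 2 : ℝ) : ℂ)‖ ≤
      8 * Real.exp (-1 * v) := by
  have ha0 : 0 < a := by linarith
  have hva : 0 < v / a := by positivity
  obtain ⟨f1, f2⟩ := ff_nonneg_le (a := a) (by linarith) hva.le
  have e1 : z / (a : ℂ) * (v : ℂ) = z * ((v / a : ℝ) : ℂ) := by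
    push_cast; ring
  rw [e1, norm_mul, Complex.norm_real, Real.norm_eq_abs, abs_of_nonneg (by positivity)]
  have h1 := norm_cos_le hva.le hz
  have h2 : Real.exp a * ff a (v / a) / a ^ 2 ≤ 8 * Real.exp (9 / 2 * (v / a) - 2 * v) := by
    rw [div_le_iff₀ (by positivity)]
    calc Real.exp a * ff a (v / a) ≤ Real.exp a * (8 * a ^ 2 *
          Real.exp (9 / 2 * (v / a) - a * Real.exp (2 * (v / a)))) :=
          mul_le_mul_of_nonneg_left f2 (Real.exp_pos _).le
      _ = 8 * Real.exp (a + (9 / 2 * (v / a) - a * Real.exp (2 * (v / a)))) * a ^ 2 := by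
          rw [Real.exp_add]; ring
      _ ≤ 8 * Real.exp (9 / 2 * (v / a) - 2 * v) * a ^ 2 := by
          apply mul_le_mul_of_nonneg_right _ (by positivity)
          apply mul_le_mul_of_nonneg_left _ (by norm_num)
          apply Real.exp_le_exp.2
          have h3 : 1 + 2 * (v / a) ≤ Real.exp (2 * (v / a)) := by
            have := Real.add_one_le_exp (2 * (v / a)); linarith
          have h4 := mul_le_mul_of_nonneg_left h3 ha0.le
          have h5 : a * (1 + 2 * (v / a)) = a + 2 * v := by field_simp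
          linarith
  calc ‖Complex.cos (z * ((v / a : ℝ) : ℂ))‖ * (Real.exp a * ff a (v / a) / a ^ 2)
      ≤ Real.exp (2 * (v / a)) * (8 * Real.exp (9 / 2 * (v / a) - 2 * v)) :=
        mul_le_mul h1 h2 (by positivity) (Real.exp_pos _).le
    _ = 8 * Real.exp (2 * (v / a) + (9 / 2 * (v / a) - 2 * v)) := by
        rw [Real.exp_add (2 * (v / a))]; ring
    _ ≤ 8 * Real.exp (-1 * v) := by
        apply mul_le_mul_of_nonneg_left _ (by norm_num)
        apply Real.exp_le_exp.2
        have h6 : v / a ≤ v / 9 := by gcongr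
        linarith

theorem head_lim {z : ℕ → ℂ} {c : ℝ} (hz : Tendsto (fun N => z N / an N) atTop (𝓝 (c : ℂ)))
    (hy : ∀ N, |(z N).im| ≤ 2) :
    Tendsto (fun N => ((Real.exp (an N) / an N : ℝ) : ℂ) * Phi (N + 1) (z N)) atTop (𝓝 (kap c)) := by
  simp_rw [Phi_scaled]
  unfold kap
  refine tendsto_integral_filter_of_dominated_convergence (fun v => 8 * Real.exp (-1 * v)) ?_ ?_ ?_ ?_
  · refine Eventually.of_forall fun N => ?_
    apply Continuous.aestronglyMeasurable
    unfold ff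
    fun_prop
  · filter_upwards [an_tendsto.eventually_ge_atTop 9] with N hN
    refine (ae_restrict_iff' measurableSet_Ioi).2 (Eventually.of_forall fun v hv => ?_)
    exact scaled_bound hN hv (hy N)
  · exact (integrableOn_exp_mul_Ioi (by norm_num) 0).const_mul 8
  · refine Eventually.of_forall fun v => ?_
    have h1 : Tendsto (fun N => z N / an N * (v : ℂ)) atTop (𝓝 (c * v)) := hz.mul_const _
    have h2 := (Complex.continuous_cos.tendsto _).comp h1
    have h3 := (Complex.continuous_ofReal.tendsto _).comp ((scaled_pointwise (v := v)).comp an_tendsto)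
    exact h2.mul h3

theorem rest_bound {N : ℕ} (k : ℕ) {z : ℂ} (hz : |z.im| ≤ 2) :
    (Real.exp (an N) / an N) * ‖Phi (k + 1 + N + 1) z‖ ≤
      8 * (((k : ℝ) + 2) ^ 2 * Real.exp (-(k : ℝ))) * Real.exp (-(N : ℝ)) := by
  have h1 := Phi_bound (n := k + 1 + N + 1) (by omega) hz
  have ha := an_pos N
  have hN : (0 : ℝ) ≤ N := by positivity
  have hk : (0 : ℝ) ≤ k := by positivity
  calc (Real.exp (an N) / an N) * ‖Phi (k + 1 + N + 1) z‖
      ≤ (Real.exp (an N) / an N) * (8 * (Real.pi * ((k + 1 + N + 1 : ℕ) : ℝ) ^ 2) *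
        Real.exp (-(Real.pi * ((k + 1 + N + 1 : ℕ) : ℝ) ^ 2))) :=
        mul_le_mul_of_nonneg_left h1 (by positivity)
    _ = 8 * ((Real.pi * ((k + 1 + N + 1 : ℕ) : ℝ) ^ 2) / an N) *
        Real.exp (an N - (Real.pi * ((k + 1 + N + 1 : ℕ) : ℝ) ^ 2)) := by
        rw [Real.exp_sub, Real.exp_neg]; field_simp
    _ ≤ 8 * ((k : ℝ) + 2) ^ 2 * Real.exp (-(k : ℝ) + -(N : ℝ)) := by
        apply mul_le_mul _ _ (Real.exp_pos _).le (by positivity)
        · apply mul_le_mul_of_nonneg_left _ (by norm_num)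
          rw [div_le_iff₀ ha]
          unfold an
          push_cast
          have h2 : ((k : ℝ) + 1 + N + 1) ≤ (k + 2) * (N + 1) := by nlinarith
          have h3 : ((k : ℝ) + 1 + N + 1) ^ 2 ≤ ((k + 2) * (N + 1)) ^ 2 :=
            pow_le_pow_left₀ (by positivity) h2 2
          have := mul_le_mul_of_nonneg_left h3 Real.pi_pos.le
          linarith [mul_pow ((k : ℝ) + 2) ((N : ℝ) + 1) 2]
        · apply Real.exp_le_exp.2
          unfold an
          push_cast
          have hpi := Real.pi_gt_three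
          have h2 : ((N : ℝ) + 1) ^ 2 - ((k : ℝ) + 1 + N + 1) ^ 2 ≤ -(k + N) := by nlinarith
          have h3 : (0 : ℝ) ≤ k + N := by positivity
          nlinarith
    _ = _ := by rw [Real.exp_add]; ring

theorem summable_rest : Summable fun k : ℕ => ((k : ℝ) + 2) ^ 2 * Real.exp (-(k : ℝ)) := by
  have h1 : ∀ m : ℕ, Summable fun k : ℕ => (k : ℝ) ^ m * Real.exp (-(k : ℝ)) := by
    intro m
    have := Real.summable_pow_mul_exp_neg_nat_mul m (r := 1) one_pos
    simpa using this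
  have h2 := (((h1 2).add ((h1 1).mul_left 4)).add ((h1 0).mul_left 4))
  refine h2.congr fun k => ?_
  ring

theorem tail_lim {z : ℕ → ℂ} {c : ℝ} (hz : Tendsto (fun N => z N / an N) atTop (𝓝 (c : ℂ)))
    (hy : ∀ N, 1 / 2 < (z N).im) (hy2 : ∀ N, (z N).im ≤ 2) :
    Tendsto (fun N => ((Real.exp (an N) / an N : ℝ) : ℂ) * TT N (z N)) atTop (𝓝 (kap c)) := by
  have hy' : ∀ N, |(z N).im| ≤ 2 := fun N => by
    rw [abs_of_pos (by linarith [hy N])]; exact hy2 N
  have h1 := head_lim hz hy'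
  set S := ∑' k : ℕ, ((k : ℝ) + 2) ^ 2 * Real.exp (-(k : ℝ)) with hS
  have h2 : Tendsto (fun N => ((Real.exp (an N) / an N : ℝ) : ℂ) *
      ∑' k : ℕ, Phi (k + 1 + N + 1) (z N)) atTop (𝓝 0) := by
    refine squeeze_zero_norm (a := fun N : ℕ => 8 * S * Real.exp (-(N : ℝ))) ?_ ?_
    · intro N
      have hsum := (summable_Phi (hy N) N)
      have hsum1 : Summable fun k : ℕ => Phi (k + 1 + N + 1) (z N) :=
        (summable_nat_add_iff 1).2 hsum
      rw [← tsum_mul_left]
      have hb : ∀ k : ℕ, ‖((Real.exp (an N) / an N : ℝ) : ℂ) * Phi (k + 1 + N + 1) (z N)‖ ≤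
          8 * (((k : ℝ) + 2) ^ 2 * Real.exp (-(k : ℝ))) * Real.exp (-(N : ℝ)) := by
        intro k
        rw [norm_mul, Complex.norm_real, Real.norm_eq_abs,
          abs_of_pos (div_pos (Real.exp_pos _) (an_pos N))]
        exact rest_bound k (hy' N)
      have hs2 : HasSum (fun k : ℕ => 8 * (((k : ℝ) + 2) ^ 2 * Real.exp (-(k : ℝ))) *
          Real.exp (-(N : ℝ))) (8 * S * Real.exp (-(N : ℝ))) :=
        (summable_rest.hasSum.mul_left 8).mul_right _
      exact tsum_of_norm_bounded hs2 hb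
    · have h3 : Tendsto (fun N : ℕ => Real.exp (-(N : ℝ))) atTop (𝓝 0) :=
        Real.tendsto_exp_neg_atTop_nhds_zero.comp tendsto_natCast_atTop_atTop
      simpa using h3.const_mul (8 * S)
  have h3 := h1.add h2
  rw [add_zero] at h3
  refine h3.congr fun N => ?_
  unfold TT
  rw [(summable_Phi (hy N) N).tsum_eq_zero_add, ← mul_add, zero_add]

end Pool.Agent.Lib.MP_13bed0_nt
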