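import Pool.Agent.Lib.MP_13bed0_nt.Asym

/-!
# Zeros of the truncations near `x + i y0`
-/

set_option autoImplicit false

open Complex Filter Topology MeasureTheory Set

namespace Pool.Agent.Lib.MP_13bed0_nt

variable {k0 R y0 : ℝ} {x : ℕ → ℝ}

/-- `c1 = √(1/2) / |κ|`. -/
noncomputable def c1 : ℝ := Real.sqrt (1 / 2) / ‖kap (4 / Real.pi)‖

theorem c1_pos : 0 < c1 := by
  unfold c1
  have := kap_ne_zero (4 / Real.pi)
  positivity

theorem TT_lim (hx : ∀ N, |x N - xs k0 N| ≤ R) {g : ℕ → ℂ} {G : ℝ}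
    (hg : ∀ᶠ N in atTop, ‖g N‖ ≤ G)
    (hev : ∀ᶠ N in atTop, 1 / 2 < (g N).im ∧ (g N).im ≤ 2) :
    Tendsto (fun N => ((Real.exp (an N) / an N : ℝ) : ℂ) * TT N (x N + g N)) atTop
      (𝓝 (kap (4 / Real.pi))) := by
  refine tail_lim_ev (z_div_an hx hg) ?_
  filter_upwards [hev] with N hN
  simpa using hN

theorem scale_pos (N : ℕ) : 0 < Real.exp (an N) / an N := div_pos (Real.exp_pos _) (an_pos N)

theorem TT_ne_zero (hx : ∀ N, |x N - xs k0 N| ≤ R) {g : ℕ → ℂ} {G : ℝ}
    (hg : ∀ᶠ N in atTop, ‖g N‖ ≤ G)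
    (hev : ∀ᶠ N in atTop, 1 / 2 < (g N).im ∧ (g N).im ≤ 2) :
    ∀ᶠ N in atTop, TT N (x N + g N) ≠ 0 := by
  filter_upwards [(TT_lim hx hg hev).eventually_ne (kap_ne_zero _)] with N hN h0
  rw [h0, mul_zero] at hN
  exact hN rfl

theorem const_g (hy0 : 1 / 2 < y0) (hy1 : y0 < 1) :
    (∀ᶠ _N : ℕ in atTop, ‖(y0 : ℂ) * I‖ ≤ 1) ∧
    (∀ᶠ _N : ℕ in atTop, 1 / 2 < ((y0 : ℂ) * I).im ∧ ((y0 : ℂ) * I).im ≤ 2) := by
  constructor
  · refine Eventually.of_forall fun _ => ?_
    rw [norm_mul, norm_I, mul_one, Complex.norm_real, Real.norm_eq_abs, abs_of_pos (by linarith)]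
    exact hy1.le
  · refine Eventually.of_forall fun _ => ?_
    simp only [mul_im, ofReal_re, I_im, mul_one, ofReal_im, I_re, mul_zero, add_zero]
    exact ⟨hy0, by linarith⟩

theorem ratio_lim (hy0 : 1 / 2 < y0) (hy1 : y0 < 1) (hk : k0 = y0 - 1 / 2)
    (hx : ∀ N, |x N - xs k0 N| ≤ R) :
    Tendsto (fun N => ‖PF (x N + y0 * I)‖ / ‖TT N (x N + y0 * I)‖ *
      Real.exp (Real.pi * (x N - xs k0 N) / 4)) atTop (𝓝 c1) := by
  have h1 := PF_modulus hy0.le hk hx
  obtain ⟨g1, g2⟩ := const_g hy0 hy1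
  have h2 := (TT_lim hx g1 g2).norm
  have h3 := h1.div h2 (norm_ne_zero_iff.2 (kap_ne_zero _))
  refine h3.congr' ?_
  filter_upwards [TT_ne_zero hx g1 g2] with N hN
  simp only [Pi.div_apply]
  rw [norm_mul, Complex.norm_real, Real.norm_eq_abs, abs_of_pos (scale_pos N)]
  have n1 := (scale_pos N).ne'
  have n2 : ‖TT N (x N + y0 * I)‖ ≠ 0 := norm_ne_zero_iff.2 hN
  generalize Real.exp (an N) / an N = E at *
  field_simp

/-- The normalised main term. -/
noncomputable def WW (y0 : ℝ) (x : ℕ → ℝ) (N : ℕ) : ℂ :=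
  PF (x N + y0 * I) * riemannZeta (sv (x N + y0 * I)) / TT N (x N + y0 * I)

theorem sv_re' (x y0 : ℝ) : (sv (x + y0 * I)).re = 1 / 2 + y0 := by
  rw [sv_re]; simp

theorem norm_WW_bounds (hy0 : 1 / 2 < y0) (hy1 : y0 < 1) (hk : k0 = y0 - 1 / 2)
    (hx : ∀ N, |x N - xs k0 N| ≤ R) :
    ∃ K1 : ℝ, ∀ᶠ N in atTop, WW y0 x N ≠ 0 ∧ |Real.log ‖WW y0 x N‖| ≤ K1 := by
  have h1 := ratio_lim hy0 hy1 hk hx
  have hc := c1_pos
  have hR : 0 ≤ R := (abs_nonneg _).trans (hx 0)
  have hσ : 1 < 1 / 2 + y0 := by linarith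
  have hZ := Zb_pos hσ
  set m := c1 / 2 * Real.exp (-(Real.pi * R / 4)) * (1 / Zb (1 / 2 + y0)) with hm
  set M := (c1 + 1) * Real.exp (Real.pi * R / 4) * Zb (1 / 2 + y0) with hM
  have hm0 : 0 < m := by rw [hm]; positivity
  have hM0 : 0 < M := by rw [hM]; positivity
  refine ⟨max |Real.log m| |Real.log M|, ?_⟩
  filter_upwards [h1.eventually_const_le (show c1 / 2 < c1 by linarith),
    h1.eventually_le_const (show c1 < c1 + 1 by linarith)] with N hN1 hN2
  have hb := abs_le.1 (hx N)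
  set r := ‖PF (x N + y0 * I)‖ / ‖TT N (x N + y0 * I)‖ with hr
  have hr0 : 0 ≤ r := by rw [hr]; positivity
  set e := Real.exp (Real.pi * (x N - xs k0 N) / 4) with he
  have he0 : 0 < e := Real.exp_pos _
  have hpi := Real.pi_pos
  have he1 : e ≤ Real.exp (Real.pi * R / 4) := by
    apply Real.exp_le_exp.2
    have := mul_le_mul_of_nonneg_left hb.2 hpi.le
    linarith
  have he2 : Real.exp (-(Real.pi * R / 4)) ≤ e := by
    apply Real.exp_le_exp.2
    have := mul_le_mul_of_nonneg_left hb.1 hpi.le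
    linarith
  have hrm : c1 / 2 * Real.exp (-(Real.pi * R / 4)) ≤ r := by
    have h3 : c1 / 2 ≤ r * Real.exp (Real.pi * R / 4) :=
      hN1.trans (mul_le_mul_of_nonneg_left he1 hr0)
    rw [Real.exp_neg, ← div_eq_mul_inv, div_le_iff₀ (Real.exp_pos _)]
    exact h3
  have hrM : r ≤ (c1 + 1) * Real.exp (Real.pi * R / 4) := by
    have h3 : r * Real.exp (-(Real.pi * R / 4)) ≤ c1 + 1 :=
      (mul_le_mul_of_nonneg_left he2 hr0).trans hN2
    rw [Real.exp_neg, ← div_eq_mul_inv, div_le_iff₀ (Real.exp_pos _)] at h3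
    exact h3
  have hz1 := norm_zeta_le hσ (s := sv (x N + y0 * I)) (by rw [sv_re'])
  have hz2 := norm_zeta_ge hσ (s := sv (x N + y0 * I)) (by rw [sv_re'])
  have hWn : ‖WW y0 x N‖ = r * ‖riemannZeta (sv (x N + y0 * I))‖ := by
    unfold WW
    rw [norm_div, norm_mul, hr]; ring
  have hW1 : m ≤ ‖WW y0 x N‖ := by
    rw [hWn, hm]
    exact mul_le_mul hrm hz2 (by positivity) hr0
  have hW2 : ‖WW y0 x N‖ ≤ M := by
    rw [hWn, hM]
    exact mul_le_mul hrM hz1 (norm_nonneg _) (by positivity)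
  have hWpos : 0 < ‖WW y0 x N‖ := lt_of_lt_of_le hm0 hW1
  refine ⟨norm_pos_iff.1 hWpos, ?_⟩
  have l1 := Real.log_le_log hm0 hW1
  have l2 := Real.log_le_log hWpos hW2
  rw [abs_le]
  constructor
  · have := neg_abs_le (Real.log m)
    have := le_max_left |Real.log m| |Real.log M|
    linarith
  · have := le_abs_self (Real.log M)
    have := le_max_right |Real.log m| |Real.log M|
    linarith

/-- The main local asymptotics, along sequences. -/
theorem main_seq (hy0 : 1 / 2 < y0) (hy1 : y0 < 1) (hk : k0 = y0 - 1 / 2)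
    (hx : ∀ N, |x N - xs k0 N| ≤ R) {w : ℕ → ℂ} {K : ℝ} (hw : ∀ᶠ N in atTop, ‖w N‖ ≤ K) :
    Tendsto (fun N => XiTrunc N (x N + y0 * I + w N / LN N) / TT N (x N + y0 * I) -
      (WW y0 x N * Complex.exp (-(I * w N)) - 1)) atTop (𝓝 0) := by
  have hσ : 1 < 1 / 2 + y0 := by linarith
  set h : ℕ → ℂ := fun N => w N / LN N with hh
  -- h → 0
  have hh0 : Tendsto h atTop (𝓝 0) := by
    refine squeeze_zero_norm' (a := fun N => K / LN N) ?_ (LN_tendsto.const_div_atTop _)
    filter_upwards [hw, LN_tendsto.eventually_gt_atTop 0] with N hN hL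
    rw [hh]; simp only
    rw [norm_div, Complex.norm_real, Real.norm_eq_abs, abs_of_pos hL]
    exact div_le_div_of_nonneg_right hN hL.le
  -- small
  set d := min (1 / 2) ((y0 - 1 / 2) / 2) with hd
  have hd0 : 0 < d := by rw [hd]; apply lt_min <;> linarith
  have hd1 : d ≤ 1 / 2 := min_le_left _ _
  have hd2 : d ≤ (y0 - 1 / 2) / 2 := min_le_right _ _
  have hsmall : ∀ᶠ N in atTop, ‖h N‖ ≤ d := by
    have := hh0.norm
    rw [norm_zero] at this
    exact this.eventually_le_const hd0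
  have him : ∀ᶠ N in atTop, (y0 + 1 / 2) / 2 ≤ y0 + (h N).im ∧ y0 + (h N).im ≤ 2 := by
    filter_upwards [hsmall] with N hN
    have h1 := (Complex.abs_im_le_norm (h N)).trans hN
    have h2 := abs_le.1 h1
    constructor <;> linarith [h2.1, h2.2]
  -- A : PF ratio
  have A0 := PF_ratio_ev (z := fun N => (x N : ℂ) + y0 * I) (h := h) (B := 1) (H := 1) le_rfl
    (by simpa using x_tendsto hx)
    (by
      filter_upwards [hsmall, him] with N hN hi
      refine ⟨?_, by linarith, ?_, ?_⟩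
      · have e : ((x N : ℂ) + y0 * I).im = y0 := by simp
        rw [e, abs_of_pos (by linarith)]; exact hy1.le
      · have e : ((x N : ℂ) + y0 * I).im = y0 := by simp
        rw [e]; linarith
      · have e : ((x N : ℂ) + y0 * I + h N).im = y0 + (h N).im := by simp
        rw [e]; linarith [hi.1])
  have A1 : Tendsto (fun N => I * h N * (LL (x N) : ℂ) + Real.pi * h N / 4 - I * w N) atTop
      (𝓝 0) := by
    have t1 := (Complex.continuous_ofReal.tendsto _).comp (LL_sub hx)
    rw [Complex.ofReal_zero] at t1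
    have t2 := (hh0.const_mul I).mul t1
    have t3 := (hh0.const_mul (Real.pi : ℂ)).div_const 4
    have t4 := t2.add t3
    simp only [mul_zero, zero_div, add_zero] at t4
    refine t4.congr' ?_
    filter_upwards [LN_tendsto.eventually_gt_atTop 0] with N hL
    have hLne : (LN N : ℂ) ≠ 0 := by exact_mod_cast hL.ne'
    simp only [Function.comp]
    have e : w N = h N * LN N := by rw [hh]; field_simp
    rw [e]
    push_cast
    ring
  have A2 := (Complex.continuous_exp.tendsto _).comp A1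
  rw [Complex.exp_zero] at A2
  have A3 := A0.div A2 one_ne_zero
  rw [div_one] at A3
  have A4 : Tendsto (fun N => PF (x N + y0 * I + h N) / PF (x N + y0 * I) *
      Complex.exp (I * w N)) atTop (𝓝 1) := by
    refine A3.congr' ?_
    refine Eventually.of_forall fun N => ?_
    have e : ((x N : ℂ) + y0 * I).re = x N := by simp
    simp only [Pi.div_apply, Function.comp, e]
    rw [Complex.exp_sub]
    have n1 := Complex.exp_ne_zero (I * h N * (LL (x N) : ℂ) + Real.pi * h N / 4)
    field_simp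
  have A5 : Tendsto (fun N => PF (x N + y0 * I + h N) / PF (x N + y0 * I) -
      Complex.exp (-(I * w N))) atTop (𝓝 0) := by
    have t1 := (A4.sub_const 1).norm
    rw [sub_self, norm_zero] at t1
    have t2 := t1.mul_const (Real.exp K)
    rw [zero_mul] at t2
    refine squeeze_zero_norm' ?_ t2
    filter_upwards [hw] with N hN
    have e : PF (x N + y0 * I + h N) / PF (x N + y0 * I) - Complex.exp (-(I * w N)) =
        (PF (x N + y0 * I + h N) / PF (x N + y0 * I) * Complex.exp (I * w N) - 1) *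
        Complex.exp (-(I * w N)) := by
      rw [sub_mul, mul_assoc, ← Complex.exp_add, add_neg_cancel, Complex.exp_zero]; ring
    rw [e, norm_mul]
    apply mul_le_mul_of_nonneg_left _ (norm_nonneg _)
    refine (Complex.norm_exp_le_exp_norm _).trans ?_
    apply Real.exp_le_exp.2
    rw [norm_neg, norm_mul, norm_I, one_mul]
    exact hN
  -- B : zeta ratio
  have B1 : Tendsto (fun N => riemannZeta (sv (x N + y0 * I + h N)) /
      riemannZeta (sv (x N + y0 * I)) - 1) atTop (𝓝 0) := by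
    set σ1 := 1 / 2 + (y0 + 1 / 2) / 2 with hσ1
    have hσ1' : 1 < σ1 := by rw [hσ1]; linarith
    set C := Zb ((1 + σ1) / 2) / ((σ1 - 1) / 2) with hC
    have t1 := hh0.norm.const_mul (C * Zb (1 / 2 + y0))
    rw [norm_zero, mul_zero] at t1
    refine squeeze_zero_norm' ?_ t1
    filter_upwards [him] with N hi
    have r1 : (sv (x N + y0 * I)).re = 1 / 2 + y0 := sv_re' _ _
    have r2 : (sv (x N + y0 * I + h N)).re = 1 / 2 + (y0 + (h N).im) := by
      rw [sv_re]; simp
    have l1 := zeta_lipschitz hσ1' (s := sv (x N + y0 * I)) (t := sv (x N + y0 * I + h N))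
      (by rw [r1, hσ1]; linarith) (by rw [r2, hσ1]; linarith [hi.1])
    have l2 := norm_zeta_ge hσ (s := sv (x N + y0 * I)) (by rw [r1])
    have hZ := Zb_pos hσ
    have hzpos : 0 < ‖riemannZeta (sv (x N + y0 * I))‖ := lt_of_lt_of_le (by positivity) l2
    have hne : riemannZeta (sv (x N + y0 * I)) ≠ 0 := norm_pos_iff.1 hzpos
    have e : riemannZeta (sv (x N + y0 * I + h N)) / riemannZeta (sv (x N + y0 * I)) - 1 =
        (riemannZeta (sv (x N + y0 * I + h N)) - riemannZeta (sv (x N + y0 * I))) /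
        riemannZeta (sv (x N + y0 * I)) := by field_simp
    have e2 : sv (x N + y0 * I + h N) - sv (x N + y0 * I) = -(I * h N) := by
      rw [sv_add]; ring
    rw [e2, norm_neg, norm_mul, norm_I, one_mul, ← hC] at l1
    rw [e, norm_div, div_le_iff₀ hzpos]
    have hC0 : 0 ≤ C := by
      rw [hC]
      have := Zb_pos (show 1 < (1 + σ1) / 2 by linarith)
      have h3 : 0 < (σ1 - 1) / 2 := by linarith
      positivity
    have l3 : 1 ≤ Zb (1 / 2 + y0) * ‖riemannZeta (sv (x N + y0 * I))‖ := by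
      rw [div_le_iff₀ hZ] at l2
      linarith
    calc _ ≤ C * ‖h N‖ := l1
      _ ≤ C * ‖h N‖ * (Zb (1 / 2 + y0) * ‖riemannZeta (sv (x N + y0 * I))‖) :=
          le_mul_of_one_le_right (by positivity) l3
      _ = _ := by ring
  -- C : tail ratio
  obtain ⟨g1, g2⟩ := const_g hy0 hy1
  have T1 := TT_lim hx g1 g2
  have hg1' : ∀ᶠ N in atTop, ‖(y0 : ℂ) * I + h N‖ ≤ 2 := by
    filter_upwards [g1, hsmall] with N a b
    exact (norm_add_le _ _).trans (by linarith)
  have hg2' : ∀ᶠ N in atTop, 1 / 2 < ((y0 : ℂ) * I + h N).im ∧ ((y0 : ℂ) * I + h N).im ≤ 2 := by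
    filter_upwards [him] with N hi
    have e : ((y0 : ℂ) * I + h N).im = y0 + (h N).im := by simp
    rw [e]
    exact ⟨by linarith [hi.1], hi.2⟩
  have T2 := TT_lim hx hg1' hg2'
  have T3 := T2.div T1 (kap_ne_zero _)
  rw [div_self (kap_ne_zero _)] at T3
  have hTne := TT_ne_zero hx g1 g2
  have T4 : Tendsto (fun N => TT N (x N + y0 * I + h N) / TT N (x N + y0 * I) - 1) atTop (𝓝 0) := by
    have t := T3.sub_const 1
    rw [sub_self] at t
    refine t.congr' ?_
    refine Eventually.of_forall fun N => ?_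
    simp only [Pi.div_apply]
    have n1 : ((Real.exp (an N) / an N : ℝ) : ℂ) ≠ 0 := by exact_mod_cast (scale_pos N).ne'
    rw [mul_div_mul_left _ _ n1, ← add_assoc]
  -- D : W bounded
  obtain ⟨K1, hK1⟩ := norm_WW_bounds hy0 hy1 hk hx
  have hWb : ∀ᶠ N in atTop, ‖WW y0 x N‖ ≤ Real.exp K1 := by
    filter_upwards [hK1] with N hN
    have h1 := (le_abs_self _).trans hN.2
    have h2 := Real.exp_le_exp.2 h1
    rwa [Real.exp_log (norm_pos_iff.2 hN.1)] at h2
  -- E : product
  have E1 : Tendsto (fun N => PF (x N + y0 * I + h N) / PF (x N + y0 * I) *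
      (riemannZeta (sv (x N + y0 * I + h N)) / riemannZeta (sv (x N + y0 * I))) -
      Complex.exp (-(I * w N))) atTop (𝓝 0) := by
    -- a b - e = a (b - 1) + (a - e), with a bounded
    have hab : Tendsto (fun N => PF (x N + y0 * I + h N) / PF (x N + y0 * I) *
      (riemannZeta (sv (x N + y0 * I + h N)) / riemannZeta (sv (x N + y0 * I)) - 1)) atTop (𝓝 0) := by
      have t1 := B1.norm.const_mul (Real.exp K + 1)
      rw [norm_zero, mul_zero] at t1
      refine squeeze_zero_norm' ?_ t1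
      have hA5 := A5.norm
      rw [norm_zero] at hA5
      filter_upwards [hw, hA5.eventually_le_const one_pos] with N hN hN2
      rw [norm_mul]
      apply mul_le_mul_of_nonneg_right _ (norm_nonneg _)
      have h3 : ‖Complex.exp (-(I * w N))‖ ≤ Real.exp K := by
        refine (Complex.norm_exp_le_exp_norm _).trans ?_
        apply Real.exp_le_exp.2
        rw [norm_neg, norm_mul, norm_I, one_mul]
        exact hN
      have h4 := norm_add_le (PF (x N + y0 * I + h N) / PF (x N + y0 * I) -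
        Complex.exp (-(I * w N))) (Complex.exp (-(I * w N)))
      rw [sub_add_cancel] at h4
      linarith
    have t := hab.add A5
    rw [add_zero] at t
    refine t.congr fun N => ?_
    ring
  have E2 : Tendsto (fun N => WW y0 x N * (PF (x N + y0 * I + h N) / PF (x N + y0 * I) *
      (riemannZeta (sv (x N + y0 * I + h N)) / riemannZeta (sv (x N + y0 * I))) -
      Complex.exp (-(I * w N)))) atTop (𝓝 0) := by
    have t1 := E1.norm.const_mul (Real.exp K1)
    rw [norm_zero, mul_zero] at t1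
    refine squeeze_zero_norm' ?_ t1
    filter_upwards [hWb] with N hN
    rw [norm_mul]
    exact mul_le_mul_of_nonneg_right hN (norm_nonneg _)
  have E3 := E2.sub T4
  rw [sub_zero] at E3
  refine E3.congr' ?_
  filter_upwards [him, hTne, (x_tendsto hx).eventually_gt_atTop 0] with N hi hT hxN
  have hxi := XiTrunc_add_TT (z := x N + y0 * I + h N) (by
    have e : ((x N : ℂ) + y0 * I + h N).im = y0 + (h N).im := by simp
    rw [e]; linarith [hi.1]) N
  have hxi' : XiTrunc N (x N + y0 * I + h N) = PF (x N + y0 * I + h N) *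
      riemannZeta (sv (x N + y0 * I + h N)) - TT N (x N + y0 * I + h N) := by
    rw [← hxi]; ring
  have hw' : w N / (LN N : ℂ) = h N := rfl
  rw [hw', hxi']
  unfold WW
  have n1 : PF (x N + y0 * I) ≠ 0 := by
    apply PF_ne_zero
    · simp; exact hxN.ne'
    · simp; linarith
  have n2 : riemannZeta (sv (x N + y0 * I)) ≠ 0 := by
    have l2 := norm_zeta_ge hσ (s := sv (x N + y0 * I)) (by rw [sv_re'])
    have hZ := Zb_pos hσ
    exact norm_pos_iff.1 (lt_of_lt_of_le (by positivity) l2)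
  generalize PF (x N + y0 * I + h N) = p1 at *
  generalize PF (x N + y0 * I) = p0 at *
  generalize riemannZeta (sv (x N + y0 * I + h N)) = q1 at *
  generalize riemannZeta (sv (x N + y0 * I)) = q0 at *
  generalize TT N (x N + y0 * I + h N) = t1 at *
  generalize TT N (x N + y0 * I) = t0 at *
  field_simp
  ring

/-- Existence of a zero near `x + i y0`, with control of its location. -/
theorem zero_near (hy0 : 1 / 2 < y0) (hy1 : y0 < 1) (hk : k0 = y0 - 1 / 2)
    (hx : ∀ N, |x N - xs k0 N| ≤ R) {ρ : ℝ} (hρ : 0 < ρ) (hρ2 : ρ ≤ 1 / 2) :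
    ∀ᶠ N in atTop, ∃ w : ℂ, ‖w - -(I * Complex.log (WW y0 x N))‖ ≤ ρ ∧
      XiTrunc N (x N + y0 * I + w / LN N) = 0 := by
  classical
  obtain ⟨K1, hK1⟩ := norm_WW_bounds hy0 hy1 hk hx
  set w0 : ℕ → ℂ := fun N => -(I * Complex.log (WW y0 x N)) with hw0
  set err : ℕ → ℂ → ℂ := fun N w => XiTrunc N (x N + y0 * I + w / LN N) / TT N (x N + y0 * I) -
      (WW y0 x N * Complex.exp (-(I * w)) - 1) with herr
  have hw0b : ∀ᶠ N in atTop, ‖w0 N‖ ≤ K1 + Real.pi := by
    filter_upwards [hK1] with N hN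
    rw [hw0]; simp only
    rw [norm_neg, norm_mul, norm_I, one_mul]
    refine (Complex.norm_le_abs_re_add_abs_im _).trans ?_
    rw [Complex.log_re, Complex.log_im]
    exact add_le_add hN.2 (Complex.abs_arg_le_pi _)
  set w : ℕ → ℂ := fun N => if hc : ∃ w : ℂ, ‖w - w0 N‖ ≤ ρ ∧ ρ / 10 < ‖err N w‖ then hc.choose
    else w0 N with hwdef
  have hwn : ∀ N, ‖w N - w0 N‖ ≤ ρ := by
    intro N
    rw [hwdef]; simp only
    split_ifs with hc
    · exact hc.choose_spec.1
    · simp [hρ.le]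
  have hwb : ∀ᶠ N in atTop, ‖w N‖ ≤ K1 + Real.pi + 1 := by
    filter_upwards [hw0b] with N hN
    have h1 : w N = (w N - w0 N) + w0 N := by ring
    rw [h1]
    refine (norm_add_le _ _).trans ?_
    have := hwn N
    linarith
  have hlim := (main_seq hy0 hy1 hk hx hwb).norm
  rw [norm_zero] at hlim
  obtain ⟨g1, g2⟩ := const_g hy0 hy1
  filter_upwards [hlim.eventually_le_const (show 0 < ρ / 10 by positivity), hK1,
    TT_ne_zero hx g1 g2] with N hN hN2 hT
  have hno : ¬ ∃ w : ℂ, ‖w - w0 N‖ ≤ ρ ∧ ρ / 10 < ‖err N w‖ := by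
    intro hc
    have h1 : w N = hc.choose := by
      rw [hwdef]; simp only; rw [dif_pos hc]
    have h2 := hc.choose_spec.2
    rw [← h1] at h2
    have h3 : ‖err N (w N)‖ ≤ ρ / 10 := hN
    linarith
  push Not at hno
  have hW : Complex.exp (I * w0 N) = WW y0 x N := by
    rw [hw0]; simp only
    have e : I * -(I * Complex.log (WW y0 x N)) = Complex.log (WW y0 x N) := by
      linear_combination (-Complex.log (WW y0 x N)) * Complex.I_sq
    rw [e, Complex.exp_log hN2.1]
  have hdiff : Differentiable ℂ (fun w : ℂ => XiTrunc N (x N + y0 * I + w / LN N) /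
      TT N (x N + y0 * I)) := by
    refine Differentiable.div_const ?_ _
    exact (differentiable_XiTrunc N).comp (by fun_prop)
  obtain ⟨v, hv1, hv2⟩ := exists_zero hdiff hW hρ hρ2 hno
  refine ⟨v, hv1, ?_⟩
  rcases div_eq_zero_iff.1 hv2 with h | h
  · exact h
  · exact absurd h hT

end Pool.Agent.Lib.MP_13bed0_nt
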